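import Pool.Agent.Lib.MP_b6bd4b_an.SQ.Var

/-!
Module Abs: the linear term is absorbed in the operator, for the forms `‖T y‖² - N(y, y)`.
-/

namespace Pool.Agent.Lib.MP_b6bd4b_an.SQ

open Finset SB RealInnerProductSpace

variable {X : Type*} [NormedAddCommGroup X] [NormedSpace ℝ X] {d : ℕ}

/-- Weighted form of `PosDom.dom`. -/
theorem PosDom.wdom {e : ℝ} {B : X →L[ℝ] X →L[ℝ] ℝ} (hB : PosDom e B) {n : ℕ} (w : Fin n → ℝ)
    (hw0 : ∀ i, 0 ≤ w i) (u : Fin n → X) (M : ℝ)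
    (hM : ∀ g : X →L[ℝ] ℝ, ‖g‖ ≤ 1 → ∑ i, w i * g (u i) ^ 2 ≤ M) :
    ∑ i, w i * B (u i) (u i) ≤ e * M := by
  have h1 := hB.dom n (fun i => Real.sqrt (w i) • u i) M (fun g hg => by
    refine le_trans (le_of_eq (Finset.sum_congr rfl fun i _ => ?_)) (hM g hg)
    rw [map_smul, smul_eq_mul, mul_pow, Real.sq_sqrt (hw0 i)])
  refine le_trans (le_of_eq (Finset.sum_congr rfl fun i _ => ?_)) h1
  simp only [map_smul, _root_.smul_apply, smul_eq_mul]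
  rw [← mul_assoc, Real.mul_self_sqrt (hw0 i)]

/-- Two functionals of norms at most `b` and `R`. -/
theorem cross_le (g l : X →L[ℝ] ℝ) (b R : ℝ) (hb : 0 < b) (hR : 0 < R) (hg : ‖g‖ ≤ b) (hl : ‖l‖ ≤ R)
    {n : ℕ} (w : Fin n → ℝ) (hw0 : ∀ i, 0 ≤ w i) (u : Fin n → X) (M : ℝ)
    (hM : ∀ g : X →L[ℝ] ℝ, ‖g‖ ≤ 1 → ∑ i, w i * g (u i) ^ 2 ≤ M) :
    ∑ i, w i * (2 * g (u i) * l (u i) + g (u i) ^ 2) ≤ (2 * b * R + b ^ 2) * M := by
  have h1 := hM (b⁻¹ • g) (by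
    rw [norm_smul, norm_inv, Real.norm_of_nonneg hb.le, inv_mul_le_iff₀ hb, mul_one]
    exact hg)
  have h2 := hM (R⁻¹ • l) (by
    rw [norm_smul, norm_inv, Real.norm_of_nonneg hR.le, inv_mul_le_iff₀ hR, mul_one]
    exact hl)
  have h3 : ∀ i, w i * (2 * g (u i) * l (u i) + g (u i) ^ 2) ≤
      (b * R + b ^ 2) * (w i * (b⁻¹ • g) (u i) ^ 2) + b * R * (w i * (R⁻¹ • l) (u i) ^ 2) := by
    intro i
    obtain ⟨p, hp⟩ : ∃ p : ℝ, p = (b⁻¹ • g) (u i) := ⟨_, rfl⟩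
    obtain ⟨q, hq⟩ : ∃ q : ℝ, q = (R⁻¹ • l) (u i) := ⟨_, rfl⟩
    have e1 : g (u i) = b * p := by
      rw [hp]
      change g (u i) = b * (b⁻¹ * g (u i))
      field_simp
    have e2 : l (u i) = R * q := by
      rw [hq]
      change l (u i) = R * (R⁻¹ * l (u i))
      field_simp
    rw [← hp, ← hq, e1, e2]
    have h4 : 0 ≤ w i * (b * R) := mul_nonneg (hw0 i) (by positivity)
    nlinarith [mul_nonneg h4 (sq_nonneg (p - q))]
  calc ∑ i, w i * (2 * g (u i) * l (u i) + g (u i) ^ 2)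
      ≤ ∑ i, ((b * R + b ^ 2) * (w i * (b⁻¹ • g) (u i) ^ 2) + b * R * (w i * (R⁻¹ • l) (u i) ^ 2)) :=
        Finset.sum_le_sum fun i _ => h3 i
    _ = (b * R + b ^ 2) * ∑ i, w i * (b⁻¹ • g) (u i) ^ 2 + b * R * ∑ i, w i * (R⁻¹ • l) (u i) ^ 2 := by
        rw [Finset.sum_add_distrib, Finset.mul_sum, Finset.mul_sum]
    _ ≤ (b * R + b ^ 2) * M + b * R * M := by
        refine add_le_add (mul_le_mul_of_nonneg_left h1 (by positivity))
          (mul_le_mul_of_nonneg_left h2 (by positivity))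
    _ = (2 * b * R + b ^ 2) * M := by ring

theorem absorb (T : X →L[ℝ] Eu d) (R : ℝ) (hR1 : 1 ≤ R) (hT : ‖T‖ ≤ R) (N : X →L[ℝ] X →L[ℝ] ℝ)
    (x : X) (hx : ‖x‖ ≤ 1) (hr : 1 / 2 ≤ ‖T x‖) (B : X →L[ℝ] X →L[ℝ] ℝ) (e φ : ℝ) (hφ0 : 0 < φ)
    (hφ : φ ≤ 1 / 8) (hB : PosDom e B) (f : X →L[ℝ] ℝ) (hf : ‖f‖ ≤ φ)
    (h : ∀ y : X, ‖y‖ ≤ 1 → ‖T y‖ ^ 2 - N y y ≤ ‖T x‖ ^ 2 - N x x + B (y - x) (y - x) + f (y - x)) :
    ∃ S : X →L[ℝ] Eu d, ‖S - T‖ ≤ 4 * R * φ ∧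
      ∀ (n : ℕ) (w : Fin n → ℝ) (y : Fin n → X) (M : ℝ), (∀ i, 0 ≤ w i) → ∑ i, w i = 1 →
        (∀ i, ‖y i‖ ≤ 1) → (∀ g : X →L[ℝ] ℝ, ‖g‖ ≤ 1 → ∑ i, w i * g (y i - x) ^ 2 ≤ M) →
        ∑ i, w i * (‖S (y i)‖ ^ 2 - N (y i) (y i)) ≤
          ‖S x‖ ^ 2 - N x x + (e + 10 * R ^ 2 * φ) * M := by
  obtain ⟨r, hrdef⟩ : ∃ r : ℝ, r = ‖T x‖ := ⟨_, rfl⟩
  rw [← hrdef] at hr
  have hr0 : 0 < r := by linarith
  have hR0 : 0 < R := by linarith
  obtain ⟨v, hv⟩ : ∃ v : Eu d, v = r⁻¹ • T x := ⟨_, rfl⟩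
  have hTx : T x = r • v := by rw [hv, smul_smul, mul_inv_cancel₀ hr0.ne', one_smul]
  have hvn : ‖v‖ = 1 := by
    rw [hv, norm_smul, norm_inv, Real.norm_of_nonneg hr0.le, ← hrdef, inv_mul_cancel₀ hr0.ne']
  have hfx : |f x| ≤ φ := by
    have h1 := f.le_opNorm x
    rw [Real.norm_eq_abs] at h1
    have h2 : ‖f‖ * ‖x‖ ≤ φ * 1 := mul_le_mul hf hx (norm_nonneg _) hφ0.le
    linarith
  have hfx' := abs_le.1 hfx
  obtain ⟨q, hq⟩ : ∃ q : ℝ, q = Real.sqrt (r ^ 2 - f x / 2) := ⟨_, rfl⟩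
  have hq0 : 0 ≤ q := by rw [hq]; exact Real.sqrt_nonneg _
  have hq2 : q ^ 2 = r ^ 2 - f x / 2 := by
    rw [hq]
    exact Real.sq_sqrt (by nlinarith [hfx'.2])
  obtain ⟨t, ht⟩ : ∃ t : ℝ, t = q - r := ⟨_, rfl⟩
  have hteq : 2 * t ^ 2 + 4 * r * t + f x = 0 := by rw [ht]; nlinarith
  have htabs : |t| ≤ φ := by
    have h1 : t * (q + r) = -(f x / 2) := by rw [ht]; nlinarith
    have h2a : |t * (q + r)| = |t| * (q + r) := by
      rw [abs_mul, abs_of_nonneg (by linarith : (0 : ℝ) ≤ q + r)]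
    have h2 : |t| * (q + r) = |f x| / 2 := by
      rw [← h2a, h1, abs_neg, abs_div, abs_two]
    have h3 : |t| * (1 / 2) ≤ |t| * (q + r) := mul_le_mul_of_nonneg_left (by linarith) (abs_nonneg _)
    linarith
  have ht' := abs_le.1 htabs
  have hden : 3 / 4 ≤ 2 * r + 2 * t := by linarith [ht'.1]
  have hden0 : 0 < 2 * r + 2 * t := by linarith
  obtain ⟨l, hl⟩ : ∃ l : X →L[ℝ] ℝ, l = (innerSL ℝ v).comp T := ⟨_, rfl⟩
  have hlu : ∀ u, l u = ⟪v, T u⟫ := fun u => by rw [hl]; rfl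
  have hln : ‖l‖ ≤ R := by
    rw [hl]
    refine ContinuousLinearMap.opNorm_le_bound _ hR0.le fun z => ?_
    have h4 : ‖⟪v, T z⟫‖ ≤ ‖v‖ * ‖T z‖ := norm_inner_le_norm _ _
    rw [hvn, one_mul] at h4
    exact h4.trans ((T.le_opNorm z).trans (mul_le_mul_of_nonneg_right hT (norm_nonneg _)))
  obtain ⟨g, hg⟩ : ∃ g : X →L[ℝ] ℝ, g = (-(2 * r + 2 * t)⁻¹) • (f + (2 * t) • l) := ⟨_, rfl⟩
  have hgu : ∀ u, (2 * r + 2 * t) * g u = -(f u + 2 * t * l u) := by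
    intro u
    have h1 : g u = -(2 * r + 2 * t)⁻¹ * (f u + 2 * t * l u) := by rw [hg]; rfl
    rw [h1, neg_mul, mul_neg, ← mul_assoc, mul_inv_cancel₀ hden0.ne', one_mul]
  have hgx : g x = t := by
    have h1 := hgu x
    have h2 : l x = r := by
      rw [hlu, hTx, real_inner_smul_right, real_inner_self_eq_norm_sq, hvn]
      ring
    rw [h2] at h1
    have h3 : (2 * r + 2 * t) * g x = (2 * r + 2 * t) * t := by rw [h1]; linarith
    exact mul_left_cancel₀ hden0.ne' h3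
  have hgn : ‖g‖ ≤ 4 * R * φ := by
    rw [hg, norm_smul, norm_neg, norm_inv, Real.norm_of_nonneg hden0.le, inv_mul_le_iff₀ hden0]
    have h1 : ‖(2 * t) • l‖ ≤ 2 * φ * R := by
      rw [norm_smul, Real.norm_eq_abs, abs_mul, abs_two]
      exact mul_le_mul (by linarith) hln (norm_nonneg _) (by positivity)
    have h2 := norm_add_le f ((2 * t) • l)
    have h3 : φ + 2 * φ * R ≤ 3 * (R * φ) := by nlinarith
    have h4 : 3 / 4 * (4 * R * φ) ≤ (2 * r + 2 * t) * (4 * R * φ) :=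
      mul_le_mul_of_nonneg_right hden (by positivity)
    linarith
  refine ⟨T + g.smulRight v, ?_, ?_⟩
  · rw [add_sub_cancel_left, ContinuousLinearMap.norm_smulRight_apply, hvn, mul_one]
    exact hgn
  intro n w y M hw0 hw1 hy hM
  have hSv : ∀ u : X, (T + g.smulRight v) u = T u + g u • v := fun u => rfl
  have hM0 : 0 ≤ M := by
    have h1 := hM 0 (by simp)
    simpa using h1
  -- the identity for one point
  have hT1 : ∀ u : X, ‖T (x + u)‖ ^ 2 - ‖T x‖ ^ 2 = 2 * r * l u + ‖T u‖ ^ 2 := by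
    intro u
    rw [map_add, norm_add_sq_real, hlu]
    nth_rewrite 2 [hTx]
    rw [real_inner_smul_left]
    ring
  have hS1 : ∀ u : X, ‖(T + g.smulRight v) (x + u)‖ ^ 2 - ‖(T + g.smulRight v) x‖ ^ 2 =
      (‖T (x + u)‖ ^ 2 - ‖T x‖ ^ 2) - f u + (2 * g u * l u + g u ^ 2) := by
    intro u
    rw [hT1, map_add, norm_add_sq_real, hSv, hSv, hTx, hgx]
    have h1 : r • v + t • v = (r + t) • v := by rw [← add_smul]
    rw [h1, real_inner_smul_left, inner_add_right, real_inner_smul_right, real_inner_self_eq_norm_sq, hvn,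
      norm_add_sq_real (T u), real_inner_smul_right, real_inner_comm v (T u), norm_smul (g u) v, hvn,
      mul_one, Real.norm_eq_abs, sq_abs, ← hlu]
    have h2 := hgu u
    linear_combination h2
  have hpt : ∀ i, ‖(T + g.smulRight v) (y i)‖ ^ 2 - N (y i) (y i) ≤
      (‖(T + g.smulRight v) x‖ ^ 2 - N x x) + B (y i - x) (y i - x) +
        (2 * g (y i - x) * l (y i - x) + g (y i - x) ^ 2) := by
    intro i
    have h1 := hS1 (y i - x)
    rw [add_sub_cancel] at h1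
    have h2 := h (y i) (hy i)
    linarith
  have hB1 := hB.wdom w hw0 (fun i => y i - x) M hM
  have hc1 := cross_le g l (4 * R * φ) R (by positivity) hR0 hgn hln w hw0 (fun i => y i - x) M hM
  have hconst : (2 * (4 * R * φ) * R + (4 * R * φ) ^ 2) ≤ 10 * R ^ 2 * φ := by
    have h1 : (4 * R * φ) ^ 2 = 16 * R ^ 2 * φ * φ := by ring
    have h2 : 16 * R ^ 2 * φ * φ ≤ 16 * R ^ 2 * φ * (1 / 8) :=
      mul_le_mul_of_nonneg_left hφ (by positivity)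
    nlinarith
  calc ∑ i, w i * (‖(T + g.smulRight v) (y i)‖ ^ 2 - N (y i) (y i))
      ≤ ∑ i, w i * ((‖(T + g.smulRight v) x‖ ^ 2 - N x x) + B (y i - x) (y i - x) +
        (2 * g (y i - x) * l (y i - x) + g (y i - x) ^ 2)) :=
        Finset.sum_le_sum fun i _ => mul_le_mul_of_nonneg_left (hpt i) (hw0 i)
    _ = (‖(T + g.smulRight v) x‖ ^ 2 - N x x) + ∑ i, w i * B (y i - x) (y i - x) +
        ∑ i, w i * (2 * g (y i - x) * l (y i - x) + g (y i - x) ^ 2) := by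
        simp only [mul_add, Finset.sum_add_distrib]
        rw [← Finset.sum_mul, hw1, one_mul]
    _ ≤ (‖(T + g.smulRight v) x‖ ^ 2 - N x x) + e * M + (2 * (4 * R * φ) * R + (4 * R * φ) ^ 2) * M := by
        linarith
    _ ≤ ‖(T + g.smulRight v) x‖ ^ 2 - N x x + (e + 10 * R ^ 2 * φ) * M := by
        have := mul_le_mul_of_nonneg_right hconst hM0
        linarith

end Pool.Agent.Lib.MP_b6bd4b_an.SQ
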