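import Pool.Agent.Lib.MP_b6bd4b_an.SQ.Var

/-!
Module Att: from the inequality `Φ y ≤ Φ p + B(y - p, y - p) + f(y - p)` on the unit ball, `Φ` even, to a quadratic form
`c` such that `Φ y - c(y, y)` attains its supremum over the unit ball at `p`.
-/

namespace Pool.Agent.Lib.MP_b6bd4b_an.SQ

open Finset SB

variable {X : Type*} [NormedAddCommGroup X] [NormedSpace ℝ X]

/-- `p` is a unit vector. -/
theorem norm_one_of (Φ : X → ℝ) (hhom : ∀ (r : ℝ) (y : X), Φ (r • y) = r ^ 2 * Φ y) (ε : ℝ)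
    (hε : 0 ≤ ε) (hε1 : ε ≤ 1 / 8) (p : X) (hp : ‖p‖ ≤ 1) (hr : 1 / 4 ≤ Φ p)
    (B : X →L[ℝ] X →L[ℝ] ℝ) (f : X →L[ℝ] ℝ) (hB : PosDom ε B) (hf : ‖f‖ ≤ ε)
    (h : ∀ y : X, ‖y‖ ≤ 1 → Φ y ≤ Φ p + B (y - p) (y - p) + f (y - p)) : ‖p‖ = 1 := by
  by_contra hne
  have hlt : ‖p‖ < 1 := lt_of_le_of_ne hp hne
  have hp0 : 0 < ‖p‖ := by
    rw [norm_pos_iff]
    rintro rfl
    have := hhom 0 0
    rw [zero_smul] at this
    rw [this] at hr
    norm_num at hr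
  set t := ‖p‖ with ht
  have h1 := h (t⁻¹ • p) (by
    rw [norm_smul, norm_inv, norm_norm, ← ht, inv_mul_cancel₀ hp0.ne'])
  have e1 : t⁻¹ • p - p = (t⁻¹ - 1) • p := by rw [sub_smul, one_smul]
  have ht1 : 0 < t⁻¹ - 1 := by
    have : 1 < t⁻¹ := (one_lt_inv₀ hp0).2 hlt
    linarith
  have e2 : ‖t⁻¹ • p - p‖ = 1 - t := by
    rw [e1, norm_smul, Real.norm_of_nonneg ht1.le, ← ht, sub_mul, inv_mul_cancel₀ hp0.ne', one_mul]
  have e3 : B (t⁻¹ • p - p) (t⁻¹ • p - p) ≤ ε * ((1 - t) * (1 - t)) := by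
    have := (abs_le.1 (hB.bound (t⁻¹ • p - p) (t⁻¹ • p - p))).2
    rwa [e2] at this
  have e4 : f (t⁻¹ • p - p) ≤ ε * (1 - t) := by
    have := f.le_opNorm (t⁻¹ • p - p)
    rw [e2, Real.norm_eq_abs] at this
    exact (le_abs_self _).trans (this.trans (mul_le_mul_of_nonneg_right hf (by linarith)))
  rw [hhom] at h1
  have e7 : t⁻¹ - 1 = (1 - t) * t⁻¹ := by
    rw [sub_mul, mul_inv_cancel₀ hp0.ne', one_mul]
  have e8 : 1 ≤ t⁻¹ := by linarith
  have e10 : (1 - t) * (1 / 2) ≤ (t⁻¹ ^ 2 - 1) * Φ p := by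
    have e9 : t⁻¹ ^ 2 - 1 = (1 - t) * (t⁻¹ * (t⁻¹ + 1)) := by
      have : t⁻¹ ^ 2 - 1 = (t⁻¹ - 1) * (t⁻¹ + 1) := by ring
      rw [this, e7]; ring
    rw [e9]
    have e11 : (2 : ℝ) ≤ t⁻¹ * (t⁻¹ + 1) := by nlinarith
    have e12 : (1 / 2 : ℝ) ≤ t⁻¹ * (t⁻¹ + 1) * Φ p := by nlinarith
    calc (1 - t) * (1 / 2) ≤ (1 - t) * (t⁻¹ * (t⁻¹ + 1) * Φ p) :=
          mul_le_mul_of_nonneg_left e12 (by linarith)
      _ = (1 - t) * (t⁻¹ * (t⁻¹ + 1)) * Φ p := by ring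
  have e13 : ε * ((1 - t) * (1 - t)) ≤ ε * (1 - t) := by
    refine mul_le_mul_of_nonneg_left ?_ hε
    nlinarith
  have e14 : (1 - t) * (1 / 2) ≤ (1 - t) * (2 * ε) := by linarith
  have e15 := le_of_mul_le_mul_left e14 (by linarith)
  linarith

/-- The quadratic perturbation. -/
theorem attain (Φ : X → ℝ) (hneg : ∀ y : X, Φ (-y) = Φ y) (ε : ℝ) (hε : 0 < ε)
    (p : X) (hp : ‖p‖ = 1) (B : X →L[ℝ] X →L[ℝ] ℝ) (f : X →L[ℝ] ℝ) (hB : PosDom ε B) (hf : ‖f‖ ≤ ε)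
    (h : ∀ y : X, ‖y‖ ≤ 1 → Φ y ≤ Φ p + B (y - p) (y - p) + f (y - p)) :
    ∃ c : X →L[ℝ] X →L[ℝ] ℝ, (∀ u v, c u v = c v u) ∧ (∀ u v, |c u v| ≤ 7 * ε * (‖u‖ * ‖v‖)) ∧
      (∀ (n : ℕ) (u : Fin n → X) (σ : ℝ), (∀ g : X →L[ℝ] ℝ, ‖g‖ ≤ 1 → ∑ k, g (u k) ^ 2 ≤ σ) →
        ∑ k, |c (u k) (u k)| ≤ 7 * ε * σ) ∧
      ∀ y : X, ‖y‖ ≤ 1 → Φ y - c y y ≤ Φ p - c p p := by
  have hp0 : ‖p‖ ≠ 0 := by
    rw [hp]
    exact one_ne_zero
  obtain ⟨e, he1, he2⟩ := exists_dual_vector ℝ p hp0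
  have hep : e p = 1 := by
    rw [he2, hp]
    rfl
  have hebd : ∀ y, |e y| ≤ ‖y‖ := fun y => by
    have := e.le_opNorm y
    rwa [he1, one_mul, Real.norm_eq_abs] at this
  obtain ⟨τ, hτ⟩ : ∃ τ : ℝ, τ = 3 * ε := ⟨_, rfl⟩
  have hτ0 : 0 < τ := by rw [hτ]; positivity
  let hh : X →L[ℝ] ℝ := f - (2 : ℝ) • B p
  have hhv : ∀ y, hh y = f y - 2 * B p y := fun y => rfl
  have hhb : ∀ y, |hh y| ≤ τ * ‖y‖ := by
    intro y
    rw [hhv]
    have e1 : |f y| ≤ ε * ‖y‖ := by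
      have := f.le_opNorm y
      rw [Real.norm_eq_abs] at this
      exact this.trans (mul_le_mul_of_nonneg_right hf (norm_nonneg _))
    have e2 : |2 * B p y| ≤ 2 * ε * ‖y‖ := by
      have := hB.bound p y
      rw [hp, one_mul] at this
      rw [abs_mul, abs_two]
      linarith
    have e3 := abs_sub (f y) (2 * B p y)
    rw [hτ]
    linarith
  let cl : X →ₗ[ℝ] X →ₗ[ℝ] ℝ := LinearMap.mk₂ ℝ
    (fun u v => B u v + (hh u * e v + e u * hh v) / 2 - τ * (e u * e v))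
    (fun u u' v => by simp only [map_add, _root_.add_apply]; ring)
    (fun c u v => by simp only [map_smul, _root_.smul_apply, smul_eq_mul]; ring)
    (fun u v v' => by simp only [map_add]; ring)
    (fun c u v => by simp only [map_smul, smul_eq_mul]; ring)
  have hcl : ∀ u v, cl u v = B u v + (hh u * e v + e u * hh v) / 2 - τ * (e u * e v) :=
    fun u v => rfl
  have hclb : ∀ u v, |cl u v| ≤ (7 * ε) * ‖u‖ * ‖v‖ := by
    intro u v
    rw [hcl]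
    have e1 : |B u v| ≤ ε * (‖u‖ * ‖v‖) := hB.bound u v
    have e2 : |hh u * e v| ≤ τ * ‖u‖ * ‖v‖ := by
      rw [abs_mul]
      exact mul_le_mul (hhb u) (hebd v) (abs_nonneg _) (by positivity)
    have e3 : |e u * hh v| ≤ τ * ‖u‖ * ‖v‖ := by
      rw [abs_mul, mul_comm τ, mul_assoc]
      exact mul_le_mul (hebd u) (hhb v) (abs_nonneg _) (by positivity)
    have e4 : |τ * (e u * e v)| ≤ τ * ‖u‖ * ‖v‖ := by
      rw [abs_mul, abs_of_nonneg hτ0.le, abs_mul, mul_assoc]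
      exact mul_le_mul_of_nonneg_left (mul_le_mul (hebd u) (hebd v) (abs_nonneg _) (norm_nonneg _)) hτ0.le
    rw [abs_le] at e1 e2 e3 e4 ⊢
    have e5 : (7 * ε) * ‖u‖ * ‖v‖ = ε * (‖u‖ * ‖v‖) + τ * ‖u‖ * ‖v‖ + τ * ‖u‖ * ‖v‖ := by
      rw [hτ]; ring
    constructor <;> linarith [e1.1, e1.2, e2.1, e2.2, e3.1, e3.2, e4.1, e4.2]
  let c : X →L[ℝ] X →L[ℝ] ℝ := LinearMap.mkContinuous₂ cl (7 * ε) (fun u v => by
    rw [Real.norm_eq_abs]
    exact hclb u v)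
  have hc : ∀ u v, c u v = B u v + (hh u * e v + e u * hh v) / 2 - τ * (e u * e v) :=
    fun u v => rfl
  have hcb : ∀ u v, |c u v| ≤ 7 * ε * (‖u‖ * ‖v‖) := fun u v => by
    rw [← mul_assoc]
    exact hclb u v
  -- the key inequality
  have key : ∀ y : X, ‖y‖ ≤ 1 → 0 ≤ e y → Φ y - c y y ≤ Φ p - c p p := by
    intro y hy hey
    have h1 := h y hy
    have e1 : B y y = B p p + 2 * B p (y - p) + B (y - p) (y - p) := by
      have e2 : B (y - p) (y - p) = B y y - B y p - B p y + B p p := by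
        simp only [map_sub, _root_.sub_apply]; ring
      have e3 : B p (y - p) = B p y - B p p := by rw [map_sub]
      rw [e2, e3, hB.symm y p]; ring
    have e4 : hh (y - p) = hh y - hh p := map_sub _ _ _
    have e5 : f (y - p) = hh (y - p) + 2 * B p (y - p) := by rw [hhv]; ring
    have e6 : hh y ≤ τ := by
      have := (abs_le.1 (hhb y)).2
      nlinarith [norm_nonneg y]
    have e7 : e y ≤ 1 := ((le_abs_self _).trans (hebd y)).trans hy
    rw [hc, hc, hep]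
    set s := 1 - e y with hs
    have hs0 : 0 ≤ s := by rw [hs]; linarith
    have hs1 : s ≤ 1 := by rw [hs]; linarith
    have hey' : e y = 1 - s := by rw [hs]; ring
    rw [hey', e1]
    rw [e5, e4] at h1
    have e8 : 0 ≤ s * (τ * (2 - s) - hh y) := by
      apply mul_nonneg hs0
      nlinarith
    nlinarith
  have heven : ∀ y, Φ (-y) - c (-y) (-y) = Φ y - c y y := by
    intro y
    rw [hneg, map_neg]
    simp
  refine ⟨c, ?_, hcb, ?_, ?_⟩
  · intro u v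
    rw [hc, hc, hB.symm u v]
    ring
  · intro n u σ hσ
    have e1 := hB.dom n u σ hσ
    have e2 := hσ e he1.le
    have hσ0 : 0 ≤ σ := by
      have := hσ 0 (by simp)
      simpa using this
    -- `∑ |hh (u k) * e (u k)| ≤ τ σ`
    have e3 : ∑ k, |hh (u k) * e (u k)| ≤ τ * σ := by
      have e4 := hσ (τ⁻¹ • hh) (by
        rw [norm_smul, norm_inv, Real.norm_of_nonneg hτ0.le, inv_mul_le_iff₀ hτ0, mul_one]
        exact ContinuousLinearMap.opNorm_le_bound _ hτ0.le (fun y => by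
          rw [Real.norm_eq_abs]; exact hhb y))
      have e5 : ∀ k, |hh (u k) * e (u k)| ≤ τ * (((τ⁻¹ • hh) (u k)) ^ 2 + (e (u k)) ^ 2) / 2 := by
        intro k
        have e6 : hh (u k) = τ * (τ⁻¹ • hh) (u k) := by
          change hh (u k) = τ * (τ⁻¹ * hh (u k))
          field_simp
        rw [e6, mul_assoc, abs_mul, abs_of_pos hτ0, mul_div_assoc]
        apply mul_le_mul_of_nonneg_left _ hτ0.le
        rw [abs_le]
        constructor <;> nlinarith [sq_nonneg ((τ⁻¹ • hh) (u k) + e (u k)), sq_nonneg ((τ⁻¹ • hh) (u k) - e (u k))]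
      calc ∑ k, |hh (u k) * e (u k)| ≤ ∑ k, τ * (((τ⁻¹ • hh) (u k)) ^ 2 + (e (u k)) ^ 2) / 2 :=
            Finset.sum_le_sum fun k _ => e5 k
        _ = τ * (∑ k, ((τ⁻¹ • hh) (u k)) ^ 2 + ∑ k, (e (u k)) ^ 2) / 2 := by
            rw [← Finset.sum_div, ← Finset.mul_sum, Finset.sum_add_distrib]
        _ ≤ τ * σ := by nlinarith
    have e7 : ∀ k, |c (u k) (u k)| ≤ B (u k) (u k) + |hh (u k) * e (u k)| + τ * (e (u k)) ^ 2 := by
      intro k
      rw [hc]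
      have e8 := hB.pos (u k)
      have e10 : 0 ≤ τ * (e (u k)) ^ 2 := by positivity
      have e11 : (hh (u k) * e (u k) + e (u k) * hh (u k)) / 2 = hh (u k) * e (u k) := by ring
      rw [e11, abs_le]
      have e12 := neg_abs_le (hh (u k) * e (u k))
      have e13 := le_abs_self (hh (u k) * e (u k))
      constructor <;> nlinarith
    calc ∑ k, |c (u k) (u k)| ≤ ∑ k, (B (u k) (u k) + |hh (u k) * e (u k)| + τ * (e (u k)) ^ 2) :=
          Finset.sum_le_sum fun k _ => e7 k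
      _ = ∑ k, B (u k) (u k) + ∑ k, |hh (u k) * e (u k)| + τ * ∑ k, (e (u k)) ^ 2 := by
          rw [Finset.sum_add_distrib, Finset.sum_add_distrib, Finset.mul_sum]
      _ ≤ ε * σ + τ * σ + τ * σ := by
          have e15 := mul_le_mul_of_nonneg_left e2 hτ0.le
          linarith
      _ = 7 * ε * σ := by rw [hτ]; ring
  · intro y hy
    rcases le_or_gt 0 (e y) with h0 | h0
    · exact key y hy h0
    · have := key (-y) (by rwa [norm_neg]) (by rw [map_neg]; linarith)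
      rwa [heven] at this

end Pool.Agent.Lib.MP_b6bd4b_an.SQ
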