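import Pool.Agent.Lib.MP_b6bd4b_an.SQ.Def

/-!
Module Bas: elementary properties of `ev`.
-/

namespace Pool.Agent.Lib.MP_b6bd4b_an.SQ

open Finset SB

variable {X : Type*} [NormedAddCommGroup X] [NormedSpace ℝ X]

private theorem Bas_triv (C : Set X) (x : X) (hx : x ∈ C) :
    IsRep C x (fun _ : Unit => (1 : ℝ)) (fun _ => x) (fun _ => 0) 0 := by
  refine ⟨fun _ => zero_le_one, by simp, by simp, fun _ => by simpa using hx, le_rfl, fun φ hφ => ?_⟩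
  have h1 : φ () = 0 := by simpa using hφ
  simp [h1]

private theorem Bas_triv_gain (Φ : X → ℝ) (a b l : ℝ) (x : X) :
    gain Φ a b l x (fun _ : Unit => (1 : ℝ)) (fun _ => x) (fun _ => 0) 0 = 0 := by
  simp [gain]

private theorem Bas_nonempty (Φ : X → ℝ) (C : Set X) (a b l : ℝ) (x : X) (hx : x ∈ C) :
    (vals Φ C a b l x).Nonempty :=
  ⟨_, Unit, inferInstance, _, _, _, _, Bas_triv C x hx, rfl⟩

theorem gain_le {ι : Type} [Fintype ι] (Φ : X → ℝ) (C : Set X) (K : ℝ) (hC : ∀ y ∈ C, Φ y ≤ K)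
    (a b l : ℝ) (ha : 0 ≤ a) (hb : 0 ≤ b) (hl : 0 ≤ l) (x : X) (w : ι → ℝ) (ξ δ : ι → X) (s : ℝ)
    (h : IsRep C x w ξ δ s) : gain Φ a b l x w ξ δ s ≤ K - Φ x := by
  have h1 : ∑ i, w i * Φ (ξ i + δ i) ≤ K := by
    have h0 : K = ∑ i, w i * K := by rw [← Finset.sum_mul, h.w1, one_mul]
    rw [h0]
    exact Finset.sum_le_sum fun i _ => mul_le_mul_of_nonneg_left (hC _ (h.mem i)) (h.w0 i)
  have h3 : 0 ≤ ∑ i, w i * ‖δ i‖ := Finset.sum_nonneg fun i _ => mul_nonneg (h.w0 i) (norm_nonneg _)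
  have h4 : 0 ≤ l * (a * s + b * ∑ i, w i * ‖δ i‖) :=
    mul_nonneg hl (add_nonneg (mul_nonneg ha h.s0) (mul_nonneg hb h3))
  unfold gain
  linarith

theorem le_ev {ι : Type} [Fintype ι] (Φ : X → ℝ) (C : Set X) (K : ℝ) (hC : ∀ y ∈ C, Φ y ≤ K)
    (a b l : ℝ) (ha : 0 ≤ a) (hb : 0 ≤ b) (hl : 0 ≤ l) (x : X) (w : ι → ℝ) (ξ δ : ι → X) (s : ℝ)
    (h : IsRep C x w ξ δ s) : gain Φ a b l x w ξ δ s ≤ ev Φ C a b l x := by
  refine le_csSup ⟨K - Φ x, ?_⟩ ⟨ι, inferInstance, w, ξ, δ, s, h, rfl⟩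
  rintro v ⟨ι', _, w', ξ', δ', s', h', rfl⟩
  exact gain_le Φ C K hC a b l ha hb hl x w' ξ' δ' s' h'

theorem ev_nonneg (Φ : X → ℝ) (C : Set X) (K : ℝ) (hC : ∀ y ∈ C, Φ y ≤ K)
    (a b l : ℝ) (ha : 0 ≤ a) (hb : 0 ≤ b) (hl : 0 ≤ l) (x : X) (hx : x ∈ C) :
    0 ≤ ev Φ C a b l x := by
  have h := le_ev Φ C K hC a b l ha hb hl x _ _ _ _ (Bas_triv C x hx)
  rw [Bas_triv_gain] at h
  exact h

theorem ev_le (Φ : X → ℝ) (C : Set X) (K : ℝ) (hC : ∀ y ∈ C, Φ y ≤ K)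
    (a b l : ℝ) (ha : 0 ≤ a) (hb : 0 ≤ b) (hl : 0 ≤ l) (x : X) (hx : x ∈ C) :
    ev Φ C a b l x ≤ K - Φ x := by
  refine csSup_le (Bas_nonempty Φ C a b l x hx) ?_
  rintro v ⟨ι', _, w', ξ', δ', s', h', rfl⟩
  exact gain_le Φ C K hC a b l ha hb hl x w' ξ' δ' s' h'

theorem ev_near (Φ : X → ℝ) (C : Set X) (a b l : ℝ) (x : X) (hx : x ∈ C) (η : ℝ) (hη : 0 < η) :
    ∃ (ι : Type) (_ : Fintype ι) (w : ι → ℝ) (ξ δ : ι → X) (s : ℝ),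
      IsRep C x w ξ δ s ∧ ev Φ C a b l x - η < gain Φ a b l x w ξ δ s := by
  obtain ⟨v, ⟨ι, inst, w, ξ, δ, s, h, rfl⟩, hv⟩ :=
    exists_lt_of_lt_csSup (Bas_nonempty Φ C a b l x hx) (sub_lt_self (ev Φ C a b l x) hη)
  exact ⟨ι, inst, w, ξ, δ, s, h, hv⟩

theorem ev_anti (Φ : X → ℝ) (C : Set X) (K : ℝ) (hC : ∀ y ∈ C, Φ y ≤ K)
    (a b l l' : ℝ) (ha : 0 ≤ a) (hb : 0 ≤ b) (hl : 0 ≤ l) (hll : l ≤ l') (x : X) (hx : x ∈ C) :
    ev Φ C a b l' x ≤ ev Φ C a b l x := by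
  refine csSup_le (Bas_nonempty Φ C a b l' x hx) ?_
  rintro v ⟨ι', _, w', ξ', δ', s', h', rfl⟩
  refine le_trans ?_ (le_ev Φ C K hC a b l ha hb hl x w' ξ' δ' s' h')
  have h3 : 0 ≤ ∑ i, w' i * ‖δ' i‖ := Finset.sum_nonneg fun i _ => mul_nonneg (h'.w0 i) (norm_nonneg _)
  have h4 : 0 ≤ a * s' + b * ∑ i, w' i * ‖δ' i‖ := add_nonneg (mul_nonneg ha h'.s0) (mul_nonneg hb h3)
  have h5 := mul_le_mul_of_nonneg_right hll h4
  unfold gain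
  linarith

theorem ev_lip (Φ : X → ℝ) (C : Set X) (K L : ℝ) (hC : ∀ y ∈ C, Φ y ≤ K)
    (hL : ∀ x ∈ C, ∀ y ∈ C, Φ y - Φ x ≤ L * ‖x - y‖)
    (a b l : ℝ) (ha : 0 ≤ a) (hb : 0 ≤ b) (hl : 0 ≤ l) (hl1 : l ≤ 1) (x y : X) (hx : x ∈ C) (hy : y ∈ C) :
    ev Φ C a b l x ≤ ev Φ C a b l y + (b + L) * ‖x - y‖ := by
  refine csSup_le (Bas_nonempty Φ C a b l x hx) ?_
  rintro v ⟨ι', _, w, ξ, δ, s, h, rfl⟩
  have h1 : IsRep C y w (fun i => ξ i + (y - x)) (fun i => δ i - (y - x)) s := by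
    refine ⟨h.w0, h.w1, ?_, fun i => ?_, h.s0, fun φ hφ => ?_⟩
    · simp only [smul_add, Finset.sum_add_distrib]
      rw [h.mean, ← Finset.sum_smul, h.w1, one_smul]
      abel
    · have h2 : ξ i + (y - x) + (δ i - (y - x)) = ξ i + δ i := by abel
      rw [h2]
      exact h.mem i
    · have h2 : ∑ i, (w i * φ i) • (ξ i + (y - x)) = ∑ i, (w i * φ i) • ξ i := by
        simp only [smul_add, Finset.sum_add_distrib]
        rw [← Finset.sum_smul, hφ, zero_smul, add_zero]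
      rw [h2]
      exact h.wv φ hφ
  have h3 := le_ev Φ C K hC a b l ha hb hl y _ _ _ _ h1
  refine le_trans ?_ (add_le_add_left h3 ((b + L) * ‖x - y‖))
  have h4 : ∀ i, ξ i + (y - x) + (δ i - (y - x)) = ξ i + δ i := fun i => by abel
  have h5 : ∑ i, w i * ‖δ i - (y - x)‖ ≤ ∑ i, w i * ‖δ i‖ + ‖x - y‖ := by
    have h6 : ∑ i, w i * ‖δ i‖ + ‖x - y‖ = ∑ i, w i * (‖δ i‖ + ‖x - y‖) := by
      simp only [mul_add, Finset.sum_add_distrib]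
      rw [← Finset.sum_mul, h.w1, one_mul]
    rw [h6]
    refine Finset.sum_le_sum fun i _ => mul_le_mul_of_nonneg_left ?_ (h.w0 i)
    rw [norm_sub_rev x y]
    exact norm_sub_le _ _
  have h7 : Φ y - Φ x ≤ L * ‖x - y‖ := hL x hx y hy
  have h14 : 0 ≤ l * b := mul_nonneg hl hb
  have h15 : l * b ≤ b := mul_le_of_le_one_left hb hl1
  have h16 := mul_le_mul_of_nonneg_left h5 h14
  have h17 : l * b * ‖x - y‖ ≤ b * ‖x - y‖ := mul_le_mul_of_nonneg_right h15 (norm_nonneg _)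
  unfold gain
  simp only [h4]
  nlinarith

end Pool.Agent.Lib.MP_b6bd4b_an.SQ
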