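import Pool.Agent.Lib.MP_b6bd4b_an.SQ.Bas

/-!
Module Cnv: `ev 1 p ≤ 0` as an inequality for all finite convex combinations, with the weak second moment.
-/

namespace Pool.Agent.Lib.MP_b6bd4b_an.SQ

open Finset SB

variable {X : Type*} [NormedAddCommGroup X] [NormedSpace ℝ X]

/-- Duality and Cauchy-Schwarz. -/
private theorem weak_var {ι : Type} [Fintype ι] (w : ι → ℝ) (hw0 : ∀ i, 0 ≤ w i) (z : ι → X) (σ : ℝ)
    (hσ : ∀ g : X →L[ℝ] ℝ, ‖g‖ ≤ 1 → ∑ i, w i * g (z i) ^ 2 ≤ σ) (φ : ι → ℝ) :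
    ‖∑ i, (w i * φ i) • z i‖ ^ 2 ≤ σ * ∑ i, w i * φ i ^ 2 := by
  set m := ∑ i, (w i * φ i) • z i with hm
  have hs0 : 0 ≤ ∑ i, w i * φ i ^ 2 := Finset.sum_nonneg fun i _ => mul_nonneg (hw0 i) (sq_nonneg _)
  have hσ0 : 0 ≤ σ := by
    have := hσ 0 (by simp)
    simpa using this
  rcases eq_or_ne ‖m‖ 0 with h0 | h0
  · rw [h0]
    have := mul_nonneg hσ0 hs0
    simpa using this
  · obtain ⟨g, hg1, hg2⟩ := exists_dual_vector ℝ m h0
    have e1 : g m = ‖m‖ := hg2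
    have e2 : g m = ∑ i, (Real.sqrt (w i) * φ i) * (Real.sqrt (w i) * g (z i)) := by
      rw [hm, map_sum]
      refine Finset.sum_congr rfl fun i _ => ?_
      rw [map_smul, smul_eq_mul]
      have := Real.mul_self_sqrt (hw0 i)
      calc w i * φ i * g (z i) = (Real.sqrt (w i) * Real.sqrt (w i)) * φ i * g (z i) := by rw [this]
        _ = _ := by ring
    rw [← e1, e2]
    refine (Finset.sum_mul_sq_le_sq_mul_sq _ _ _).trans ?_
    have e3 : ∑ i, (Real.sqrt (w i) * φ i) ^ 2 = ∑ i, w i * φ i ^ 2 :=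
      Finset.sum_congr rfl fun i _ => by rw [mul_pow, Real.sq_sqrt (hw0 i)]
    have e4 : ∑ i, (Real.sqrt (w i) * g (z i)) ^ 2 = ∑ i, w i * g (z i) ^ 2 :=
      Finset.sum_congr rfl fun i _ => by rw [mul_pow, Real.sq_sqrt (hw0 i)]
    rw [e3, e4, mul_comm]
    exact mul_le_mul_of_nonneg_right (hσ g hg1.le) hs0

theorem conv_dual (Φ : X → ℝ) (C : Set X) (K : ℝ) (hC : ∀ y ∈ C, Φ y ≤ K)
    (a b : ℝ) (ha : 0 ≤ a) (hb : 0 ≤ b) (p : X) (hp : ev Φ C a b 1 p ≤ 0)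
    {ι : Type} [Fintype ι] (w : ι → ℝ) (hw0 : ∀ i, 0 ≤ w i) (hw1 : ∑ i, w i = 1)
    (y : ι → X) (hy : ∀ i, y i ∈ C) (σ : ℝ)
    (hσ : ∀ g : X →L[ℝ] ℝ, ‖g‖ ≤ 1 → ∑ i, w i * g (y i - p) ^ 2 ≤ σ) :
    ∑ i, w i * (Φ (y i) - Φ p) ≤ a * σ + b * ‖∑ i, w i • (y i - p)‖ := by
  set v := ∑ i, w i • (y i - p) with hv
  have hσ0 : 0 ≤ σ := by
    have := hσ 0 (by simp)
    simpa using this
  have hconst : ∀ m : X, ∑ i, w i • m = m := fun m => by
    rw [← Finset.sum_smul, hw1, one_smul]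
  have hrep : IsRep C p w (fun i => y i - v) (fun _ => v) σ := by
    refine ⟨hw0, hw1, ?_, fun i => ?_, hσ0, fun φ hφ => ?_⟩
    · have e1 : ∑ i, w i • (y i - v) = ∑ i, w i • (y i - p) + ∑ i, w i • (p - v) := by
        rw [← Finset.sum_add_distrib]
        refine Finset.sum_congr rfl fun i _ => ?_
        rw [← smul_add]
        congr 1
        abel
      rw [e1, ← hv, hconst]
      abel
    · simpa using hy i
    · have e1 : ∑ i, (w i * φ i) • (y i - v) = ∑ i, (w i * φ i) • (y i - p) := by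
        have e2 : ∀ i, (w i * φ i) • (y i - v) = (w i * φ i) • (y i - p) + (w i * φ i) • (p - v) := by
          intro i
          rw [← smul_add]
          congr 1
          abel
        rw [Finset.sum_congr rfl fun i _ => e2 i, Finset.sum_add_distrib, ← Finset.sum_smul, hφ,
          zero_smul, add_zero]
      rw [e1]
      exact weak_var w hw0 (fun i => y i - p) σ hσ φ
  have h1 := (le_ev Φ C K hC a b 1 ha hb zero_le_one p w _ _ σ hrep).trans hp
  unfold gain at h1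
  have e1 : ∑ i, w i * ‖v‖ = ‖v‖ := by rw [← Finset.sum_mul, hw1, one_mul]
  have e2 : ∑ i, w i * Φ (y i - v + v) = ∑ i, w i * Φ (y i) :=
    Finset.sum_congr rfl fun i _ => by rw [sub_add_cancel]
  rw [e1, e2, one_mul] at h1
  have e3 : ∑ i, w i * (Φ (y i) - Φ p) = ∑ i, w i * Φ (y i) - Φ p := by
    have e4 : ∀ i, w i * (Φ (y i) - Φ p) = w i * Φ (y i) - w i * Φ p :=
      fun i => mul_sub _ _ _
    rw [Finset.sum_congr rfl fun i _ => e4 i, Finset.sum_sub_distrib, ← Finset.sum_mul, hw1, one_mul]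
  rw [e3]
  linarith

end Pool.Agent.Lib.MP_b6bd4b_an.SQ
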