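import Pool.Agent.Lib.MP_b6bd4b_an.SQ.Bas
import Pool.Agent.Lib.MP_b6bd4b_an.SB.Glu

/-!
Module Col: collapsing a part `E` of a representation to its mean `p` and continuing from `p`.
-/

namespace Pool.Agent.Lib.MP_b6bd4b_an.SQ

open Finset SB

variable {X : Type*} [NormedAddCommGroup X] [NormedSpace ℝ X] {d : ℕ}

private theorem Col_sum {ι : Type} [Fintype ι] (E : Finset ι) [DecidablePred (· ∈ E)] (w f : ι → ℝ) :
    ∑ i, (if i ∈ E then 0 else w i) * f i = ∑ i, w i * f i - ∑ i ∈ E, w i * f i := by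
  rw [eq_sub_iff_add_eq]
  have h : ∑ i ∈ E, w i * f i = ∑ i, (if i ∈ E then w i * f i else 0) := by
    rw [← Finset.sum_filter]
    refine Finset.sum_congr ?_ fun _ _ => rfl
    ext i
    simp
  rw [h, ← Finset.sum_add_distrib]
  refine Finset.sum_congr rfl fun i _ => ?_
  by_cases hi : i ∈ E <;> simp [hi]

private theorem Col_var {ι : Type} (E : Finset ι) (w : ι → ℝ) (v : ι → Eu d) (P : ℝ)
    (hP : P = ∑ i ∈ E, w i) (t : Eu d) (ht : P • t = ∑ i ∈ E, w i • v i) :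
    ∑ i ∈ E, w i * ‖v i‖ ^ 2 = P * ‖t‖ ^ 2 + ∑ i ∈ E, w i * ‖v i - t‖ ^ 2 := by
  have h1 : ∑ i ∈ E, w i * ‖v i - t‖ ^ 2 =
      ∑ i ∈ E, w i * ‖v i‖ ^ 2 - 2 * inner ℝ (∑ i ∈ E, w i • v i) t + (∑ i ∈ E, w i) * ‖t‖ ^ 2 := by
    rw [sum_inner, Finset.mul_sum, Finset.sum_mul, ← Finset.sum_sub_distrib, ← Finset.sum_add_distrib]
    refine Finset.sum_congr rfl fun i _ => ?_
    rw [norm_sub_sq_real, real_inner_smul_left]
    ring
  rw [h1, ← ht, ← hP, real_inner_smul_left, real_inner_self_eq_norm_sq]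
  ring

/-- The energy of a part and of its mean. -/
theorem part_energy {ι : Type} [Fintype ι] (T : X →L[ℝ] Eu d) (C : Set X) (Φ : X → ℝ)
    (hcc : ConcaveOn ℝ C (fun y => Φ y - ‖T y‖ ^ 2)) (w : ι → ℝ) (hw0 : ∀ i, 0 ≤ w i)
    (y : ι → X) (hy : ∀ i, y i ∈ C) (E : Finset ι) (P : ℝ) (hP : P = ∑ i ∈ E, w i) (hP0 : 0 < P)
    (p : X) (hp : P • p = ∑ i ∈ E, w i • y i) :
    ∑ i ∈ E, w i * Φ (y i) ≤ P * Φ p + ∑ i ∈ E, w i * ‖T (y i - p)‖ ^ 2 := by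
  have h1 := Col_var E w (fun i => T (y i)) P hP (T p) (by
    rw [← map_smul, hp, map_sum]
    exact Finset.sum_congr rfl fun i _ => by rw [map_smul])
  have h2 : ∑ i ∈ E, (w i / P) * (Φ (y i) - ‖T (y i)‖ ^ 2) ≤ Φ p - ‖T p‖ ^ 2 := by
    have h3 : ∑ i ∈ E, (w i / P) • y i = p := by
      have h4 : ∑ i ∈ E, (w i / P) • y i = P⁻¹ • ∑ i ∈ E, w i • y i := by
        rw [Finset.smul_sum]
        exact Finset.sum_congr rfl fun i _ => by rw [smul_smul, div_eq_inv_mul]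
      rw [h4, ← hp, smul_smul, inv_mul_cancel₀ hP0.ne', one_smul]
    have h5 := hcc.le_map_sum (t := E) (w := fun i => w i / P) (p := y)
      (fun i _ => div_nonneg (hw0 i) hP0.le) (by rw [← Finset.sum_div, ← hP, div_self hP0.ne'])
      (fun i _ => hy i)
    rw [h3] at h5
    simpa [smul_eq_mul] using h5
  have h6 : ∑ i ∈ E, (w i / P) * (Φ (y i) - ‖T (y i)‖ ^ 2) =
      (∑ i ∈ E, w i * Φ (y i) - ∑ i ∈ E, w i * ‖T (y i)‖ ^ 2) / P := by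
    rw [← Finset.sum_sub_distrib, Finset.sum_div]
    exact Finset.sum_congr rfl fun i _ => by ring
  rw [h6, div_le_iff₀ hP0] at h2
  have h7 : ∑ i ∈ E, w i * ‖T (y i - p)‖ ^ 2 = ∑ i ∈ E, w i * ‖T (y i) - T p‖ ^ 2 :=
    Finset.sum_congr rfl fun i _ => by rw [map_sub]
  rw [h7]
  linarith

theorem collapse {ι : Type} [Fintype ι] (T : X →L[ℝ] Eu d) (Φ : X → ℝ) (C : Set X) (K : ℝ)
    (hC : ∀ y ∈ C, Φ y ≤ K) (hcc : ConcaveOn ℝ C (fun y => Φ y - ‖T y‖ ^ 2))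
    (a b l : ℝ) (ha : 0 ≤ a) (hb : 0 ≤ b) (hl : 0 ≤ l) (x : X)
    (w : ι → ℝ) (ξ δ : ι → X) (s : ℝ) (h : IsRep C x w ξ δ s)
    (E : Finset ι) (P : ℝ) (hP : P = ∑ i ∈ E, w i) (hP0 : 0 < P)
    (p : X) (hp : P • p = ∑ i ∈ E, w i • (ξ i + δ i)) (hpC : p ∈ C) :
    P * ev Φ C a b l p ≤ ev Φ C a b l x - gain Φ a b l x w ξ δ s +
      ∑ i ∈ E, w i * ‖T (ξ i + δ i - p)‖ ^ 2 := by
  classical
  refine le_of_forall_pos_le_add fun ε hε => ?_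
  obtain ⟨κ, inst, w', ξ', δ', s', h', hg⟩ := ev_near Φ C a b l p hpC (ε / P) (div_pos hε hP0)
  obtain ⟨dE, hdE0⟩ : ∃ dE : X, dE = P⁻¹ • ∑ i ∈ E, w i • δ i := ⟨_, rfl⟩
  have hdE : P • dE = ∑ i ∈ E, w i • δ i := by
    rw [hdE0, smul_smul, mul_inv_cancel₀ hP0.ne', one_smul]
  have hrep := glue C x w ξ δ s h E P hP hP0 p dE hp hdE w' ξ' δ' s' h'
  have hev := le_ev Φ C K hC a b l ha hb hl x _ _ _ _ hrep
  have e1 : ∀ k, ξ' k - dE + (δ' k + dE) = ξ' k + δ' k := fun k => by abel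
  have e2 : ∑ k, P * w' k * Φ (ξ' k + δ' k) = P * ∑ k, w' k * Φ (ξ' k + δ' k) := by
    rw [Finset.mul_sum]
    exact Finset.sum_congr rfl fun k _ => by ring
  have e3 : ∑ k, P * w' k * ‖δ' k + dE‖ ≤ P * ∑ k, w' k * ‖δ' k‖ + ∑ i ∈ E, w i * ‖δ i‖ := by
    have h1 : ∑ k, P * w' k * ‖δ' k + dE‖ ≤ P * ∑ k, w' k * ‖δ' k‖ + P * ‖dE‖ := by
      have h2 : P * ∑ k, w' k * ‖δ' k‖ + P * ‖dE‖ = ∑ k, P * w' k * (‖δ' k‖ + ‖dE‖) := by
        have h3 : P * ‖dE‖ = P * ((∑ k, w' k) * ‖dE‖) := by rw [h'.w1, one_mul]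
        rw [h3, ← mul_add, Finset.sum_mul, ← Finset.sum_add_distrib, Finset.mul_sum]
        exact Finset.sum_congr rfl fun k _ => by ring
      rw [h2]
      exact Finset.sum_le_sum fun k _ =>
        mul_le_mul_of_nonneg_left (norm_add_le _ _) (mul_nonneg hP0.le (h'.w0 k))
    have h2 : P * ‖dE‖ ≤ ∑ i ∈ E, w i * ‖δ i‖ := by
      have h3 : P * ‖dE‖ = ‖P • dE‖ := by rw [norm_smul, Real.norm_of_nonneg hP0.le]
      rw [h3, hdE]
      refine (norm_sum_le _ _).trans (le_of_eq ?_)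
      exact Finset.sum_congr rfl fun i _ => by rw [norm_smul, Real.norm_of_nonneg (h.w0 i)]
    linarith
  have e4 := part_energy T C Φ hcc w h.w0 (fun i => ξ i + δ i) h.mem E P hP hP0 p hp
  have hgP : P * ev Φ C a b l p - ε < P * gain Φ a b l p w' ξ' δ' s' := by
    have h1 := mul_lt_mul_of_pos_left hg hP0
    rw [mul_sub, mul_div_cancel₀ _ hP0.ne'] at h1
    exact h1
  unfold gain at hev hgP ⊢
  rw [Fintype.sum_sum_type, Fintype.sum_sum_type] at hev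
  simp only [Sum.elim_inl, Sum.elim_inr, e1] at hev
  rw [Col_sum, Col_sum, e2] at hev
  have hlb := mul_le_mul_of_nonneg_left e3 (mul_nonneg hl hb)
  nlinarith [hev, hgP, hlb, e4]

end Pool.Agent.Lib.MP_b6bd4b_an.SQ
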