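import Pool.Agent.Lib.MP_b6bd4b_an.SB.Def

/-!
Quadratic variational principle. Definitions.

`gain`: `E Φ(ξ+δ) - Φ x - l (a s + b E‖δ‖)` for a representation (`SB.IsRep`); `ev` is its supremum.
-/

namespace Pool.Agent.Lib.MP_b6bd4b_an.SQ

open Finset SB

variable {X : Type*} [NormedAddCommGroup X] [NormedSpace ℝ X]

/-- Gain of `Φ` minus `l` times the penalty `a s + b E‖δ‖`. -/
noncomputable def gain {ι : Type} [Fintype ι] (Φ : X → ℝ) (a b l : ℝ) (x : X)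
    (w : ι → ℝ) (ξ δ : ι → X) (s : ℝ) : ℝ :=
  ∑ i, w i * Φ (ξ i + δ i) - Φ x - l * (a * s + b * ∑ i, w i * ‖δ i‖)

/-- All gains at `x`. -/
def vals (Φ : X → ℝ) (C : Set X) (a b l : ℝ) (x : X) : Set ℝ :=
  {v | ∃ (ι : Type) (_ : Fintype ι) (w : ι → ℝ) (ξ δ : ι → X) (s : ℝ),
    IsRep C x w ξ δ s ∧ v = gain Φ a b l x w ξ δ s}

/-- The supremum of all gains at `x`. -/
noncomputable def ev (Φ : X → ℝ) (C : Set X) (a b l : ℝ) (x : X) : ℝ :=
  sSup (vals Φ C a b l x)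

end Pool.Agent.Lib.MP_b6bd4b_an.SQ
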