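import Pool.Agent.Lib.MP_b6bd4b_an.SQ.Tan

/-!
Module Exa: the operator can be changed so that it satisfies the second order necessary condition at `x`.
-/

namespace Pool.Agent.Lib.MP_b6bd4b_an.SQ

open Finset SB RealInnerProductSpace

variable {X : Type*} [NormedAddCommGroup X] [NormedSpace ℝ X]

/-- An orthonormal basis of the orthogonal complement of a vector. -/
theorem ortho_family {m : ℕ} (v : Eu (m + 1)) (hv : v ≠ 0) :
    ∃ β : Fin m → Eu (m + 1), Orthonormal ℝ β ∧ (∀ k, ⟪v, β k⟫ = 0) ∧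
      ∀ z, ⟪v, z⟫ = 0 → ∑ k, ⟪β k, z⟫ ^ 2 = ‖z‖ ^ 2 := by
  haveI : Fact (Module.finrank ℝ (Eu (m + 1)) = m + 1) := ⟨by simp⟩
  obtain ⟨b, hb⟩ : ∃ b : OrthonormalBasis (Fin m) ℝ (ℝ ∙ v)ᗮ, b = OrthonormalBasis.fromOrthogonalSpanSingleton m hv :=
    ⟨_, rfl⟩
  refine ⟨fun k => (b k : Eu (m + 1)), ?_, fun k => ?_, fun z hz => ?_⟩
  · have h1 := b.orthonormal
    rw [orthonormal_iff_ite] at h1 ⊢
    exact h1
  · exact Submodule.mem_orthogonal_singleton_iff_inner_right.1 (b k).2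
  · have hz' : z ∈ (ℝ ∙ v)ᗮ := Submodule.mem_orthogonal_singleton_iff_inner_right.2 hz
    have h1 := b.sum_sq_inner_right ⟨z, hz'⟩
    exact h1

theorem sn_neg (x u : X) : sn x (-u) = sn x u := by
  have h1 : ∀ u : X, sset x u ⊆ sset x (-u) := by
    intro u k hk
    refine ⟨hk.1, ?_⟩
    have h2 := hk.2.smul (-1)
    rwa [neg_one_smul, neg_one_sq, one_mul] at h2
  have h2 : sset x (-u) = sset x u := by
    refine Set.Subset.antisymm ?_ (h1 u)
    have h3 := h1 (-u)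
    rwa [neg_neg] at h3
  rw [sn, h2, sn]

/-- The operator can be changed so that it satisfies the second order necessary condition. -/
theorem exactSnd {m : ℕ} (S : X →L[ℝ] Eu (m + 1)) (R : ℝ) (hR : 0 < R) (hS : ‖S‖ ≤ R) (x : X) (hx : ‖x‖ = 1)
    (hSx : S x ≠ 0) (σ : ℝ) (hσ : 0 < σ) (h : SecOrd (σ ^ 2) S 0 x) :
    ∃ S' : X →L[ℝ] Eu (m + 1), ‖S' - S‖ ≤ 4 * m * σ ∧
      SecOrd (σ ^ 2 + m * (2 * (4 * σ) * R + (4 * σ) ^ 2)) S' 0 x ∧
      ∀ (u : X) (K : ℝ), SndLE x u K → ‖S' u‖ ^ 2 ≤ max 1 (m : ℝ) * K * ‖S' x‖ ^ 2 := by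
  have hC : 0 < ‖S x‖ := norm_pos_iff.2 hSx
  have hone : ∀ y : X, ‖y‖ ≤ 1 → ‖S y‖ ^ 2 ≤ ‖S x‖ ^ 2 + σ ^ 2 * ‖y - x‖ ^ 2 := fun y hy => by
    simpa using h.one hy
  have hσ2 : 0 ≤ σ ^ 2 := sq_nonneg σ
  -- the norming functional
  obtain ⟨f, hfdef⟩ : ∃ f : X →L[ℝ] ℝ, f = (‖S x‖ ^ 2)⁻¹ • (innerSL ℝ (S x)).comp S := ⟨_, rfl⟩
  have hfu : ∀ u, f u = (‖S x‖ ^ 2)⁻¹ * ⟪S x, S u⟫ := fun u => by rw [hfdef]; rfl
  have hfu' : ∀ u, ⟪S x, S u⟫ = ‖S x‖ ^ 2 * f u := by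
    intro u
    rw [hfu, ← mul_assoc, mul_inv_cancel₀ (by positivity), one_mul]
  have hfx : f x = 1 := by
    rw [hfu, real_inner_self_eq_norm_sq, inv_mul_cancel₀ (by positivity)]
  have hfle : ∀ y : X, ‖y‖ ≤ 1 → f y ≤ 1 := by
    intro y hy
    rw [hfu, inv_mul_le_iff₀ (by positivity), mul_one]
    exact first_order hσ2 hx.le hone hy
  have hf : ‖f‖ ≤ 1 := by
    refine ContinuousLinearMap.opNorm_le_bound _ zero_le_one fun u => ?_
    rw [one_mul, Real.norm_eq_abs]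
    rcases eq_or_ne u 0 with hu | hu
    · rw [hu, map_zero, norm_zero, abs_zero]
    have hn : 0 < ‖u‖ := norm_pos_iff.2 hu
    have h1 := hfle (‖u‖⁻¹ • u) (by rw [norm_smul, norm_inv, norm_norm, inv_mul_cancel₀ hn.ne'])
    have h2 := hfle (-(‖u‖⁻¹ • u)) (by rw [norm_neg, norm_smul, norm_inv, norm_norm, inv_mul_cancel₀ hn.ne'])
    rw [map_neg] at h2
    rw [map_smul, smul_eq_mul] at h1 h2
    rw [inv_mul_le_iff₀ hn, mul_one] at h1
    have h3 : -f u ≤ ‖u‖ := by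
      have h4 : ‖u‖⁻¹ * (-f u) ≤ 1 := by linarith
      rwa [inv_mul_le_iff₀ hn, mul_one] at h4
    rw [abs_le]
    constructor <;> linarith
  -- the subspace
  obtain ⟨F, hF⟩ : ∃ F : Submodule ℝ X, F = sndSub x hx.le ⊓ LinearMap.ker (f : X →ₗ[ℝ] ℝ) := ⟨_, rfl⟩
  have hFm : ∀ u, u ∈ F ↔ (sset x u).Nonempty ∧ f u = 0 := fun u => by
    rw [hF, Submodule.mem_inf, LinearMap.mem_ker]
    rfl
  have hbound : ∀ u : F, ‖S u‖ ≤ ‖S x‖ * sn x (u : X) + 2 * σ * ‖(u : X)‖ := by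
    intro u
    have h1 : (‖S u‖ - 2 * σ * ‖(u : X)‖) / ‖S x‖ ≤ sn x (u : X) := by
      refine le_csInf ((hFm u).1 u.2).1 fun k hk => ?_
      have h2 := snd_bound hσ2 hx hone hk.2
      have h3 : ‖S u‖ ^ 2 ≤ (k * ‖S x‖ + 2 * σ * ‖(u : X)‖) ^ 2 := by
        have h4 : 0 ≤ k * ‖S x‖ * (σ * ‖(u : X)‖) :=
          mul_nonneg (mul_nonneg hk.1.le hC.le) (mul_nonneg hσ.le (norm_nonneg _))
        nlinarith
      have hk0 := hk.1
      have h5 := (pow_le_pow_iff_left₀ (norm_nonneg _) (by positivity) two_ne_zero).1 h3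
      rw [div_le_iff₀ hC]
      linarith
    rw [div_le_iff₀ hC] at h1
    linarith
  obtain ⟨β, hβ1, hβ2, hβ3⟩ := ortho_family (S x) hSx
  have hβn : ∀ k, ‖β k‖ = 1 := hβ1.1
  obtain ⟨l, hl⟩ : ∃ l : Fin m → (X →L[ℝ] ℝ), l = fun k => (innerSL ℝ (β k)).comp S := ⟨_, rfl⟩
  have hlu : ∀ k u, l k u = ⟪β k, S u⟫ := fun k u => by rw [hl]; rfl
  have hlS : ∀ k u, |l k u| ≤ ‖S u‖ := by
    intro k u
    rw [hlu]
    have h1 := abs_real_inner_le_norm (β k) (S u)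
    rwa [hβn, one_mul] at h1
  have hln : ∀ k, ‖l k‖ ≤ R := by
    intro k
    refine ContinuousLinearMap.opNorm_le_bound _ hR.le fun u => ?_
    rw [Real.norm_eq_abs]
    exact (hlS k u).trans ((S.le_opNorm u).trans (mul_le_mul_of_nonneg_right hS (norm_nonneg _)))
  choose e he1 he2 using fun k => sandwich F (l k) (fun u : F => ‖S x‖ * sn x (u : X))
    (fun c hc u => by
      change ‖S x‖ * sn x (c • (u : X)) = c * (‖S x‖ * sn x (u : X))
      rw [sn_smul hc ((hFm u).1 u.2).1]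
      ring)
    (fun u w => by
      change ‖S x‖ * sn x ((u : X) + (w : X)) ≤ ‖S x‖ * sn x (u : X) + ‖S x‖ * sn x (w : X)
      rw [← mul_add]
      exact mul_le_mul_of_nonneg_left (sn_add ((hFm u).1 u.2).1 ((hFm w).1 w.2).1) hC.le)
    (2 * σ) (by positivity) (fun u => ((le_abs_self _).trans (hlS k u)).trans (hbound u))
  have he3 : ∀ k (u : X), u ∈ F → |l k u - e k u| ≤ ‖S x‖ * sn x u := by
    intro k u hu
    have h1 := he2 k ⟨u, hu⟩
    have h2 := he2 k (-⟨u, hu⟩)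
    have h3 : l k u - e k u ≤ ‖S x‖ * sn x u := h1
    have h4 : l k (-u) - e k (-u) ≤ ‖S x‖ * sn x (-u) := h2
    rw [sn_neg, map_neg, map_neg] at h4
    rw [abs_le]
    constructor <;> linarith
  obtain ⟨g, hg⟩ : ∃ g : Fin m → (X →L[ℝ] ℝ), g = fun k => e k - e k x • f := ⟨_, rfl⟩
  have hgu : ∀ k u, g k u = e k u - e k x * f u := fun k u => by rw [hg]; rfl
  have hgx : ∀ k, g k x = 0 := fun k => by rw [hgu, hfx, mul_one, sub_self]
  have hgn : ∀ k, ‖g k‖ ≤ 4 * σ := by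
    intro k
    have e1 : |e k x| ≤ 2 * σ := by
      have e2 := (e k).le_opNorm x
      rw [Real.norm_eq_abs, hx, mul_one] at e2
      exact e2.trans (he1 k)
    rw [hg]
    refine (norm_sub_le _ _).trans ?_
    rw [norm_smul, Real.norm_eq_abs]
    have e4 : |e k x| * ‖f‖ ≤ 2 * σ * 1 := mul_le_mul e1 hf (norm_nonneg _) (by positivity)
    have e5 := he1 k
    linarith
  obtain ⟨G, hG⟩ : ∃ G : X →L[ℝ] Eu (m + 1), G = ∑ k, (g k).smulRight (β k) := ⟨_, rfl⟩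
  have hGu : ∀ u, G u = ∑ k, g k u • β k := by
    intro u
    rw [hG]
    simp only [ContinuousLinearMap.sum_apply, ContinuousLinearMap.smulRight_apply]
  have hGx : G x = 0 := by
    rw [hGu]
    simp [hgx]
  have hGsq : ∀ u, ‖G u‖ ^ 2 = ∑ k, g k u ^ 2 := by
    intro u
    rw [← real_inner_self_eq_norm_sq, hGu, hβ1.inner_sum]
    refine Finset.sum_congr rfl fun k _ => ?_
    simp [sq]
  have hGin : ∀ z u, ⟪z, G u⟫ = ∑ k, g k u * ⟪β k, z⟫ := by
    intro z u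
    rw [hGu, inner_sum]
    refine Finset.sum_congr rfl fun k _ => ?_
    rw [real_inner_smul_right, real_inner_comm]
  have hGSx : ∀ u, ⟪S x, G u⟫ = 0 := by
    intro u
    rw [hGin]
    refine Finset.sum_eq_zero fun k _ => ?_
    rw [real_inner_comm, hβ2, mul_zero]
  have hGβ : ∀ k u, ⟪β k, G u⟫ = g k u := by
    intro k u
    rw [hGu, hβ1.inner_right_fintype]
  have hS'x : (S - G) x = S x := by
    change S x - G x = S x
    rw [hGx, sub_zero]
  refine ⟨S - G, ?_, ?_, ?_⟩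
  · have h0 : S - G - S = -G := by abel
    rw [h0, norm_neg, hG]
    refine (norm_sum_le _ _).trans ?_
    calc ∑ k, ‖(g k).smulRight (β k)‖ ≤ ∑ _k : Fin m, 4 * σ := by
          refine Finset.sum_le_sum fun k _ => ?_
          rw [ContinuousLinearMap.norm_smulRight_apply, hβn, mul_one]
          exact hgn k
      _ = 4 * m * σ := by
          simp
          ring
  · intro n w y M hw0 hw1 hy hM
    have h1 := h n w y M hw0 hw1 hy hM
    have hpt : ∀ z, ‖(S - G) z‖ ^ 2 ≤ ‖S z‖ ^ 2 +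
        ∑ k, (2 * (-g k) (z - x) * l k (z - x) + (-g k) (z - x) ^ 2) := by
      intro z
      have e0 : (S - G) z = S z - G (z - x) := by
        change S z - G z = _
        rw [map_sub G, hGx, sub_zero]
      have e1 : ⟪S z, G (z - x)⟫ = ∑ k, g k (z - x) * l k (z - x) := by
        have e2 : S z = S x + S (z - x) := by rw [← map_add, add_sub_cancel]
        rw [e2, inner_add_left, hGSx, zero_add, hGin]
        refine Finset.sum_congr rfl fun k _ => ?_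
        rw [hlu]
      rw [e0, norm_sub_sq_real, e1, hGsq]
      have e5 : ∑ k, (2 * (-g k) (z - x) * l k (z - x) + (-g k) (z - x) ^ 2) =
          -(2 * ∑ k, g k (z - x) * l k (z - x)) + ∑ k, g k (z - x) ^ 2 := by
        rw [Finset.mul_sum, ← Finset.sum_neg_distrib, ← Finset.sum_add_distrib]
        refine Finset.sum_congr rfl fun k _ => ?_
        rw [_root_.neg_apply]
        ring
      rw [e5]
      linarith
    have hck : ∀ k, ∑ i, w i * (2 * (-g k) (y i - x) * l k (y i - x) + (-g k) (y i - x) ^ 2) ≤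
        (2 * (4 * σ) * R + (4 * σ) ^ 2) * M := fun k =>
      cross_le (-g k) (l k) (4 * σ) R (by positivity) hR (by rw [norm_neg]; exact hgn k) (hln k) w hw0
        (fun i => y i - x) M hM
    have hc := Finset.sum_le_sum fun k (_ : k ∈ (Finset.univ : Finset (Fin m))) => hck k
    rw [Finset.sum_comm] at hc
    simp only [← Finset.mul_sum, Finset.sum_const, Finset.card_univ, Fintype.card_fin, nsmul_eq_mul] at hc
    rw [hS'x]
    calc ∑ i, w i * (‖(S - G) (y i)‖ ^ 2 - (0 : X →L[ℝ] X →L[ℝ] ℝ) (y i) (y i))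
        ≤ ∑ i, (w i * (‖S (y i)‖ ^ 2 - (0 : X →L[ℝ] X →L[ℝ] ℝ) (y i) (y i)) +
          w i * ∑ k, (2 * (-g k) (y i - x) * l k (y i - x) + (-g k) (y i - x) ^ 2)) := by
          refine Finset.sum_le_sum fun i _ => ?_
          have e1 := mul_le_mul_of_nonneg_left (hpt (y i)) (hw0 i)
          linarith
      _ = ∑ i, w i * (‖S (y i)‖ ^ 2 - (0 : X →L[ℝ] X →L[ℝ] ℝ) (y i) (y i)) +
          ∑ i, w i * ∑ k, (2 * (-g k) (y i - x) * l k (y i - x) + (-g k) (y i - x) ^ 2) :=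
          Finset.sum_add_distrib
      _ ≤ _ := by linarith
  · intro u K hu
    rw [hS'x]
    obtain ⟨φ, hφ⟩ : ∃ φ : ℝ, φ = f u := ⟨_, rfl⟩
    obtain ⟨u₀, hu₀⟩ : ∃ u₀ : X, u₀ = u - f u • x := ⟨_, rfl⟩
    have htan : ∀ K' : ℝ, K - φ ^ 2 < K' → SndLE x u₀ K' := by
      intro K' hK'
      rw [hu₀]
      exact snd_tan hx hf hfx hu (by rwa [← hφ])
    have hfu0 : f u₀ = 0 := by
      rw [hu₀, map_sub, map_smul, smul_eq_mul, hfx, mul_one, sub_self]
    have hset : ∀ k : ℝ, 0 < k → K - φ ^ 2 < k ^ 2 → k ∈ sset x u₀ := fun k hk h => ⟨hk, htan _ h⟩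
    have huF : u₀ ∈ F := by
      refine (hFm u₀).2 ⟨⟨|K - φ ^ 2| + 1, hset _ (by positivity) ?_⟩, hfu0⟩
      have e1 := le_abs_self (K - φ ^ 2)
      have e2 := abs_nonneg (K - φ ^ 2)
      nlinarith
    -- `sn² ≤ K - φ²`
    have hsn0 : 0 ≤ sn x u₀ := Real.sInf_nonneg fun k hk => hk.1.le
    have hKφ : 0 ≤ K - φ ^ 2 := by
      by_contra hneg
      push Not at hneg
      obtain ⟨r, hr, h2⟩ := htan ((K - φ ^ 2) / 2) (by linarith)
      have h3 := h2 (r / 2) (by rw [abs_of_pos (by positivity)]; linarith)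
      have h4 : ∀ τ : ℝ, 1 ≤ ‖x + τ • u₀‖ := by
        intro τ
        have e1 := f.le_opNorm (x + τ • u₀)
        have e2 : f (x + τ • u₀) = 1 := by rw [map_add, map_smul, hfu0, hfx]; simp
        rw [e2, Real.norm_eq_abs, abs_one] at e1
        have e3 : ‖f‖ * ‖x + τ • u₀‖ ≤ 1 * ‖x + τ • u₀‖ := mul_le_mul_of_nonneg_right hf (norm_nonneg _)
        linarith
      have h5 := h4 (r / 2)
      have h6 := h4 (-(r / 2))
      rw [neg_smul, ← sub_eq_add_neg] at h6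
      have h7 : 0 < (r / 2) ^ 2 := by positivity
      nlinarith
    have hsn : sn x u₀ ^ 2 ≤ K - φ ^ 2 := by
      refine le_of_forall_pos_le_add fun δ hδ => ?_
      have h2 : sn x u₀ ≤ Real.sqrt (K - φ ^ 2 + δ) := by
        have h3 : 0 < K - φ ^ 2 + δ := by linarith
        refine csInf_le (sset_bdd x u₀) (hset _ (Real.sqrt_pos.2 h3) ?_)
        rw [Real.sq_sqrt h3.le]
        linarith
      have h4 := pow_le_pow_left₀ hsn0 h2 2
      rwa [Real.sq_sqrt (by linarith)] at h4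
    -- the tangential part
    have htp : ‖(S - G) u₀‖ ^ 2 ≤ m * (‖S x‖ ^ 2 * (K - φ ^ 2)) := by
      have hperp : ⟪S x, (S - G) u₀⟫ = 0 := by
        change ⟪S x, S u₀ - G u₀⟫ = 0
        rw [inner_sub_right, hGSx, hfu', hfu0]
        ring
      rw [← hβ3 _ hperp]
      calc ∑ k, ⟪β k, (S - G) u₀⟫ ^ 2 ≤ ∑ _k : Fin m, ‖S x‖ ^ 2 * (K - φ ^ 2) := by
            refine Finset.sum_le_sum fun k _ => ?_
            have e1 : ⟪β k, (S - G) u₀⟫ = l k u₀ - e k u₀ := by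
              change ⟪β k, S u₀ - G u₀⟫ = _
              rw [inner_sub_right, hGβ, hgu, hfu0, mul_zero, sub_zero, hlu]
            rw [e1, ← sq_abs]
            have e2 := pow_le_pow_left₀ (abs_nonneg _) (he3 k u₀ huF) 2
            rw [mul_pow] at e2
            exact e2.trans (mul_le_mul_of_nonneg_left hsn (sq_nonneg _))
        _ = m * (‖S x‖ ^ 2 * (K - φ ^ 2)) := by simp
    have hdec : (S - G) u = φ • S x + (S - G) u₀ := by
      have e1 : u = φ • x + u₀ := by rw [hu₀, ← hφ]; abel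
      nth_rewrite 1 [e1]
      rw [map_add, map_smul, hS'x]
    have hperp : ⟪S x, (S - G) u₀⟫ = 0 := by
      change ⟪S x, S u₀ - G u₀⟫ = 0
      rw [inner_sub_right, hGSx, hfu', hfu0]
      ring
    have hnorm : ‖(S - G) u‖ ^ 2 = φ ^ 2 * ‖S x‖ ^ 2 + ‖(S - G) u₀‖ ^ 2 := by
      rw [hdec, norm_add_sq_real, real_inner_smul_left, hperp, norm_smul, mul_pow, Real.norm_eq_abs, sq_abs]
      ring
    rw [hnorm]
    have hm1 : (1 : ℝ) ≤ max 1 (m : ℝ) := le_max_left _ _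
    have hm2 : (m : ℝ) ≤ max 1 (m : ℝ) := le_max_right _ _
    have hx2 : 0 ≤ ‖S x‖ ^ 2 := sq_nonneg _
    have k1 : φ ^ 2 * ‖S x‖ ^ 2 ≤ max 1 (m : ℝ) * (φ ^ 2 * ‖S x‖ ^ 2) := by
      have := mul_le_mul_of_nonneg_right hm1 (mul_nonneg (sq_nonneg φ) hx2)
      linarith
    have k2 : (m : ℝ) * (‖S x‖ ^ 2 * (K - φ ^ 2)) ≤ max 1 (m : ℝ) * (‖S x‖ ^ 2 * (K - φ ^ 2)) :=
      mul_le_mul_of_nonneg_right hm2 (mul_nonneg hx2 hKφ)
    have k3 : max 1 (m : ℝ) * (φ ^ 2 * ‖S x‖ ^ 2) + max 1 (m : ℝ) * (‖S x‖ ^ 2 * (K - φ ^ 2)) =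
        max 1 (m : ℝ) * K * ‖S x‖ ^ 2 := by ring
    linarith

end Pool.Agent.Lib.MP_b6bd4b_an.SQ
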