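import Pool.Agent.Lib.MP_b6bd4b_an.SQ.Att
import Pool.Agent.Lib.MP_b6bd4b_an.SQ.Abs

/-!
Module Fin: quadratic forms whose positive part has finite rank are limits of norm attaining quadratic forms.
-/

namespace Pool.Agent.Lib.MP_b6bd4b_an.SQ

open Finset SB

universe u

section

variable {X : Type*} [NormedAddCommGroup X] [NormedSpace ℝ X] {d : ℕ}

/-- One more coordinate. -/
theorem add_row (T : X →L[ℝ] Eu d) (g : X →L[ℝ] ℝ) :
    ∃ T' : X →L[ℝ] Eu (d + 1), ∀ y, ‖T' y‖ ^ 2 = ‖T y‖ ^ 2 + (g y) ^ 2 := by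
  refine ⟨(EuclideanSpace.equiv (Fin (d + 1)) ℝ).symm.toContinuousLinearMap.comp
    (ContinuousLinearMap.pi (fun k : Fin (d + 1) => Fin.cases (motive := fun _ => X →L[ℝ] ℝ) g
      (fun j => (EuclideanSpace.proj j : Eu d →L[ℝ] ℝ).comp T) k)), fun y => ?_⟩
  rw [EuclideanSpace.norm_sq_eq, EuclideanSpace.norm_sq_eq, Fin.sum_univ_succ]
  simp only [Real.norm_eq_abs, sq_abs]
  rw [add_comm]
  rfl

/-- A positive form is convex. -/
theorem form_concave (N : X →L[ℝ] X →L[ℝ] ℝ) (hpos : ∀ u, 0 ≤ N u u) (C : Set X) (hC : Convex ℝ C) :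
    ConcaveOn ℝ C (fun y => -(N y y)) := by
  refine ⟨hC, fun x _ y _ α β hα hβ hαβ => ?_⟩
  have h1 : N (α • x + β • y) (α • x + β • y) = α ^ 2 * N x x + α * β * (N x y + N y x) + β ^ 2 * N y y := by
    simp only [map_add, map_smul, _root_.add_apply, _root_.smul_apply, smul_eq_mul]
    ring
  have h2 : N (x - y) (x - y) = N x x - (N x y + N y x) + N y y := by
    simp only [map_sub, _root_.sub_apply]
    ring
  have h3 := mul_nonneg (mul_nonneg hα hβ) (hpos (x - y))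
  rw [h2] at h3
  simp only [smul_eq_mul]
  rw [h1]
  have hβ' : β = 1 - α := by linarith
  subst hβ'
  nlinarith

/-- The quadratic form `‖T y‖² - N(y, y)` is Lipschitz on the unit ball. -/
theorem form_lip (T : X →L[ℝ] Eu d) (R : ℝ) (hR : 0 ≤ R) (hT : ‖T‖ ≤ R) (N : X →L[ℝ] X →L[ℝ] ℝ)
    (x y : X) (hx : ‖x‖ ≤ 1) (hy : ‖y‖ ≤ 1) :
    (‖T y‖ ^ 2 - N y y) - (‖T x‖ ^ 2 - N x x) ≤ (2 * R ^ 2 + 2 * ‖N‖) * ‖x - y‖ := by
  have hTb : ∀ z : X, ‖T z‖ ≤ R * ‖z‖ := fun z =>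
    (T.le_opNorm z).trans (mul_le_mul_of_nonneg_right hT (norm_nonneg _))
  have h1 : ‖T y‖ - ‖T x‖ ≤ R * ‖x - y‖ := by
    refine (norm_sub_norm_le _ _).trans ?_
    rw [← map_sub, norm_sub_rev x y]
    exact hTb _
  have h2 : ‖T y‖ + ‖T x‖ ≤ 2 * R := by
    have e1 := hTb x
    have e2 := hTb y
    nlinarith
  have h3 : ‖T y‖ ^ 2 - ‖T x‖ ^ 2 ≤ 2 * R ^ 2 * ‖x - y‖ := by
    have e1 : ‖T y‖ ^ 2 - ‖T x‖ ^ 2 = (‖T y‖ - ‖T x‖) * (‖T y‖ + ‖T x‖) := by ring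
    rw [e1]
    calc (‖T y‖ - ‖T x‖) * (‖T y‖ + ‖T x‖) ≤ (R * ‖x - y‖) * (‖T y‖ + ‖T x‖) :=
          mul_le_mul_of_nonneg_right h1 (by positivity)
      _ ≤ (R * ‖x - y‖) * (2 * R) := mul_le_mul_of_nonneg_left h2 (by positivity)
      _ = 2 * R ^ 2 * ‖x - y‖ := by ring
  have h4 : N x x - N y y ≤ 2 * ‖N‖ * ‖x - y‖ := by
    have e1 : N x x - N y y = N (x - y) x + N y (x - y) := by
      simp only [map_sub, _root_.sub_apply]
      ring
    have e2 : |N (x - y) x| ≤ ‖N‖ * ‖x - y‖ * ‖x‖ := by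
      rw [← Real.norm_eq_abs]
      exact N.le_opNorm₂ _ _
    have e3 : |N y (x - y)| ≤ ‖N‖ * ‖y‖ * ‖x - y‖ := by
      rw [← Real.norm_eq_abs]
      exact N.le_opNorm₂ _ _
    have e4 : ‖N‖ * ‖x - y‖ * ‖x‖ ≤ ‖N‖ * ‖x - y‖ * 1 := mul_le_mul_of_nonneg_left hx (by positivity)
    have e5 : ‖N‖ * ‖y‖ * ‖x - y‖ ≤ ‖N‖ * 1 * ‖x - y‖ := by
      have e8 : 0 ≤ ‖N‖ := by positivity
      exact mul_le_mul_of_nonneg_right (mul_le_mul_of_nonneg_left hy e8) (norm_nonneg _)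
    rw [e1]
    have e6 := le_abs_self (N (x - y) x)
    have e7 := le_abs_self (N y (x - y))
    linarith
  linarith

end

/-- Bishop-Phelps-Bollobás for the quadratic forms whose positive part has finite rank. -/
theorem quadForms (d : ℕ) (R ε : ℝ) (hε : 0 < ε) : ∃ η : ℝ, 0 < η ∧
    ∀ (X : Type u) [NormedAddCommGroup X] [NormedSpace ℝ X] [CompleteSpace X]
      (T : X →L[ℝ] Eu d) (N : X →L[ℝ] X →L[ℝ] ℝ), ‖T‖ ≤ R → (∀ u v, N u v = N v u) → (∀ u, 0 ≤ N u u) →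
      (∀ y : X, ‖y‖ ≤ 1 → |‖T y‖ ^ 2 - N y y| ≤ 1) →
      ∀ x0 : X, ‖x0‖ ≤ 1 → 1 - η < ‖T x0‖ ^ 2 - N x0 x0 →
      ∃ (c : X →L[ℝ] X →L[ℝ] ℝ) (S : X →L[ℝ] Eu d) (x : X), (∀ u v, c u v = c v u) ∧ ‖c‖ < ε ∧
        (∀ (n : ℕ) (u : Fin n → X) (σ : ℝ), (∀ g : X →L[ℝ] ℝ, ‖g‖ ≤ 1 → ∑ k, g (u k) ^ 2 ≤ σ) →
          ∑ k, |c (u k) (u k)| ≤ ε * σ) ∧
        ‖x - x0‖ < ε ∧ ‖x‖ = 1 ∧
        (∀ y : X, ‖y‖ ≤ 1 → |‖T y‖ ^ 2 - N y y - c y y| ≤ ‖T x‖ ^ 2 - N x x - c x x) ∧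
        ‖S - T‖ < ε ∧
        ∀ (n : ℕ) (w : Fin n → ℝ) (y : Fin n → X) (M : ℝ), (∀ i, 0 ≤ w i) → ∑ i, w i = 1 →
          (∀ i, ‖y i‖ ≤ 1) → (∀ g : X →L[ℝ] ℝ, ‖g‖ ≤ 1 → ∑ i, w i * g (y i - x) ^ 2 ≤ M) →
          ∑ i, w i * (‖S (y i)‖ ^ 2 - N (y i) (y i)) ≤ ‖S x‖ ^ 2 - N x x + ε * M := by
  -- the constants
  obtain ⟨R1, hR1⟩ : ∃ R1 : ℝ, R1 = |R| + 1 := ⟨_, rfl⟩
  have hR11 : 1 ≤ R1 := by rw [hR1]; linarith [abs_nonneg R]
  have hR10 : 0 < R1 := by linarith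
  obtain ⟨κ, hκ0, hκ24, hκR⟩ : ∃ κ : ℝ, 0 < κ ∧ κ ≤ 1 / 24 ∧ 31 * R1 ^ 2 * κ ≤ ε := by
    refine ⟨min (ε / (31 * R1 ^ 2)) (1 / 24), by positivity, min_le_right _ _, ?_⟩
    have h1 := min_le_left (ε / (31 * R1 ^ 2)) (1 / 24)
    have h2 : 31 * R1 ^ 2 * min (ε / (31 * R1 ^ 2)) (1 / 24) ≤ 31 * R1 ^ 2 * (ε / (31 * R1 ^ 2)) :=
      mul_le_mul_of_nonneg_left h1 (by positivity)
    rwa [mul_div_cancel₀ _ (by positivity : (31 * R1 ^ 2 : ℝ) ≠ 0)] at h2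
  have hκ1 : κ ≤ 1 := by linarith
  have hR1sq : R1 ≤ R1 ^ 2 := by nlinarith
  have hκR1 : R1 * κ ≤ R1 ^ 2 * κ := mul_le_mul_of_nonneg_right hR1sq hκ0.le
  have hκR2 : κ ≤ R1 * κ := by nlinarith
  have hκε : κ ≤ ε / 2 := by linarith
  obtain ⟨e, he⟩ : ∃ e : ℝ, e = κ / 56 := ⟨_, rfl⟩
  have he0 : 0 < e := by rw [he]; positivity
  obtain ⟨η1, hη10, hvar⟩ := variational.{u} (d + 1) (by omega) R1 e hR10 he0
  obtain ⟨η, hη0, hη1, hη2⟩ : ∃ η : ℝ, 0 < η ∧ η ≤ η1 / 2 ∧ η ≤ κ / 4 :=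
    ⟨min (η1 / 2) (κ / 4), by positivity, min_le_left _ _, min_le_right _ _⟩
  refine ⟨η, hη0, fun X _ _ _ T N hT hNs hN hP x0 hx0 hPx0 => ?_⟩
  -- homogeneity
  have hhomP : ∀ (r : ℝ) (y : X), ‖T (r • y)‖ ^ 2 - N (r • y) (r • y) = r ^ 2 * (‖T y‖ ^ 2 - N y y) := by
    intro r y
    simp only [map_smul, _root_.smul_apply, smul_eq_mul, norm_smul, mul_pow, Real.norm_eq_abs, sq_abs]
    ring
  have hx0n : 1 - η < ‖x0‖ ^ 2 := by
    rcases eq_or_ne x0 0 with h0 | h0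
    · exfalso
      rw [h0, map_zero, norm_zero] at hPx0
      simp at hPx0
      linarith
    · have hn : 0 < ‖x0‖ := norm_pos_iff.2 h0
      have h1 := hhomP ‖x0‖ (‖x0‖⁻¹ • x0)
      rw [smul_smul, mul_inv_cancel₀ hn.ne', one_smul] at h1
      have h2 := (abs_le.1 (hP (‖x0‖⁻¹ • x0) (by
        rw [norm_smul, norm_inv, norm_norm, inv_mul_cancel₀ hn.ne']))).2
      rw [h1] at hPx0
      nlinarith [sq_nonneg ‖x0‖]
  have hx0ne : ‖x0‖ ≠ 0 := by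
    intro h0
    rw [h0] at hx0n
    norm_num at hx0n
    linarith
  obtain ⟨g, hg1, hg2⟩ := exists_dual_vector ℝ x0 hx0ne
  have hgx0 : g x0 = ‖x0‖ := hg2
  have hgb : ∀ y, |g y| ≤ ‖y‖ := fun y => by
    have := g.le_opNorm y
    rwa [hg1, one_mul, Real.norm_eq_abs] at this
  obtain ⟨T', hT'⟩ := add_row T (Real.sqrt κ • g)
  have hT'2 : ∀ y, ‖T' y‖ ^ 2 = ‖T y‖ ^ 2 + κ * (g y) ^ 2 := by
    intro y
    rw [hT']
    have : (Real.sqrt κ • g) y = Real.sqrt κ * g y := rfl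
    rw [this, mul_pow, Real.sq_sqrt hκ0.le]
  have hgsq : ∀ y, (g y) ^ 2 ≤ ‖y‖ ^ 2 := fun y => by
    rw [← sq_abs]
    exact pow_le_pow_left₀ (abs_nonneg _) (hgb y) 2
  have hT'n : ‖T'‖ ≤ R1 := by
    refine ContinuousLinearMap.opNorm_le_bound _ hR10.le fun y => ?_
    have h1 : ‖T y‖ ≤ |R| * ‖y‖ :=
      (T.le_opNorm y).trans (mul_le_mul_of_nonneg_right (hT.trans (le_abs_self R)) (norm_nonneg _))
    have h2 : ‖T' y‖ ^ 2 ≤ (R1 * ‖y‖) ^ 2 := by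
      rw [hT'2, hR1]
      have h3 := hgsq y
      have h4 : ‖T y‖ ^ 2 ≤ (|R| * ‖y‖) ^ 2 := pow_le_pow_left₀ (norm_nonneg _) h1 2
      have h5 : κ * (g y) ^ 2 ≤ 1 * ‖y‖ ^ 2 := mul_le_mul hκ1 h3 (sq_nonneg _) zero_le_one
      nlinarith [abs_nonneg R, sq_nonneg ‖y‖, mul_nonneg (abs_nonneg R) (sq_nonneg ‖y‖)]
    exact (pow_le_pow_iff_left₀ (norm_nonneg _) (by positivity) two_ne_zero).1 h2
  set Φ : X → ℝ := fun y => ‖T' y‖ ^ 2 - N y y with hΦ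
  have hΦy : ∀ y, Φ y = (‖T y‖ ^ 2 - N y y) + κ * (g y) ^ 2 := by
    intro y
    rw [hΦ]
    simp only
    rw [hT'2]
    ring
  have hmem : ∀ y : X, y ∈ Metric.closedBall (0 : X) 1 ↔ ‖y‖ ≤ 1 := fun y => mem_closedBall_zero_iff
  have hK : ∀ y ∈ Metric.closedBall (0 : X) 1, Φ y ≤ 1 + κ := by
    intro y hy
    have hy1 := (hmem y).1 hy
    rw [hΦy]
    have h1 := (abs_le.1 (hP y hy1)).2
    have h2 : (g y) ^ 2 ≤ 1 := (hgsq y).trans (by nlinarith [norm_nonneg y])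
    nlinarith
  have hx0Φ : 1 + κ - 2 * η < Φ x0 := by
    rw [hΦy, hgx0]
    nlinarith
  obtain ⟨p, hpC, B, f, hpx, hB, hf, hmain⟩ := hvar X T' (Metric.closedBall (0 : X) 1) Φ (1 + κ)
    (2 * R1 ^ 2 + 2 * ‖N‖) hT'n (convex_closedBall 0 1) Metric.isClosed_closedBall
    (fun y hy => (hmem y).1 hy) hK
    (fun x hx y hy => form_lip T' R1 hR10.le hT'n N x y ((hmem x).1 hx) ((hmem y).1 hy))
    (by
      have h1 := form_concave N hN (Metric.closedBall (0 : X) 1) (convex_closedBall 0 1)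
      have h2 : (fun y => Φ y - ‖T' y‖ ^ 2) = fun y => -(N y y) := by
        funext y
        simp only [hΦ]
        ring
      rw [h2]
      exact h1) x0 ((hmem x0).2 hx0) (by linarith)
  have hp1 : ‖p‖ ≤ 1 := (hmem p).1 hpC
  have hmain' : ∀ y : X, ‖y‖ ≤ 1 → Φ y ≤ Φ p + B (y - p) (y - p) + f (y - p) :=
    fun y hy => hmain y ((hmem y).2 hy)
  have heκ : 56 * e = κ := by rw [he]; ring
  have he1 : e ≤ 1 / 8 := by linarith
  -- the value at `p`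
  have hΦp : 1 / 4 ≤ Φ p := by
    have h1 := hmain' x0 hx0
    have h2 : ‖x0 - p‖ < e := by rw [norm_sub_rev]; exact hpx
    have h3 : B (x0 - p) (x0 - p) ≤ e := by
      have e1 := (abs_le.1 (hB.bound (x0 - p) (x0 - p))).2
      have e2 : ‖x0 - p‖ * ‖x0 - p‖ ≤ 1 := by nlinarith [norm_nonneg (x0 - p)]
      nlinarith
    have h4 : f (x0 - p) ≤ e := by
      have e1 := f.le_opNorm (x0 - p)
      rw [Real.norm_eq_abs] at e1
      have e2 := le_abs_self (f (x0 - p))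
      have e3 : ‖f‖ * ‖x0 - p‖ ≤ e * 1 := mul_le_mul hf (by linarith) (norm_nonneg _) he0.le
      linarith
    linarith
  have hΦhom : ∀ (r : ℝ) (y : X), Φ (r • y) = r ^ 2 * Φ y := by
    intro r y
    rw [hΦy, hΦy, hhomP, map_smul, smul_eq_mul]
    ring
  have hpn : ‖p‖ = 1 := norm_one_of Φ hΦhom e he0.le he1 p hp1 hΦp B f hB hf hmain'
  have hΦneg : ∀ y, Φ (-y) = Φ y := by
    intro y
    have := hΦhom (-1) y
    rw [neg_one_smul] at this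
    rw [this]
    ring
  obtain ⟨c, hc1, hc2, hc3, hc4⟩ := attain Φ hΦneg e he0 p hpn B f hB hf hmain'
  have hcv : ∀ u v, (c - κ • g.smulRight g) u v = c u v - κ * (g u * g v) := by
    intro u v
    simp only [_root_.sub_apply, _root_.smul_apply, ContinuousLinearMap.smulRight_apply, smul_eq_mul]
  have hcyy : ∀ y : X, ‖y‖ ≤ 1 → |c y y| ≤ 7 * e := by
    intro y hy
    refine (hc2 y y).trans ?_
    have : ‖y‖ * ‖y‖ ≤ 1 := by nlinarith [norm_nonneg y]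
    nlinarith
  -- the operator
  have hgp : |g p| ≤ 1 := (hgb p).trans hp1
  have hΦp' : 1 / 4 + κ ≤ Φ p := by
    have h1 := hmain' x0 hx0
    have h2 : ‖x0 - p‖ < e := by rw [norm_sub_rev]; exact hpx
    have h3 : B (x0 - p) (x0 - p) ≤ e := by
      have e1 := (abs_le.1 (hB.bound (x0 - p) (x0 - p))).2
      have e2 : ‖x0 - p‖ * ‖x0 - p‖ ≤ 1 := by nlinarith [norm_nonneg (x0 - p)]
      nlinarith
    have h4 : f (x0 - p) ≤ e := by
      have e1 := f.le_opNorm (x0 - p)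
      rw [Real.norm_eq_abs] at e1
      have e2 := le_abs_self (f (x0 - p))
      have e3 : ‖f‖ * ‖x0 - p‖ ≤ e * 1 := mul_le_mul hf (by linarith) (norm_nonneg _) he0.le
      linarith
    linarith
  have hTp : 1 / 2 ≤ ‖T p‖ := by
    have h1 : 1 / 4 ≤ ‖T p‖ ^ 2 := by
      have h2 := hN p
      have h3 : (g p) ^ 2 ≤ 1 := (hgsq p).trans (by nlinarith [norm_nonneg p])
      have h4 := hΦy p
      nlinarith
    nlinarith [norm_nonneg (T p)]
  obtain ⟨S, hS1, hS2⟩ := absorb T R1 hR11 (hT.trans (by rw [hR1]; linarith [le_abs_self R])) N p hp1 hTp B e (3 * κ)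
    (by linarith) (by linarith) hB (f - (2 * κ * g p) • g) (by
      refine (norm_sub_le _ _).trans ?_
      rw [norm_smul, hg1, mul_one, Real.norm_eq_abs, abs_mul, abs_of_pos (by linarith : 0 < 2 * κ)]
      have h1 : 2 * κ * |g p| ≤ 2 * κ * 1 := mul_le_mul_of_nonneg_left hgp (by linarith)
      linarith) (by
      intro y hy
      have h1 := hmain' y hy
      rw [hΦy, hΦy] at h1
      have h2 : (f - (2 * κ * g p) • g) (y - p) = f (y - p) - 2 * κ * g p * (g y - g p) := by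
        simp only [_root_.sub_apply, _root_.smul_apply, smul_eq_mul, map_sub]
        ring
      rw [h2]
      have h3 := mul_nonneg hκ0.le (sq_nonneg (g y - g p))
      nlinarith)
  refine ⟨c - κ • g.smulRight g, S, p, ?_, ?_, ?_, ?_, hpn, ?_, ?_, ?_⟩
  · intro u v
    rw [hcv, hcv, hc1 u v]
    ring
  · have h1 : ‖c - κ • g.smulRight g‖ ≤ 7 * e + κ := by
      refine ContinuousLinearMap.opNorm_le_bound₂ _ (by positivity) fun u v => ?_
      rw [hcv, Real.norm_eq_abs]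
      have h2 := hc2 u v
      have h3 : |κ * (g u * g v)| ≤ κ * (‖u‖ * ‖v‖) := by
        rw [abs_mul, abs_of_pos hκ0, abs_mul]
        exact mul_le_mul_of_nonneg_left (mul_le_mul (hgb u) (hgb v) (abs_nonneg _) (norm_nonneg _)) hκ0.le
      have h4 := abs_sub (c u v) (κ * (g u * g v))
      have h5 : (7 * e + κ) * ‖u‖ * ‖v‖ = 7 * e * (‖u‖ * ‖v‖) + κ * (‖u‖ * ‖v‖) := by ring
      rw [h5]
      linarith
    linarith
  · intro n u σ hσ
    have h1 := hc3 n u σ hσ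
    have h2 := hσ g hg1.le
    have hσ0 : 0 ≤ σ := by
      have := hσ 0 (by simp)
      simpa using this
    calc ∑ k, |(c - κ • g.smulRight g) (u k) (u k)| ≤ ∑ k, (|c (u k) (u k)| + κ * g (u k) ^ 2) := by
          refine Finset.sum_le_sum fun k _ => ?_
          rw [hcv]
          have h4 := abs_sub (c (u k) (u k)) (κ * (g (u k) * g (u k)))
          have h5 : |κ * (g (u k) * g (u k))| = κ * g (u k) ^ 2 := by
            rw [abs_of_nonneg (mul_nonneg hκ0.le (mul_self_nonneg _))]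
            ring
          rw [h5] at h4
          exact h4
      _ = ∑ k, |c (u k) (u k)| + κ * ∑ k, g (u k) ^ 2 := by
          rw [Finset.sum_add_distrib, Finset.mul_sum]
      _ ≤ 7 * e * σ + κ * σ := add_le_add h1 (mul_le_mul_of_nonneg_left h2 hκ0.le)
      _ ≤ ε * σ := by nlinarith
  · linarith
  · intro y hy
    have h1 : ∀ z : X, ‖T z‖ ^ 2 - N z z - (c - κ • g.smulRight g) z z = Φ z - c z z := by
      intro z
      rw [hcv, hΦy]
      ring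
    rw [h1, h1, abs_le]
    refine ⟨?_, hc4 y hy⟩
    have h2 := hc4 x0 hx0
    have h3 := (abs_le.1 (hcyy x0 hx0)).2
    have h4 := (abs_le.1 (hcyy y hy)).2
    have h5 := (abs_le.1 (hP y hy)).1
    have h6 : -1 ≤ Φ y := by
      rw [hΦy]
      have := mul_nonneg hκ0.le (sq_nonneg (g y))
      linarith
    linarith
  · refine lt_of_le_of_lt hS1 ?_
    have h1 : 0 < R1 ^ 2 * κ := by positivity
    linarith
  · intro n w y M hw0 hw1 hy hM
    have h1 := hS2 n w y M hw0 hw1 hy hM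
    have hM0 : 0 ≤ M := by
      have h2 := hM 0 (by simp)
      simpa using h2
    have h3 : e + 10 * R1 ^ 2 * (3 * κ) ≤ ε := by linarith
    have h4 := mul_le_mul_of_nonneg_right h3 hM0
    linarith

end Pool.Agent.Lib.MP_b6bd4b_an.SQ
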