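import Pool.Agent.Lib.MP_b6bd4b_an.SQ.Fin
import Pool.Agent.Lib.MP_b6bd4b_an.SQ.Exa

/-!
Module FinE: operators `T : X → ℓ₂^(m+1)`, with the second order necessary condition at `x`.
-/

namespace Pool.Agent.Lib.MP_b6bd4b_an.SQ

open Finset SB

universe u

theorem operatorsExact (m : ℕ) (ε : ℝ) (hε : 0 < ε) : ∃ η : ℝ, 0 < η ∧
    ∀ (X : Type u) [NormedAddCommGroup X] [NormedSpace ℝ X] [CompleteSpace X]
      (T : X →L[ℝ] Eu (m + 1)), ‖T‖ = 1 → ∀ x0 : X, ‖x0‖ ≤ 1 → 1 - η < ‖T x0‖ →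
      ∃ (c : X →L[ℝ] X →L[ℝ] ℝ) (S : X →L[ℝ] Eu (m + 1)) (x : X), (∀ u v, c u v = c v u) ∧ ‖c‖ < ε ∧
        (∀ (n : ℕ) (u : Fin n → X) (σ : ℝ), (∀ g : X →L[ℝ] ℝ, ‖g‖ ≤ 1 → ∑ k, g (u k) ^ 2 ≤ σ) →
          ∑ k, |c (u k) (u k)| ≤ ε * σ) ∧
        ‖x - x0‖ < ε ∧ ‖x‖ = 1 ∧
        (∀ y : X, ‖y‖ ≤ 1 → |‖T y‖ ^ 2 - c y y| ≤ ‖T x‖ ^ 2 - c x x) ∧
        ‖S - T‖ < ε ∧ SecOrd ε S 0 x ∧
        ∀ (u : X) (K : ℝ), SndLE x u K → ‖S u‖ ^ 2 ≤ max 1 (m : ℝ) * K * ‖S x‖ ^ 2 := by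
  obtain ⟨D, hD⟩ : ∃ D : ℝ, D = 1 + 4 * m + m * (16 + 16) := ⟨_, rfl⟩
  have hD0 : 0 < D := by rw [hD]; positivity
  obtain ⟨σ, hσ0, hσ1, hσD⟩ : ∃ σ : ℝ, 0 < σ ∧ σ ≤ 1 / 2 ∧ σ * D < ε := by
    refine ⟨min (1 / 2) (ε / (2 * D)), by positivity, min_le_left _ _, ?_⟩
    calc min (1 / 2) (ε / (2 * D)) * D ≤ ε / (2 * D) * D := mul_le_mul_of_nonneg_right (min_le_right _ _) hD0.le
      _ = ε / 2 := by field_simp
      _ < ε := by linarith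
  have hσσ : σ ^ 2 ≤ σ := by nlinarith
  have hσ4 : σ ^ 2 ≤ 1 / 4 := by nlinarith
  have hd0 : (0 : ℝ) ≤ m := Nat.cast_nonneg m
  have hdσ : 0 ≤ m * σ := mul_nonneg hd0 hσ0.le
  have hdσσ : m * σ ^ 2 ≤ m * σ := mul_le_mul_of_nonneg_left hσσ hd0
  have hD' : σ * D = σ + 4 * (m * σ) + (16 * (m * σ) + 16 * (m * σ)) := by rw [hD]; ring
  have hσε : σ ^ 2 ≤ ε := by linarith
  obtain ⟨η, hη, h⟩ := quadForms.{u} (m + 1) 1 (σ ^ 2) (by positivity)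
  obtain ⟨η', hη', hη1, hη2⟩ : ∃ η' : ℝ, 0 < η' ∧ η' ≤ η / 2 ∧ η' ≤ 1 / 4 :=
    ⟨min (η / 2) (1 / 4), by positivity, min_le_left _ _, min_le_right _ _⟩
  refine ⟨η', hη', fun X _ _ _ T hT x0 hx0 hTx0 => ?_⟩
  have hTy : ∀ y : X, ‖y‖ ≤ 1 → ‖T y‖ ≤ 1 := fun y hy => by
    have h1 := T.le_opNorm y
    rw [hT, one_mul] at h1
    exact h1.trans hy
  have hz : ∀ u v : X, (0 : X →L[ℝ] X →L[ℝ] ℝ) u v = 0 := fun _ _ => rfl
  obtain ⟨c, S, x, h1, h2, h3, h4, h5, h6, h7, h8⟩ := h X T 0 hT.le (fun _ _ => rfl) (fun _ => le_rfl)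
    (by
      intro y hy
      rw [hz, sub_zero, abs_of_nonneg (by positivity)]
      exact pow_le_one₀ (norm_nonneg _) (hTy y hy)) x0 hx0
    (by
      rw [hz, sub_zero]
      nlinarith [hTy x0 hx0, norm_nonneg (T x0)])
  have hSec : SecOrd (σ ^ 2) S 0 x := h8
  have hSn : ‖S‖ ≤ 2 := by
    have e1 : S = T + (S - T) := by abel
    rw [e1]
    refine (norm_add_le _ _).trans ?_
    rw [hT]
    linarith
  have hSx : S x ≠ 0 := by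
    intro h0
    have e1 := hSec.one hx0
    rw [hz, hz, h0, norm_zero] at e1
    have e2 : ‖T x0‖ ≤ ‖S x0‖ + σ ^ 2 := by
      have e3 : T x0 = S x0 - (S - T) x0 := by
        change T x0 = S x0 - (S x0 - T x0)
        abel
      rw [e3]
      refine (norm_sub_le _ _).trans ?_
      have e4 := (S - T).le_opNorm x0
      have e5 : ‖S - T‖ * ‖x0‖ ≤ σ ^ 2 * 1 := mul_le_mul h7.le hx0 (norm_nonneg _) (sq_nonneg σ)
      linarith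
    have e6 : 1 / 2 ≤ ‖S x0‖ := by linarith
    have e7 : ‖x0 - x‖ ^ 2 ≤ (1 / 4) ^ 2 := by
      refine pow_le_pow_left₀ (norm_nonneg _) ?_ 2
      rw [norm_sub_rev]
      linarith
    have e8 : σ ^ 2 * ‖x0 - x‖ ^ 2 ≤ 1 / 4 * (1 / 4) ^ 2 := mul_le_mul hσ4 e7 (sq_nonneg _) (by norm_num)
    nlinarith
  obtain ⟨S', g1, g2, g3⟩ := exactSnd S 2 two_pos hSn x h5 hSx σ hσ0 hSec
  refine ⟨c, S', x, h1, h2.trans_le hσε, fun n u M hM => ?_, h4.trans_le hσε, h5, ?_, ?_, ?_, g3⟩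
  · have hM0 : 0 ≤ M := by
      have e1 := hM 0 (by simp)
      simpa using e1
    exact (h3 n u M hM).trans (mul_le_mul_of_nonneg_right hσε hM0)
  · intro y hy
    have e1 := h6 y hy
    rw [hz, hz, sub_zero, sub_zero] at e1
    exact e1
  · have e1 : S' - T = (S' - S) + (S - T) := by abel
    rw [e1]
    refine lt_of_le_of_lt (norm_add_le _ _) ?_
    linarith
  · intro n w y M hw0 hw1 hy hM
    have e1 := g2 n w y M hw0 hw1 hy hM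
    have hM0 : 0 ≤ M := by
      have e1 := hM 0 (by simp)
      simpa using e1
    have e2 : σ ^ 2 + m * (2 * (4 * σ) * 2 + (4 * σ) ^ 2) ≤ ε := by nlinarith
    have e3 := mul_le_mul_of_nonneg_right e2 hM0
    linarith

end Pool.Agent.Lib.MP_b6bd4b_an.SQ
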