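import Pool.Agent.Lib.MP_b6bd4b_an.SQ.Flat

/-!
Module Flt: the operator can be changed so that it vanishes on the second order flat directions of the ball at `x`.
-/

namespace Pool.Agent.Lib.MP_b6bd4b_an.SQ

open Finset SB RealInnerProductSpace

variable {X : Type*} [NormedAddCommGroup X] [NormedSpace ℝ X] {d : ℕ}

/-- The norming functional of `x` vanishes on flat directions. -/
theorem flat_dual {x : X} {f : X →L[ℝ] ℝ} (hf : ‖f‖ ≤ 1) (hfx : f x = 1) {u : X} (hu : Flat x u) : f u = 0 := by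
  obtain ⟨r, hr, h⟩ := hu 1 one_pos
  refine lin_zero (f u) 1 r hr fun t ht => ?_
  have h1 := h t ht
  have h2 := f.le_opNorm (x + t • u)
  have h3 := (le_abs_self (f (x + t • u))).trans ((Real.norm_eq_abs _).symm.le.trans h2)
  have h4 : ‖f‖ * ‖x + t • u‖ ≤ 1 * ‖x + t • u‖ := mul_le_mul_of_nonneg_right hf (norm_nonneg _)
  rw [map_add, map_smul, smul_eq_mul, hfx] at h3
  linarith

/-- Extension of the restriction of `S` to a subspace on which it is small. -/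
theorem extend (F : Submodule ℝ X) (S : X →L[ℝ] Eu d) (s : ℝ) (hs : 0 ≤ s) (hS : ∀ u ∈ F, ‖S u‖ ≤ s * ‖u‖)
    (x : X) (hx : ‖x‖ ≤ 1) (f : X →L[ℝ] ℝ) (hf : ‖f‖ ≤ 1) (hfx : f x = 1) (hfF : ∀ u ∈ F, f u = 0) (k : Fin d) :
    ∃ g : X →L[ℝ] ℝ, ‖g‖ ≤ 2 * s ∧ g x = 0 ∧ ∀ u ∈ F, g u = (S u) k := by
  obtain ⟨φ, hφ⟩ : ∃ φ : F →L[ℝ] ℝ, φ = ((EuclideanSpace.proj k : Eu d →L[ℝ] ℝ).comp S).comp F.subtypeL := ⟨_, rfl⟩
  have hφu : ∀ u : F, φ u = (S (u : X)) k := fun u => by rw [hφ]; rfl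
  have hφn : ‖φ‖ ≤ s := by
    refine ContinuousLinearMap.opNorm_le_bound _ hs fun u => ?_
    rw [hφu]
    have h1 := EuclideanSpace.norm_eq (S (u : X))
    have h2 : ‖(S (u : X)) k‖ ≤ ‖S (u : X)‖ := PiLp.norm_apply_le (S (u : X)) k
    exact h2.trans (hS u u.2)
  obtain ⟨h, h1, h2⟩ := exists_extension_norm_eq F φ
  refine ⟨h - h x • f, ?_, ?_, fun u hu => ?_⟩
  · have e1 : |h x| ≤ s := by
      have e2 := h.le_opNorm x
      rw [Real.norm_eq_abs] at e2
      have e3 : ‖h‖ * ‖x‖ ≤ s * 1 := mul_le_mul (by rw [h2]; exact hφn) hx (norm_nonneg _) hs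
      linarith
    refine (norm_sub_le _ _).trans ?_
    rw [norm_smul, Real.norm_eq_abs, h2]
    have e4 : |h x| * ‖f‖ ≤ s * 1 := mul_le_mul e1 hf (norm_nonneg _) hs
    linarith
  · change h x - h x * f x = 0
    rw [hfx, mul_one, sub_self]
  · change h u - h x * f u = (S u) k
    have e1 := h1 ⟨u, hu⟩
    rw [hφu] at e1
    rw [hfF u hu, mul_zero, sub_zero]
    exact e1

/-- Operators with given coordinates. -/
theorem rows (g : Fin d → (X →L[ℝ] ℝ)) : ∃ G : X →L[ℝ] Eu d, ∀ y k, (G y) k = g k y :=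
  ⟨(EuclideanSpace.equiv (Fin d) ℝ).symm.toContinuousLinearMap.comp (ContinuousLinearMap.pi g), fun _ _ => rfl⟩

/-- The operator can be changed so that it vanishes on the flat directions. -/
theorem flatten (S : X →L[ℝ] Eu d) (R : ℝ) (hR : 0 < R) (hS : ‖S‖ ≤ R) (N : X →L[ℝ] X →L[ℝ] ℝ)
    (hs : ∀ u v, N u v = N v u) (hN : ∀ u, 0 ≤ N u u) (x : X) (hx : ‖x‖ = 1) (σ : ℝ) (hσ : 0 < σ)
    (h : SecOrd (σ ^ 2) S N x) :
    ∃ S' : X →L[ℝ] Eu d, ‖S' - S‖ ≤ 2 * d * σ ∧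
      SecOrd (σ ^ 2 + d * (2 * (2 * σ) * R + (2 * σ) ^ 2)) S' N x ∧
      ∀ u, Flat x u → N u u = 0 → S' u = 0 := by
  obtain ⟨F, hF⟩ : ∃ F : Submodule ℝ X, F = flatSub N hs hN x hx.le := ⟨_, rfl⟩
  have hFm : ∀ u, u ∈ F ↔ Flat x u ∧ N u u = 0 := fun u => by rw [hF]; rfl
  obtain ⟨f, hf1, hf2⟩ := exists_dual_vector ℝ x (by rw [hx]; exact one_ne_zero)
  have hfx : f x = 1 := by
    have h1 : f x = ‖x‖ := hf2
    rw [h1, hx]
  have hSF : ∀ u ∈ F, ‖S u‖ ≤ σ * ‖u‖ := by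
    intro u hu
    have h1 := (h.flat (sq_nonneg σ) hs hN hx.le ((hFm u).1 hu).1 ((hFm u).1 hu).2).2
    rw [← mul_pow] at h1
    exact (pow_le_pow_iff_left₀ (norm_nonneg _) (by positivity) two_ne_zero).1 h1
  choose g hg1 hg2 hg3 using extend F S σ hσ.le hSF x hx.le f hf1.le hfx (fun u hu =>
    flat_dual hf1.le hfx ((hFm u).1 hu).1)
  obtain ⟨G, hG⟩ := rows g
  have hGx : G x = 0 := by
    ext k
    rw [hG, hg2]
    rfl
  have hGF : ∀ u ∈ F, G u = S u := by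
    intro u hu
    ext k
    rw [hG, hg3 k u hu]
  have hGsq : ∀ y, ‖G y‖ ^ 2 = ∑ k, g k y ^ 2 := by
    intro y
    rw [EuclideanSpace.norm_sq_eq]
    refine Finset.sum_congr rfl fun k _ => ?_
    rw [hG, Real.norm_eq_abs, sq_abs]
  -- the projection
  obtain ⟨p, hp⟩ : ∃ p : Eu d →L[ℝ] Eu d, p = (ℝ ∙ (S x))ᗮ.starProjection := ⟨_, rfl⟩
  have hp1 : ∀ z, ⟪S x, p z⟫ = 0 := by
    intro z
    have h1 : p z ∈ (ℝ ∙ (S x))ᗮ := by rw [hp]; exact Submodule.starProjection_apply_mem _ z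
    exact Submodule.mem_orthogonal_singleton_iff_inner_right.1 h1
  have hp2 : ∀ z, ‖p z‖ ≤ ‖z‖ := by
    intro z
    rw [hp]
    exact Submodule.norm_starProjection_apply_le _ z
  have hp3 : ∀ z, ⟪S x, z⟫ = 0 → p z = z := by
    intro z hz
    rw [hp]
    exact Submodule.starProjection_eq_self_iff.2 (Submodule.mem_orthogonal_singleton_iff_inner_right.2 hz)
  have hp4 : ∀ z z', ⟪z, p z'⟫ = ⟪p z, z'⟫ := by
    intro z z'
    rw [hp]
    exact (Submodule.inner_starProjection_left_eq_right _ z z').symm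
  obtain ⟨l, hl⟩ : ∃ l : Fin d → (X →L[ℝ] ℝ), l = fun k => (EuclideanSpace.proj k : Eu d →L[ℝ] ℝ).comp (p.comp S) :=
    ⟨_, rfl⟩
  have hlu : ∀ k u, l k u = (p (S u)) k := fun k u => by rw [hl]; rfl
  have hln : ∀ k, ‖l k‖ ≤ R := by
    intro k
    refine ContinuousLinearMap.opNorm_le_bound _ hR.le fun u => ?_
    rw [hlu]
    have h1 : ‖(p (S u)) k‖ ≤ ‖p (S u)‖ := PiLp.norm_apply_le (p (S u)) k
    exact h1.trans ((hp2 _).trans ((S.le_opNorm u).trans (mul_le_mul_of_nonneg_right hS (norm_nonneg _))))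
  refine ⟨S - p.comp G, ?_, ?_, ?_⟩
  · have h0 : S - p.comp G - S = -(p.comp G) := by abel
    rw [h0, norm_neg]
    refine ContinuousLinearMap.opNorm_le_bound _ (by positivity) fun y => ?_
    have h1 : ‖(p.comp G) y‖ ≤ ‖G y‖ := hp2 _
    refine h1.trans ?_
    have h2 : ‖G y‖ ^ 2 ≤ (2 * d * σ * ‖y‖) ^ 2 := by
      rw [hGsq]
      have h3 : ∀ k, g k y ^ 2 ≤ (2 * σ * ‖y‖) ^ 2 := by
        intro k
        rw [← sq_abs (g k y)]
        refine pow_le_pow_left₀ (abs_nonneg _) ?_ 2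
        have h4 := (g k).le_opNorm y
        rw [Real.norm_eq_abs] at h4
        exact h4.trans (mul_le_mul_of_nonneg_right (hg1 k) (norm_nonneg _))
      calc ∑ k, g k y ^ 2 ≤ ∑ _k : Fin d, (2 * σ * ‖y‖) ^ 2 := Finset.sum_le_sum fun k _ => h3 k
        _ = d * (2 * σ * ‖y‖) ^ 2 := by simp
        _ ≤ (d : ℝ) ^ 2 * (2 * σ * ‖y‖) ^ 2 := by
            refine mul_le_mul_of_nonneg_right ?_ (sq_nonneg _)
            exact_mod_cast Nat.le_self_pow two_ne_zero d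
        _ = (2 * d * σ * ‖y‖) ^ 2 := by ring
    exact (pow_le_pow_iff_left₀ (norm_nonneg _) (by positivity) two_ne_zero).1 h2
  · intro n w y M hw0 hw1 hy hM
    have h1 := h n w y M hw0 hw1 hy hM
    have hS'x : (S - p.comp G) x = S x := by
      change S x - p (G x) = S x
      rw [hGx, map_zero, sub_zero]
    have hpt : ∀ z, ‖(S - p.comp G) z‖ ^ 2 ≤ ‖S z‖ ^ 2 +
        ∑ k, (2 * (-g k) (z - x) * l k (z - x) + (-g k) (z - x) ^ 2) := by
      intro z
      have e0 : (S - p.comp G) z = S z - p (G (z - x)) := by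
        change S z - p (G z) = _
        rw [map_sub G, hGx, sub_zero]
      have e1 : ⟪S z, p (G (z - x))⟫ = ⟪p (S (z - x)), G (z - x)⟫ := by
        have e2 : S z = S x + S (z - x) := by rw [← map_add, add_sub_cancel]
        rw [e2, inner_add_left, hp1, zero_add, hp4]
      have e3 : ⟪p (S (z - x)), G (z - x)⟫ = ∑ k, l k (z - x) * g k (z - x) := by
        rw [PiLp.inner_apply]
        refine Finset.sum_congr rfl fun k _ => ?_
        rw [hlu, hG]
        simp [mul_comm]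
      have e4 : ‖p (G (z - x))‖ ^ 2 ≤ ∑ k, g k (z - x) ^ 2 := by
        rw [← hGsq]
        exact pow_le_pow_left₀ (norm_nonneg _) (hp2 _) 2
      rw [e0, norm_sub_sq_real, e1, e3]
      have e5 : ∑ k, (2 * (-g k) (z - x) * l k (z - x) + (-g k) (z - x) ^ 2) =
          -(2 * ∑ k, l k (z - x) * g k (z - x)) + ∑ k, g k (z - x) ^ 2 := by
        rw [Finset.mul_sum, ← Finset.sum_neg_distrib, ← Finset.sum_add_distrib]
        refine Finset.sum_congr rfl fun k _ => ?_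
        rw [_root_.neg_apply]
        ring
      rw [e5]
      linarith
    have hck : ∀ k, ∑ i, w i * (2 * (-g k) (y i - x) * l k (y i - x) + (-g k) (y i - x) ^ 2) ≤
        (2 * (2 * σ) * R + (2 * σ) ^ 2) * M := fun k =>
      cross_le (-g k) (l k) (2 * σ) R (by positivity) hR (by rw [norm_neg]; exact hg1 k) (hln k) w hw0
        (fun i => y i - x) M hM
    have hc := Finset.sum_le_sum fun k (_ : k ∈ (Finset.univ : Finset (Fin d))) => hck k
    rw [Finset.sum_comm] at hc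
    simp only [← Finset.mul_sum, Finset.sum_const, Finset.card_univ, Fintype.card_fin, nsmul_eq_mul] at hc
    rw [hS'x]
    calc ∑ i, w i * (‖(S - p.comp G) (y i)‖ ^ 2 - N (y i) (y i))
        ≤ ∑ i, (w i * (‖S (y i)‖ ^ 2 - N (y i) (y i)) +
          w i * ∑ k, (2 * (-g k) (y i - x) * l k (y i - x) + (-g k) (y i - x) ^ 2)) := by
          refine Finset.sum_le_sum fun i _ => ?_
          have e1 := mul_le_mul_of_nonneg_left (hpt (y i)) (hw0 i)
          linarith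
      _ = ∑ i, w i * (‖S (y i)‖ ^ 2 - N (y i) (y i)) +
          ∑ i, w i * ∑ k, (2 * (-g k) (y i - x) * l k (y i - x) + (-g k) (y i - x) ^ 2) :=
          Finset.sum_add_distrib
      _ ≤ _ := by linarith
  · intro u hu hu0
    have h1 := (h.flat (sq_nonneg σ) hs hN hx.le hu hu0).1
    change S u - p (G u) = 0
    rw [hGF u ((hFm u).2 ⟨hu, hu0⟩), hp3 _ h1, sub_self]

end Pool.Agent.Lib.MP_b6bd4b_an.SQ
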