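import Pool.Agent.Lib.MP_b6bd4b_an.SQ.Fin
import Pool.Agent.Lib.MP_b6bd4b_an.SQ.Flt

/-!
Module FinF: the theorem with an operator which vanishes on the second order flat directions.
-/

namespace Pool.Agent.Lib.MP_b6bd4b_an.SQ

open Finset SB

universe u

/-- Bishop-Phelps-Bollobás for the quadratic forms whose positive part has finite rank, with flat directions. -/
theorem quadFormsFlat (d : ℕ) (R ε : ℝ) (hε : 0 < ε) : ∃ η : ℝ, 0 < η ∧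
    ∀ (X : Type u) [NormedAddCommGroup X] [NormedSpace ℝ X] [CompleteSpace X]
      (T : X →L[ℝ] Eu d) (N : X →L[ℝ] X →L[ℝ] ℝ), ‖T‖ ≤ R → (∀ u v, N u v = N v u) → (∀ u, 0 ≤ N u u) →
      (∀ y : X, ‖y‖ ≤ 1 → |‖T y‖ ^ 2 - N y y| ≤ 1) →
      ∀ x0 : X, ‖x0‖ ≤ 1 → 1 - η < ‖T x0‖ ^ 2 - N x0 x0 →
      ∃ (c : X →L[ℝ] X →L[ℝ] ℝ) (S : X →L[ℝ] Eu d) (x : X), (∀ u v, c u v = c v u) ∧ ‖c‖ < ε ∧
        (∀ (n : ℕ) (u : Fin n → X) (σ : ℝ), (∀ g : X →L[ℝ] ℝ, ‖g‖ ≤ 1 → ∑ k, g (u k) ^ 2 ≤ σ) →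
          ∑ k, |c (u k) (u k)| ≤ ε * σ) ∧
        ‖x - x0‖ < ε ∧ ‖x‖ = 1 ∧
        (∀ y : X, ‖y‖ ≤ 1 → |‖T y‖ ^ 2 - N y y - c y y| ≤ ‖T x‖ ^ 2 - N x x - c x x) ∧
        ‖S - T‖ < ε ∧ SecOrd ε S N x ∧ ∀ u, Flat x u → N u u = 0 → S u = 0 := by
  obtain ⟨R2, hR2⟩ : ∃ R2 : ℝ, R2 = |R| + 1 := ⟨_, rfl⟩
  have hR20 : 0 < R2 := by rw [hR2]; positivity
  obtain ⟨D, hD⟩ : ∃ D : ℝ, D = 1 + 2 * d + d * (4 * R2 + 4) := ⟨_, rfl⟩
  have hD0 : 0 < D := by rw [hD]; positivity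
  obtain ⟨σ, hσ0, hσ1, hσD⟩ : ∃ σ : ℝ, 0 < σ ∧ σ ≤ 1 ∧ σ * D < ε := by
    refine ⟨min 1 (ε / (2 * D)), by positivity, min_le_left _ _, ?_⟩
    calc min 1 (ε / (2 * D)) * D ≤ ε / (2 * D) * D := mul_le_mul_of_nonneg_right (min_le_right _ _) hD0.le
      _ = ε / 2 := by field_simp
      _ < ε := by linarith
  have hσσ : σ ^ 2 ≤ σ := by nlinarith
  have hd0 : (0 : ℝ) ≤ d := Nat.cast_nonneg d
  have hdσ : 0 ≤ d * σ := mul_nonneg hd0 hσ0.le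
  have hdσR : 0 ≤ d * σ * R2 := mul_nonneg hdσ hR20.le
  have hdσσ : d * σ ^ 2 ≤ d * σ := mul_le_mul_of_nonneg_left hσσ hd0
  have hD' : σ * D = σ + 2 * (d * σ) + (4 * (d * σ * R2) + 4 * (d * σ)) := by rw [hD]; ring
  have hσε : σ ^ 2 ≤ ε := by linarith
  obtain ⟨η, hη, h⟩ := quadForms.{u} d R (σ ^ 2) (by positivity)
  refine ⟨η, hη, fun X _ _ _ T N hT hNs hN hP x0 hx0 hPx0 => ?_⟩
  obtain ⟨c, S, x, h1, h2, h3, h4, h5, h6, h7, h8⟩ := h X T N hT hNs hN hP x0 hx0 hPx0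
  have hSn : ‖S‖ ≤ R2 := by
    have e1 : S = T + (S - T) := by abel
    rw [e1]
    refine (norm_add_le _ _).trans ?_
    rw [hR2]
    have e2 := le_abs_self R
    linarith
  obtain ⟨S', g1, g2, g3⟩ := flatten S R2 hR20 hSn N hNs hN x h5 σ hσ0 h8
  refine ⟨c, S', x, h1, h2.trans_le hσε, fun n u M hM => ?_, h4.trans_le hσε, h5, h6, ?_, ?_, g3⟩
  · have hM0 : 0 ≤ M := by
      have e1 := hM 0 (by simp)
      simpa using e1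
    exact (h3 n u M hM).trans (mul_le_mul_of_nonneg_right hσε hM0)
  · have e1 : S' - T = (S' - S) + (S - T) := by abel
    rw [e1]
    refine lt_of_le_of_lt (norm_add_le _ _) ?_
    linarith
  · intro n w y M hw0 hw1 hy hM
    have e1 := g2 n w y M hw0 hw1 hy hM
    have hM0 : 0 ≤ M := by
      have e1 := hM 0 (by simp)
      simpa using e1
    have e2 : σ ^ 2 + d * (2 * (2 * σ) * R2 + (2 * σ) ^ 2) ≤ ε := by nlinarith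
    have e3 := mul_le_mul_of_nonneg_right e2 hM0
    linarith

end Pool.Agent.Lib.MP_b6bd4b_an.SQ
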