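import Pool.Agent.Lib.MP_b6bd4b_an.SQ.Abs

/-!
Module Flat: the operator can be changed so that it vanishes on the second order flat directions of the ball at `x`.
-/

namespace Pool.Agent.Lib.MP_b6bd4b_an.SQ

open Finset SB RealInnerProductSpace

variable {X : Type*} [NormedAddCommGroup X] [NormedSpace ℝ X] {d : ℕ}

/-- The unit ball is flat to second order at `x` in the direction `u`: `‖x + t u‖ ≤ 1 + o(t²)`. -/
def Flat (x u : X) : Prop :=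
  ∀ δ : ℝ, 0 < δ → ∃ r : ℝ, 0 < r ∧ ∀ t : ℝ, |t| < r → ‖x + t • u‖ ≤ 1 + δ * t ^ 2

theorem lin_zero (K C r : ℝ) (hr : 0 < r) (h : ∀ t : ℝ, |t| < r → t * K ≤ C * t ^ 2) : K = 0 := by
  by_contra hK
  have hK0 : 0 < |K| := abs_pos.2 hK
  have hC : 0 < 2 * (|C| + 1) := by positivity
  obtain ⟨τ, hτ0, hτr, hτK⟩ : ∃ τ : ℝ, 0 < τ ∧ τ < r ∧ τ * (2 * (|C| + 1)) ≤ |K| := by
    refine ⟨min (r / 2) (|K| / (2 * (|C| + 1))), by positivity, ?_, ?_⟩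
    · exact lt_of_le_of_lt (min_le_left _ _) (by linarith)
    · calc min (r / 2) (|K| / (2 * (|C| + 1))) * (2 * (|C| + 1)) ≤ |K| / (2 * (|C| + 1)) * (2 * (|C| + 1)) :=
            mul_le_mul_of_nonneg_right (min_le_right _ _) hC.le
        _ = |K| := by field_simp
  have hCτ : C * τ < |K| := by
    have h1 : C * τ ≤ |C| * τ := mul_le_mul_of_nonneg_right (le_abs_self C) hτ0.le
    have h2 : 0 ≤ |C| * τ := by positivity
    nlinarith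
  rcases lt_or_gt_of_ne hK with h0 | h0
  · have h1 := h (-τ) (by rw [abs_neg, abs_of_pos hτ0]; exact hτr)
    rw [abs_of_neg h0] at hCτ
    nlinarith
  · have h1 := h τ (by rw [abs_of_pos hτ0]; exact hτr)
    rw [abs_of_pos h0] at hCτ
    nlinarith

theorem flat_zero {x : X} (hx : ‖x‖ ≤ 1) : Flat x (0 : X) := by
  intro δ hδ
  refine ⟨1, one_pos, fun t _ => ?_⟩
  rw [smul_zero, add_zero]
  have := mul_nonneg hδ.le (sq_nonneg t)
  linarith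

theorem flat_add {x u w : X} (hu : Flat x u) (hw : Flat x w) : Flat x (u + w) := by
  intro δ hδ
  obtain ⟨r1, hr1, h1⟩ := hu (δ / 4) (by positivity)
  obtain ⟨r2, hr2, h2⟩ := hw (δ / 4) (by positivity)
  refine ⟨min r1 r2 / 2, by positivity, fun t ht => ?_⟩
  have e0 : |2 * t| < min r1 r2 := by
    rw [abs_mul, abs_two]
    linarith
  have e1 := h1 (2 * t) (e0.trans_le (min_le_left _ _))
  have e2 := h2 (2 * t) (e0.trans_le (min_le_right _ _))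
  have e3 : x + t • (u + w) = (1 / 2 : ℝ) • (x + (2 * t) • u) + (1 / 2 : ℝ) • (x + (2 * t) • w) := by
    module
  rw [e3]
  refine (norm_add_le _ _).trans ?_
  rw [norm_smul, norm_smul, Real.norm_of_nonneg (by norm_num : (0 : ℝ) ≤ 1 / 2)]
  nlinarith

theorem flat_smul {x u : X} (c : ℝ) (hu : Flat x u) : Flat x (c • u) := by
  intro δ hδ
  obtain ⟨r, hr, h⟩ := hu (δ / (c ^ 2 + 1)) (by positivity)
  refine ⟨r / (|c| + 1), by positivity, fun t ht => ?_⟩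
  have e0 : |t * c| < r := by
    rw [lt_div_iff₀ (by positivity)] at ht
    rw [abs_mul]
    nlinarith [abs_nonneg t]
  have e1 := h (t * c) e0
  rw [smul_smul]
  refine e1.trans ?_
  have e2 : δ / (c ^ 2 + 1) * (t * c) ^ 2 ≤ δ * t ^ 2 := by
    rw [div_mul_eq_mul_div, div_le_iff₀ (by positivity)]
    nlinarith [mul_nonneg hδ.le (sq_nonneg t)]
  linarith

/-- A vector of length zero is orthogonal to everything. -/
theorem pos_zero (N : X →L[ℝ] X →L[ℝ] ℝ) (hs : ∀ u v, N u v = N v u) (hN : ∀ u, 0 ≤ N u u) {u : X}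
    (hu : N u u = 0) (z : X) : N u z = 0 := by
  by_contra h0
  have h1 := hN (z + (-(N z z + 1) / (2 * N u z)) • u)
  have h2 : ∀ t : ℝ, N (z + t • u) (z + t • u) = N z z + 2 * t * N u z + t ^ 2 * N u u := by
    intro t
    simp only [map_add, map_smul, _root_.add_apply, _root_.smul_apply, smul_eq_mul]
    rw [hs z u]
    ring
  rw [h2, hu] at h1
  have h3 : 2 * (-(N z z + 1) / (2 * N u z)) * N u z = -(N z z + 1) := by
    field_simp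
  rw [h3] at h1
  linarith

/-- The flat directions on which `N` vanishes. -/
def flatSub (N : X →L[ℝ] X →L[ℝ] ℝ) (hs : ∀ u v, N u v = N v u) (hN : ∀ u, 0 ≤ N u u) (x : X) (hx : ‖x‖ ≤ 1) :
    Submodule ℝ X where
  carrier := {u | Flat x u ∧ N u u = 0}
  zero_mem' := ⟨flat_zero hx, by simp⟩
  add_mem' := by
    rintro u w ⟨hu, hu0⟩ ⟨hw, hw0⟩
    refine ⟨flat_add hu hw, ?_⟩
    have h1 := pos_zero N hs hN hu0
    have h2 := pos_zero N hs hN hw0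
    simp only [map_add, _root_.add_apply, h1, h2, add_zero]
  smul_mem' := by
    rintro c u ⟨hu, hu0⟩
    refine ⟨flat_smul c hu, ?_⟩
    simp only [map_smul, _root_.smul_apply, smul_eq_mul, hu0, mul_zero]

/-- The second order inequality. -/
def SecOrd (e : ℝ) (S : X →L[ℝ] Eu d) (N : X →L[ℝ] X →L[ℝ] ℝ) (x : X) : Prop :=
  ∀ (n : ℕ) (w : Fin n → ℝ) (y : Fin n → X) (M : ℝ), (∀ i, 0 ≤ w i) → ∑ i, w i = 1 →
    (∀ i, ‖y i‖ ≤ 1) → (∀ g : X →L[ℝ] ℝ, ‖g‖ ≤ 1 → ∑ i, w i * g (y i - x) ^ 2 ≤ M) →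
    ∑ i, w i * (‖S (y i)‖ ^ 2 - N (y i) (y i)) ≤ ‖S x‖ ^ 2 - N x x + e * M

theorem SecOrd.one {e : ℝ} {S : X →L[ℝ] Eu d} {N : X →L[ℝ] X →L[ℝ] ℝ} {x : X} (h : SecOrd e S N x)
    {y : X} (hy : ‖y‖ ≤ 1) : ‖S y‖ ^ 2 - N y y ≤ ‖S x‖ ^ 2 - N x x + e * ‖y - x‖ ^ 2 := by
  have h1 := h 1 (fun _ => 1) (fun _ => y) (‖y - x‖ ^ 2) (fun _ => zero_le_one) (by simp) (fun _ => hy)
    (fun g hg => by
      simp only [univ_unique, Finset.sum_const, Finset.card_singleton, one_smul, one_mul]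
      have h2 := g.le_opNorm (y - x)
      rw [Real.norm_eq_abs] at h2
      have h3 : ‖g‖ * ‖y - x‖ ≤ 1 * ‖y - x‖ := mul_le_mul_of_nonneg_right hg (norm_nonneg _)
      rw [← sq_abs]
      exact pow_le_pow_left₀ (abs_nonneg _) (by linarith) 2)
  simpa using h1

/-- The inequality on a ray. -/
theorem SecOrd.ray {e : ℝ} (he : 0 ≤ e) {S : X →L[ℝ] Eu d} {N : X →L[ℝ] X →L[ℝ] ℝ} {x : X} (hx : ‖x‖ ≤ 1)
    (h : SecOrd e S N x) {u : X} {δ t : ℝ} (hδ : 0 ≤ δ) (hu : ‖x + t • u‖ ≤ 1 + δ * t ^ 2) :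
    ‖S (x + t • u)‖ ^ 2 - N (x + t • u) (x + t • u) ≤
      (1 + δ * t ^ 2) ^ 2 * (‖S x‖ ^ 2 - N x x + e * (|t| * ‖u‖ + δ * t ^ 2) ^ 2) := by
  obtain ⟨a, ha⟩ : ∃ a : ℝ, a = 1 + δ * t ^ 2 := ⟨_, rfl⟩
  have ha1 : 1 ≤ a := by rw [ha]; have := mul_nonneg hδ (sq_nonneg t); linarith
  have ha0 : 0 < a := by linarith
  obtain ⟨y, hy⟩ : ∃ y : X, y = a⁻¹ • (x + t • u) := ⟨_, rfl⟩
  have hxy : x + t • u = a • y := by rw [hy, smul_smul, mul_inv_cancel₀ ha0.ne', one_smul]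
  have hyn : ‖y‖ ≤ 1 := by
    rw [hy, norm_smul, norm_inv, Real.norm_of_nonneg ha0.le, inv_mul_le_iff₀ ha0, mul_one, ha]
    exact hu
  have h1 := h.one hyn
  have h2 : ‖y - x‖ ≤ |t| * ‖u‖ + δ * t ^ 2 := by
    have e1 : a • (y - x) = t • u - (δ * t ^ 2) • x := by
      rw [smul_sub, ← hxy, ha]
      module
    have e2 : a * ‖y - x‖ ≤ |t| * ‖u‖ + δ * t ^ 2 := by
      have e3 : a * ‖y - x‖ = ‖a • (y - x)‖ := by rw [norm_smul, Real.norm_of_nonneg ha0.le]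
      rw [e3, e1]
      refine (norm_sub_le _ _).trans ?_
      rw [norm_smul, norm_smul, Real.norm_eq_abs, Real.norm_of_nonneg (mul_nonneg hδ (sq_nonneg t))]
      have e4 : δ * t ^ 2 * ‖x‖ ≤ δ * t ^ 2 * 1 := mul_le_mul_of_nonneg_left hx (mul_nonneg hδ (sq_nonneg t))
      linarith
    nlinarith [norm_nonneg (y - x)]
  have h3 : ‖y - x‖ ^ 2 ≤ (|t| * ‖u‖ + δ * t ^ 2) ^ 2 := pow_le_pow_left₀ (norm_nonneg _) h2 2
  have h4 : ‖S (a • y)‖ ^ 2 - N (a • y) (a • y) = a ^ 2 * (‖S y‖ ^ 2 - N y y) := by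
    simp only [map_smul, _root_.smul_apply, smul_eq_mul, norm_smul, mul_pow, Real.norm_eq_abs, sq_abs]
    ring
  rw [hxy, h4, ← ha]
  refine mul_le_mul_of_nonneg_left (h1.trans ?_) (sq_nonneg a)
  have := mul_le_mul_of_nonneg_left h3 he
  linarith

/-- Flat directions: first and second order conditions. -/
theorem SecOrd.flat {e : ℝ} (he : 0 ≤ e) {S : X →L[ℝ] Eu d} {N : X →L[ℝ] X →L[ℝ] ℝ}
    (hs : ∀ u v, N u v = N v u) (hN : ∀ u, 0 ≤ N u u) {x : X} (hx : ‖x‖ ≤ 1)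
    (h : SecOrd e S N x) {u : X} (hu : Flat x u) (hu0 : N u u = 0) :
    ⟪S x, S u⟫ = 0 ∧ ‖S u‖ ^ 2 ≤ e * ‖u‖ ^ 2 := by
  have hNu := pos_zero N hs hN hu0
  obtain ⟨Q, hQ⟩ : ∃ Q : ℝ, Q = ‖S x‖ ^ 2 - N x x := ⟨_, rfl⟩
  have hq : ∀ t : ℝ, ‖S (x + t • u)‖ ^ 2 - N (x + t • u) (x + t • u) =
      Q + 2 * t * ⟪S x, S u⟫ + t ^ 2 * ‖S u‖ ^ 2 := by
    intro t
    have e1 : N (x + t • u) (x + t • u) = N x x := by
      simp only [map_add, map_smul, _root_.add_apply, _root_.smul_apply, smul_eq_mul]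
      rw [hs x u, hNu, hNu]
      ring
    rw [e1, hQ, map_add, map_smul, norm_add_sq_real, real_inner_smul_right, norm_smul, mul_pow, Real.norm_eq_abs,
      sq_abs]
    ring
  have hray : ∀ δ t : ℝ, 0 ≤ δ → ‖x + t • u‖ ≤ 1 + δ * t ^ 2 →
      Q + 2 * t * ⟪S x, S u⟫ + t ^ 2 * ‖S u‖ ^ 2 ≤
        (1 + δ * t ^ 2) ^ 2 * (Q + e * (|t| * ‖u‖ + δ * t ^ 2) ^ 2) := by
    intro δ t hδ ht
    have h1 := h.ray he hx hδ ht
    rw [hq, ← hQ] at h1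
    exact h1
  -- `(1 + δ t²)² ≤ ...`
  have hexp : ∀ δ t : ℝ, 0 ≤ δ → δ ≤ 1 → |t| ≤ 1 → 
      (1 + δ * t ^ 2) ^ 2 * (Q + e * (|t| * ‖u‖ + δ * t ^ 2) ^ 2) ≤
        Q + t ^ 2 * ((2 * δ + δ ^ 2) * |Q| + (1 + δ) ^ 2 * (e * (‖u‖ + δ) ^ 2)) := by
    intro δ t hδ hδ1 ht
    have ht2 : t ^ 2 ≤ 1 := by
      rw [← sq_abs]
      exact pow_le_one₀ (abs_nonneg _) ht
    have ht0 := sq_nonneg t
    have e1 : ((1 + δ * t ^ 2) ^ 2 - 1) * Q ≤ t ^ 2 * ((2 * δ + δ ^ 2) * |Q|) := by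
      have f1 : (1 + δ * t ^ 2) ^ 2 - 1 = t ^ 2 * (2 * δ + δ ^ 2 * t ^ 2) := by ring
      have f2 : 2 * δ + δ ^ 2 * t ^ 2 ≤ 2 * δ + δ ^ 2 := by nlinarith [sq_nonneg δ]
      have f3 : 0 ≤ 2 * δ + δ ^ 2 * t ^ 2 := by positivity
      rw [f1, mul_assoc]
      refine mul_le_mul_of_nonneg_left ?_ ht0
      calc (2 * δ + δ ^ 2 * t ^ 2) * Q ≤ (2 * δ + δ ^ 2 * t ^ 2) * |Q| :=
            mul_le_mul_of_nonneg_left (le_abs_self Q) f3
        _ ≤ (2 * δ + δ ^ 2) * |Q| := mul_le_mul_of_nonneg_right f2 (abs_nonneg Q)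
    have e2 : (1 + δ * t ^ 2) ^ 2 * (e * (|t| * ‖u‖ + δ * t ^ 2) ^ 2) ≤
        t ^ 2 * ((1 + δ) ^ 2 * (e * (‖u‖ + δ) ^ 2)) := by
      have f1 : |t| * ‖u‖ + δ * t ^ 2 ≤ |t| * (‖u‖ + δ) := by
        rw [← sq_abs t]
        have g1 : |t| ^ 2 ≤ |t| * 1 := by
          rw [sq]
          exact mul_le_mul_of_nonneg_left ht (abs_nonneg _)
        nlinarith [mul_le_mul_of_nonneg_left g1 hδ]
      have f2 : (|t| * ‖u‖ + δ * t ^ 2) ^ 2 ≤ t ^ 2 * (‖u‖ + δ) ^ 2 := by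
        have g1 := pow_le_pow_left₀ (by positivity) f1 2
        rw [mul_pow, sq_abs] at g1
        exact g1
      have f3 : (1 + δ * t ^ 2) ^ 2 ≤ (1 + δ) ^ 2 := by
        refine pow_le_pow_left₀ (by positivity) ?_ 2
        nlinarith
      calc (1 + δ * t ^ 2) ^ 2 * (e * (|t| * ‖u‖ + δ * t ^ 2) ^ 2)
          ≤ (1 + δ) ^ 2 * (e * (t ^ 2 * (‖u‖ + δ) ^ 2)) :=
            mul_le_mul f3 (mul_le_mul_of_nonneg_left f2 he) (by positivity) (by positivity)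
        _ = t ^ 2 * ((1 + δ) ^ 2 * (e * (‖u‖ + δ) ^ 2)) := by ring
    nlinarith
  have hin : ⟪S x, S u⟫ = 0 := by
    obtain ⟨r, hr, h1⟩ := hu 1 one_pos
    have h2 := lin_zero (2 * ⟪S x, S u⟫) ((2 * 1 + 1 ^ 2) * |Q| + (1 + 1) ^ 2 * (e * (‖u‖ + 1) ^ 2)) (min r 1)
      (by positivity) (fun t ht => by
        have e1 := hray 1 t zero_le_one (h1 t (ht.trans_le (min_le_left _ _)))
        have e2 := hexp 1 t zero_le_one le_rfl (ht.le.trans (min_le_right _ _))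
        have e3 : 0 ≤ t ^ 2 * ‖S u‖ ^ 2 := by positivity
        linarith)
    linarith
  refine ⟨hin, ?_⟩
  -- second order
  have key : ∀ δ : ℝ, 0 < δ → δ ≤ 1 → ‖S u‖ ^ 2 ≤ (2 * δ + δ ^ 2) * |Q| + (1 + δ) ^ 2 * (e * (‖u‖ + δ) ^ 2) := by
    intro δ hδ hδ1
    obtain ⟨r, hr, h1⟩ := hu δ hδ
    obtain ⟨t, ht0, htr, ht1⟩ : ∃ t : ℝ, 0 < t ∧ t < r ∧ t ≤ 1 :=
      ⟨min (r / 2) 1, by positivity, lt_of_le_of_lt (min_le_left _ _) (by linarith), min_le_right _ _⟩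
    have e1 := hray δ t hδ.le (h1 t (by rw [abs_of_pos ht0]; exact htr))
    have e2 := hexp δ t hδ.le hδ1 (by rw [abs_of_pos ht0]; exact ht1)
    rw [hin] at e1
    have e3 : t ^ 2 * ‖S u‖ ^ 2 ≤ t ^ 2 * ((2 * δ + δ ^ 2) * |Q| + (1 + δ) ^ 2 * (e * (‖u‖ + δ) ^ 2)) := by
      linarith
    exact le_of_mul_le_mul_left e3 (by positivity)
  have hcont : Filter.Tendsto (fun δ : ℝ => (2 * δ + δ ^ 2) * |Q| + (1 + δ) ^ 2 * (e * (‖u‖ + δ) ^ 2))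
      (nhdsWithin 0 (Set.Ioi 0)) (nhds ((2 * 0 + 0 ^ 2) * |Q| + (1 + 0) ^ 2 * (e * (‖u‖ + 0) ^ 2))) := by
    refine Filter.Tendsto.mono_left ?_ nhdsWithin_le_nhds
    exact Continuous.tendsto (by fun_prop) 0
  have hlim := ge_of_tendsto hcont (b := ‖S u‖ ^ 2) (by
    filter_upwards [Ioc_mem_nhdsGT (one_pos : (0 : ℝ) < 1)] with δ hδ
    exact key δ hδ.1 hδ.2)
  simpa using hlim

end Pool.Agent.Lib.MP_b6bd4b_an.SQ
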