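import Pool.Agent.Lib.MP_b6bd4b_an.SQ.Flt

/-!
Module Snd: the second symmetric difference of the squared norm, and a sandwich theorem.
-/

namespace Pool.Agent.Lib.MP_b6bd4b_an.SQ

open Finset SB RealInnerProductSpace

variable {X : Type*} [NormedAddCommGroup X] [NormedSpace ℝ X] {d : ℕ}

/-- `‖x + t u‖² + ‖x - t u‖² ≤ 2 + 2 K t²` for all small `t`. -/
def SndLE (x u : X) (K : ℝ) : Prop :=
  ∃ r : ℝ, 0 < r ∧ ∀ t : ℝ, |t| < r → ‖x + t • u‖ ^ 2 + ‖x - t • u‖ ^ 2 ≤ 2 + 2 * K * t ^ 2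

theorem SndLE.smul {x u : X} {K : ℝ} (h : SndLE x u K) (c : ℝ) : SndLE x (c • u) (c ^ 2 * K) := by
  obtain ⟨r, hr, h⟩ := h
  refine ⟨r / (|c| + 1), by positivity, fun t ht => ?_⟩
  have e0 : |t * c| < r := by
    rw [lt_div_iff₀ (by positivity)] at ht
    rw [abs_mul]
    nlinarith [abs_nonneg t]
  have e1 := h (t * c) e0
  rw [smul_smul]
  refine e1.trans (le_of_eq ?_)
  ring

theorem SndLE.mono {x u : X} {K L : ℝ} (h : SndLE x u K) (hKL : K ≤ L) : SndLE x u L := by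
  obtain ⟨r, hr, h⟩ := h
  refine ⟨r, hr, fun t ht => (h t ht).trans ?_⟩
  have := mul_le_mul_of_nonneg_right hKL (sq_nonneg t)
  linarith

theorem SndLE.zero {x : X} (hx : ‖x‖ ≤ 1) : SndLE x 0 0 := by
  refine ⟨1, one_pos, fun t _ => ?_⟩
  rw [smul_zero, add_zero, sub_zero]
  have := pow_le_one₀ (norm_nonneg x) hx (n := 2)
  linarith

theorem sq_conv {a b c l m : ℝ} (hc : 0 ≤ c) (hl : 0 ≤ l) (hm : 0 ≤ m) (hlm : l + m = 1)
    (h : c ≤ l * a + m * b) : c ^ 2 ≤ l * a ^ 2 + m * b ^ 2 := by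
  have h1 : c ^ 2 ≤ (l * a + m * b) ^ 2 := pow_le_pow_left₀ hc h 2
  have h2 : m = 1 - l := by linarith
  subst h2
  have h3 : l * a ^ 2 + (1 - l) * b ^ 2 - (l * a + (1 - l) * b) ^ 2 = l * (1 - l) * (a - b) ^ 2 := by ring
  have h4 : 0 ≤ l * (1 - l) * (a - b) ^ 2 := mul_nonneg (mul_nonneg hl hm) (sq_nonneg _)
  linarith

theorem SndLE.add {x u w : X} {k l : ℝ} (hk : 0 < k) (hl : 0 < l) (h1 : SndLE x u (k ^ 2))
    (h2 : SndLE x w (l ^ 2)) : SndLE x (u + w) ((k + l) ^ 2) := by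
  obtain ⟨r1, hr1, h1⟩ := h1
  obtain ⟨r2, hr2, h2⟩ := h2
  obtain ⟨p, hp⟩ : ∃ p : ℝ, p = k / (k + l) := ⟨_, rfl⟩
  obtain ⟨q, hq⟩ : ∃ q : ℝ, q = l / (k + l) := ⟨_, rfl⟩
  have hkl : 0 < k + l := by positivity
  have hp0 : 0 < p := by rw [hp]; positivity
  have hq0 : 0 < q := by rw [hq]; positivity
  have hpq : p + q = 1 := by rw [hp, hq, ← add_div, div_self hkl.ne']
  refine ⟨min (r1 * p) (r2 * q), by positivity, fun t ht => ?_⟩
  have e1 := h1 (t / p) (by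
    rw [abs_div, abs_of_pos hp0, div_lt_iff₀ hp0]
    exact ht.trans_le (min_le_left _ _))
  have e2 := h2 (t / q) (by
    rw [abs_div, abs_of_pos hq0, div_lt_iff₀ hq0]
    exact ht.trans_le (min_le_right _ _))
  have hpt : p * (t / p) = t := by field_simp
  have hqt : q * (t / q) = t := by field_simp
  have f1 : x + t • (u + w) = p • (x + (t / p) • u) + q • (x + (t / q) • w) := by
    rw [smul_add p, smul_add q, smul_smul, smul_smul, hpt, hqt]
    have : x = p • x + q • x := by rw [← add_smul, hpq, one_smul]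
    nth_rewrite 1 [this]
    rw [smul_add]
    abel
  have f2 : x - t • (u + w) = p • (x - (t / p) • u) + q • (x - (t / q) • w) := by
    rw [smul_sub p, smul_sub q, smul_smul, smul_smul, hpt, hqt]
    have : x = p • x + q • x := by rw [← add_smul, hpq, one_smul]
    nth_rewrite 1 [this]
    rw [smul_add]
    abel
  have g1 : ‖x + t • (u + w)‖ ^ 2 ≤ p * ‖x + (t / p) • u‖ ^ 2 + q * ‖x + (t / q) • w‖ ^ 2 := by
    refine sq_conv (norm_nonneg _) hp0.le hq0.le hpq ?_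
    rw [f1]
    refine (norm_add_le _ _).trans ?_
    rw [norm_smul, norm_smul, Real.norm_of_nonneg hp0.le, Real.norm_of_nonneg hq0.le]
  have g2 : ‖x - t • (u + w)‖ ^ 2 ≤ p * ‖x - (t / p) • u‖ ^ 2 + q * ‖x - (t / q) • w‖ ^ 2 := by
    refine sq_conv (norm_nonneg _) hp0.le hq0.le hpq ?_
    rw [f2]
    refine (norm_add_le _ _).trans ?_
    rw [norm_smul, norm_smul, Real.norm_of_nonneg hp0.le, Real.norm_of_nonneg hq0.le]
  have g3 := mul_le_mul_of_nonneg_left e1 hp0.le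
  have g4 := mul_le_mul_of_nonneg_left e2 hq0.le
  have g5 : p * (2 + 2 * k ^ 2 * (t / p) ^ 2) + q * (2 + 2 * l ^ 2 * (t / q) ^ 2) = 2 + 2 * (k + l) ^ 2 * t ^ 2 := by
    have k1 : p * (2 + 2 * k ^ 2 * (t / p) ^ 2) = 2 * p + 2 * (k ^ 2 / p) * t ^ 2 := by field_simp
    have k2 : q * (2 + 2 * l ^ 2 * (t / q) ^ 2) = 2 * q + 2 * (l ^ 2 / q) * t ^ 2 := by field_simp
    have k3 : k ^ 2 / p = k * (k + l) := by rw [hp]; field_simp
    have k4 : l ^ 2 / q = l * (k + l) := by rw [hq]; field_simp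
    rw [k1, k2, k3, k4]
    linear_combination 2 * hpq
  linarith

/-- All admissible square roots. -/
def sset (x u : X) : Set ℝ := {k | 0 < k ∧ SndLE x u (k ^ 2)}

/-- The seminorm. -/
noncomputable def sn (x u : X) : ℝ := sInf (sset x u)

theorem sset_bdd (x u : X) : BddBelow (sset x u) := ⟨0, fun _ hk => hk.1.le⟩

theorem sn_le {x u : X} {k : ℝ} (hk : 0 < k) (h : SndLE x u (k ^ 2)) : sn x u ≤ k :=
  csInf_le (sset_bdd x u) ⟨hk, h⟩

theorem sset_smul {x u : X} {c k : ℝ} (hc : 0 < c) (h : k ∈ sset x u) : c * k ∈ sset x (c • u) := by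
  refine ⟨mul_pos hc h.1, ?_⟩
  rw [mul_pow]
  exact h.2.smul c

theorem sn_smul_le {x u : X} {c : ℝ} (hc : 0 < c) (hu : (sset x u).Nonempty) : sn x (c • u) ≤ c * sn x u := by
  rw [← div_le_iff₀' hc]
  refine le_csInf hu fun k hk => ?_
  rw [div_le_iff₀' hc]
  exact csInf_le (sset_bdd _ _) (sset_smul hc hk)

theorem sn_smul {x u : X} {c : ℝ} (hc : 0 < c) (hu : (sset x u).Nonempty) : sn x (c • u) = c * sn x u := by
  refine le_antisymm (sn_smul_le hc hu) ?_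
  have hne : (sset x (c • u)).Nonempty := ⟨_, sset_smul hc hu.some_mem⟩
  have h1 := sn_smul_le (inv_pos.2 hc) hne
  rw [smul_smul, inv_mul_cancel₀ hc.ne', one_smul] at h1
  rwa [le_inv_mul_iff₀ hc] at h1

theorem sn_add {x u w : X} (hu : (sset x u).Nonempty) (hw : (sset x w).Nonempty) :
    sn x (u + w) ≤ sn x u + sn x w := by
  have h1 : ∀ k ∈ sset x u, sn x (u + w) - k ≤ sn x w := fun k hk => by
    refine le_csInf hw fun l hl => ?_
    have := sn_le (add_pos hk.1 hl.1) (SndLE.add hk.1 hl.1 hk.2 hl.2)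
    linarith
  have h2 : sn x (u + w) - sn x w ≤ sn x u := le_csInf hu fun k hk => by
    have := h1 k hk
    linarith
  linarith

/-- The directions in which the second difference is finite. -/
def sndSub (x : X) (hx : ‖x‖ ≤ 1) : Submodule ℝ X where
  carrier := {u | (sset x u).Nonempty}
  zero_mem' := ⟨1, one_pos, (SndLE.zero hx).mono (by norm_num)⟩
  add_mem' := by
    rintro u w ⟨k, hk0, hk⟩ ⟨l, hl0, hl⟩
    exact ⟨k + l, add_pos hk0 hl0, SndLE.add hk0 hl0 hk hl⟩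
  smul_mem' := by
    rintro c u ⟨k, hk0, hk⟩
    refine ⟨(|c| + 1) * k, by positivity, (hk.smul c).mono ?_⟩
    have h1 : c ^ 2 ≤ (|c| + 1) ^ 2 := by
      rw [← sq_abs]
      exact pow_le_pow_left₀ (abs_nonneg c) (by linarith) 2
    rw [mul_pow]
    exact mul_le_mul_of_nonneg_right h1 (sq_nonneg k)

/-- Sandwich theorem. -/
theorem sandwich (F : Submodule ℝ X) (φ : X →L[ℝ] ℝ) (P : F → ℝ) (hP1 : ∀ c : ℝ, 0 < c → ∀ u, P (c • u) = c * P u)
    (hP2 : ∀ u w, P (u + w) ≤ P u + P w) (s : ℝ) (hs : 0 ≤ s) (h : ∀ u : F, φ u ≤ P u + s * ‖u‖) :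
    ∃ e : X →L[ℝ] ℝ, ‖e‖ ≤ s ∧ ∀ u : F, φ u - e u ≤ P u := by
  have hP0 : P 0 = 0 := by
    have h1 := hP1 2 two_pos 0
    rw [smul_zero] at h1
    linarith
  obtain ⟨D, hD⟩ : ∃ D : Submodule ℝ (F × F), D = LinearMap.ker (LinearMap.fst ℝ F F - LinearMap.snd ℝ F F) :=
    ⟨_, rfl⟩
  have hDm : ∀ z, z ∈ D → z.1 = z.2 := by
    intro z hz
    rw [hD] at hz
    exact sub_eq_zero.1 hz
  have hDm' : ∀ u : F, (u, u) ∈ D := by
    intro u
    rw [hD]
    exact sub_self _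
  obtain ⟨g, hg1, hg2⟩ := exists_extension_of_le_sublinear
    (⟨D, ((φ.toLinearMap.comp F.subtype).comp (LinearMap.fst ℝ F F)).domRestrict D⟩ : (F × F) →ₗ.[ℝ] ℝ)
    (fun z => P z.1 + s * ‖z.2‖)
    (fun c hc z => by
      change P (c • z.1) + s * ‖c • z.2‖ = c * (P z.1 + s * ‖z.2‖)
      rw [hP1 c hc, norm_smul, Real.norm_of_nonneg hc.le]
      ring)
    (fun z z' => by
      change P (z.1 + z'.1) + s * ‖z.2 + z'.2‖ ≤ (P z.1 + s * ‖z.2‖) + (P z'.1 + s * ‖z'.2‖)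
      have e1 := hP2 z.1 z'.1
      have e2 := mul_le_mul_of_nonneg_left (norm_add_le z.2 z'.2) hs
      linarith)
    (fun z => by
      change φ ((z : F × F).1 : X) ≤ P (z : F × F).1 + s * ‖(z : F × F).2‖
      rw [← hDm z z.2]
      exact h _)
  have hgD : ∀ u : F, g (u, u) = φ u := fun u => hg1 ⟨(u, u), hDm' u⟩
  obtain ⟨e, he⟩ : ∃ e : F →ₗ[ℝ] ℝ, e = g.comp (LinearMap.inr ℝ F F) := ⟨_, rfl⟩
  have heu : ∀ u : F, e u = g (0, u) := fun u => by rw [he]; rfl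
  have he1 : ∀ u : F, e u ≤ s * ‖u‖ := by
    intro u
    have h1 := hg2 (0, u)
    simp only [hP0, zero_add] at h1
    rw [heu]
    exact h1
  have he2 : ∀ u : F, ‖e u‖ ≤ s * ‖u‖ := by
    intro u
    rw [Real.norm_eq_abs, abs_le]
    refine ⟨?_, he1 u⟩
    have h1 := he1 (-u)
    rw [map_neg, norm_neg] at h1
    linarith
  obtain ⟨e', h1, h2⟩ := exists_extension_norm_eq F (e.mkContinuous s he2)
  refine ⟨e', ?_, fun u => ?_⟩
  · rw [h2]
    exact LinearMap.mkContinuous_norm_le _ hs he2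
  · have e1 : e' u = e u := h1 u
    have e2 := hg2 (u, 0)
    simp only [norm_zero, mul_zero, add_zero] at e2
    have e3 : g (u, u) = g (u, 0) + g (0, u) := by rw [← map_add]; simp
    rw [e1, ← hgD, e3, heu]
    linarith

end Pool.Agent.Lib.MP_b6bd4b_an.SQ
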