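import Pool.Agent.Lib.MP_b6bd4b_an.SQ.Def

/-!
Module Spr: the images of the values of a representation under an operator of rank `d` are close to the image of the mean.
-/

namespace Pool.Agent.Lib.MP_b6bd4b_an.SQ

open Finset SB

variable {X : Type*} [NormedAddCommGroup X] [NormedSpace ℝ X] {d : ℕ}

/-- The variance of a functional of norm at most one. -/
theorem var_le {ι : Type} [Fintype ι] (C : Set X) (x : X)
    (w : ι → ℝ) (ξ δ : ι → X) (s : ℝ) (h : IsRep C x w ξ δ s) (g : X →L[ℝ] ℝ) (hg : ‖g‖ ≤ 1) :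
    ∑ i, w i * g (ξ i - x) ^ 2 ≤ s := by
  set φ : ι → ℝ := fun i => g (ξ i - x) with hφ
  have h1 : ∑ i, w i * φ i = 0 := by
    have e1 : ∀ i, w i * φ i = w i * g (ξ i) - w i * g x := fun i => by
      simp only [hφ, map_sub]; ring
    rw [Finset.sum_congr rfl fun i _ => e1 i, Finset.sum_sub_distrib, ← Finset.sum_mul, h.w1, one_mul]
    have e2 : ∑ i, w i * g (ξ i) = g x := by
      rw [← h.mean, map_sum]
      exact Finset.sum_congr rfl fun i _ => by rw [map_smul, smul_eq_mul]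
    rw [e2, sub_self]
  have h2 := h.wv φ h1
  set V := ∑ i, w i * φ i ^ 2 with hV
  have hV0 : 0 ≤ V := Finset.sum_nonneg fun i _ => mul_nonneg (h.w0 i) (sq_nonneg _)
  have h3 : g (∑ i, (w i * φ i) • ξ i) = V := by
    rw [map_sum, hV]
    have e1 : ∀ i, g ((w i * φ i) • ξ i) = w i * φ i ^ 2 + (w i * φ i) * g x := fun i => by
      rw [map_smul, smul_eq_mul]
      have : g (ξ i) = φ i + g x := by simp only [hφ, map_sub]; ring
      rw [this]; ring
    rw [Finset.sum_congr rfl fun i _ => e1 i, Finset.sum_add_distrib, ← Finset.sum_mul, h1, zero_mul,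
      add_zero]
  have h4 : V ≤ ‖∑ i, (w i * φ i) • ξ i‖ := by
    rw [← h3]
    have := g.le_opNorm (∑ i, (w i * φ i) • ξ i)
    rw [Real.norm_eq_abs] at this
    exact ((le_abs_self _).trans this).trans (mul_le_of_le_one_left (norm_nonneg _) hg)
  have h5 : V ^ 2 ≤ s * V := (pow_le_pow_left₀ hV0 h4 2).trans h2
  rcases hV0.eq_or_lt with h0 | h0
  · rw [← h0]
    exact h.s0
  · have h6 : V * V ≤ s * V := by nlinarith
    exact le_of_mul_le_mul_right h6 h0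

theorem spread {ι : Type} [Fintype ι] (T : X →L[ℝ] Eu d) (hT : ‖T‖ ≤ 1) (C : Set X)
    (hC1 : ∀ y ∈ C, ‖y‖ ≤ 1) (x : X) (hx : x ∈ C)
    (w : ι → ℝ) (ξ δ : ι → X) (s : ℝ) (h : IsRep C x w ξ δ s) :
    ∑ i, w i * ‖T (ξ i + δ i) - T x‖ ^ 2 ≤ 4 * (d * s) + 4 * ∑ i, w i * ‖δ i‖ := by
  have hT1 : ∀ y : X, ‖T y‖ ≤ ‖y‖ := fun y =>
    (T.le_opNorm y).trans (mul_le_of_le_one_left (norm_nonneg _) hT)
  have h1 : ∑ i, w i * ‖T (ξ i - x)‖ ^ 2 ≤ d * s := by
    have e1 : ∀ i, w i * ‖T (ξ i - x)‖ ^ 2 = ∑ k : Fin d, w i * (T (ξ i - x) k) ^ 2 := by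
      intro i
      rw [EuclideanSpace.norm_sq_eq, Finset.mul_sum]
      refine Finset.sum_congr rfl fun k _ => ?_
      rw [Real.norm_eq_abs, sq_abs]
    simp only [e1]
    rw [Finset.sum_comm]
    have e2 : ∀ k : Fin d, ∑ i, w i * (T (ξ i - x) k) ^ 2 ≤ s := by
      intro k
      have e3 := var_le C x w ξ δ s h ((EuclideanSpace.proj k : Eu d →L[ℝ] ℝ).comp T) (by
        refine ContinuousLinearMap.opNorm_le_bound _ zero_le_one fun v => ?_
        have e4 : ‖T v k‖ ≤ ‖T v‖ := PiLp.norm_apply_le _ _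
        rw [one_mul]
        exact e4.trans (hT1 v))
      exact e3
    calc ∑ k : Fin d, ∑ i, w i * (T (ξ i - x) k) ^ 2 ≤ ∑ _k : Fin d, s := Finset.sum_le_sum fun k _ => e2 k
      _ = d * s := by simp
  have h2 : ∀ i, ‖T (ξ i + δ i) - T x‖ ^ 2 ≤ 4 * ‖T (ξ i - x)‖ ^ 2 + 4 * ‖δ i‖ := by
    intro i
    set t := ‖T (ξ i + δ i) - T x‖ with ht
    have t0 : 0 ≤ t := norm_nonneg _
    have t2 : t ≤ 2 := by
      rw [ht, ← map_sub]
      refine (hT1 _).trans ((norm_sub_le _ _).trans ?_)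
      have := hC1 _ (h.mem i)
      have := hC1 x hx
      linarith
    have t3 : t ≤ ‖T (ξ i - x)‖ + ‖δ i‖ := by
      have e1 : T (ξ i + δ i) - T x = T (ξ i - x) + T (δ i) := by
        rw [← map_sub, ← map_add]; congr 1; abel
      rw [ht, e1]
      exact (norm_add_le _ _).trans (add_le_add le_rfl (hT1 _))
    have u0 : 0 ≤ ‖T (ξ i - x)‖ := norm_nonneg _
    have v0 : 0 ≤ ‖δ i‖ := norm_nonneg _
    rcases le_or_gt t (2 * ‖T (ξ i - x)‖) with h3 | h3
    · nlinarith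
    · have h4 : t ≤ 2 * ‖δ i‖ := by linarith
      nlinarith
  calc ∑ i, w i * ‖T (ξ i + δ i) - T x‖ ^ 2 ≤ ∑ i, (4 * (w i * ‖T (ξ i - x)‖ ^ 2) + 4 * (w i * ‖δ i‖)) := by
        refine Finset.sum_le_sum fun i _ => ?_
        have := mul_le_mul_of_nonneg_left (h2 i) (h.w0 i)
        linarith
    _ = 4 * ∑ i, w i * ‖T (ξ i - x)‖ ^ 2 + 4 * ∑ i, w i * ‖δ i‖ := by
        rw [Finset.sum_add_distrib, Finset.mul_sum, Finset.mul_sum]
    _ ≤ 4 * (d * s) + 4 * ∑ i, w i * ‖δ i‖ := by linarith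

end Pool.Agent.Lib.MP_b6bd4b_an.SQ
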