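import Pool.Agent.Lib.MP_b6bd4b_an.SQ.Col
import Pool.Agent.Lib.MP_b6bd4b_an.SQ.Spr
import Pool.Agent.Lib.MP_b6bd4b_an.SB.Dsp
import Pool.Agent.Lib.MP_b6bd4b_an.SB.Cel

/-!
Module Stp: one step of the iteration.
-/

namespace Pool.Agent.Lib.MP_b6bd4b_an.SQ

open Finset SB

variable {X : Type*} [NormedAddCommGroup X] [NormedSpace ℝ X] {d : ℕ}

theorem step (hd : 1 ≤ d) (T : X →L[ℝ] Eu d) (hT : ‖T‖ ≤ 1) (Φ : X → ℝ) (C : Set X) (K : ℝ)
    (hC1 : ∀ y ∈ C, ‖y‖ ≤ 1) (hC : ∀ y ∈ C, Φ y ≤ K) (hcc : ConcaveOn ℝ C (fun y => Φ y - ‖T y‖ ^ 2))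
    (hCc : Convex ℝ C) (a b : ℝ) (ha : 0 < a) (ha1 : a ≤ 1) (hb : 0 < b) (hb1 : b ≤ 1)
    (l om : ℝ) (hl : 1 / 2 ≤ l) (hom : 0 < om) (hl1 : l + om ≤ 1)
    (x : X) (hx : x ∈ C) (ρ : ℝ) (hρ0 : 0 < ρ) (hρ1 : ρ ≤ 1) (h : ev Φ C a b l x ≤ ρ) :
    ∃ p ∈ C, ev Φ C a b (l + om) p ≤ ρ / 4 ∧
      ‖p - x‖ ≤ (2 / a + 4 / b) * (2560 * d ^ 2 / (a * b)) ^ d * Real.sqrt ρ / om ^ (d + 1) := by
  have hd' : (1 : ℝ) ≤ d := by exact_mod_cast hd
  have hl0 : 0 ≤ l := by linarith
  have hlo0 : 0 ≤ l + om := by linarith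
  have hom1 : om ≤ 1 / 2 := by linarith
  have he0 := ev_nonneg Φ C K hC a b (l + om) ha.le hb.le hlo0 x hx
  have heρ : ev Φ C a b (l + om) x ≤ ρ :=
    (ev_anti Φ C K hC a b l (l + om) ha.le hb.le hl0 (by linarith) x hx).trans h
  by_cases hcase : ev Φ C a b (l + om) x ≤ ρ / 4
  · refine ⟨x, hx, hcase, ?_⟩
    rw [sub_self, norm_zero]
    positivity
  push Not at hcase
  set e : ℝ := ev Φ C a b (l + om) x with he
  have hepos : 0 < e := by linarith
  have he1 : e ≤ 1 := heρ.trans hρ1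
  have hab : 0 < a * b := mul_pos ha hb
  have hbo : 0 < a * b * om := mul_pos hab hom
  have hab1 : a * b ≤ 1 := by nlinarith
  have hbo1 : a * b * om ≤ 1 := by nlinarith
  obtain ⟨P0, hP0⟩ : ∃ P0 : ℝ, P0 = (a * b * om / (2560 * d ^ 2)) ^ d := ⟨_, rfl⟩
  have hP0pos : 0 < P0 := by rw [hP0]; positivity
  have hP01 : P0 ≤ 1 := by
    rw [hP0]
    refine pow_le_one₀ (by positivity) ?_
    rw [div_le_one (by positivity)]
    nlinarith
  obtain ⟨ι, _, w, ξ, δ, s, hrep, hgain⟩ := ev_near Φ C a b (l + om) x hx (e * P0 / 8) (by positivity)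
  rw [← he] at hgain
  have hgl := (le_ev Φ C K hC a b l ha.le hb.le hl0 x w ξ δ s hrep).trans h
  have hglo := le_ev Φ C K hC a b (l + om) ha.le hb.le hlo0 x w ξ δ s hrep
  rw [← he] at hglo
  obtain ⟨D, hD⟩ : ∃ D : ℝ, D = ∑ i, w i * ‖δ i‖ := ⟨_, rfl⟩
  obtain ⟨G, hG⟩ : ∃ G : ℝ, G = ∑ i, w i * Φ (ξ i + δ i) - Φ x := ⟨_, rfl⟩
  obtain ⟨g, hg⟩ : ∃ g : ℝ, g = gain Φ a b (l + om) x w ξ δ s := ⟨_, rfl⟩
  have hD0 : 0 ≤ D := by
    rw [hD]
    exact Finset.sum_nonneg fun i _ => mul_nonneg (hrep.w0 i) (norm_nonneg _)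
  have hs0 := hrep.s0
  have e1 : gain Φ a b l x w ξ δ s = G - l * (a * s + b * D) := by rw [hG, hD]; rfl
  have e2 : g = G - (l + om) * (a * s + b * D) := by rw [hg, hG, hD]; rfl
  rw [e1] at hgl
  rw [← hg] at hgain hglo
  have hη : e * P0 / 8 ≤ e / 8 := by
    have := mul_le_mul_of_nonneg_left hP01 hepos.le
    linarith
  have hpen : om * (a * s + b * D) ≤ 4 * e := by
    have : om * (a * s + b * D) = (G - l * (a * s + b * D)) - g := by rw [e2]; ring
    rw [this]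
    linarith
  have has0 : 0 ≤ a * s := mul_nonneg ha.le hs0
  have hbD0 : 0 ≤ b * D := mul_nonneg hb.le hD0
  have hs1 : om * (a * s) ≤ 4 * e := by
    have := mul_nonneg hom.le hbD0
    nlinarith
  have hD1 : om * (b * D) ≤ 4 * e := by
    have := mul_nonneg hom.le has0
    nlinarith
  -- spread
  have hQ : 4 * (d * s) + 4 * D ≤ 32 * d * e / (a * b * om) := by
    rw [le_div_iff₀ hbo]
    have h1 : 4 * (d * s) * (a * b * om) ≤ 16 * d * e := by
      have h2 : 4 * (d * s) * (a * b * om) = 4 * d * b * (om * (a * s)) := by ring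
      rw [h2]
      calc 4 * d * b * (om * (a * s)) ≤ 4 * d * b * (4 * e) :=
            mul_le_mul_of_nonneg_left hs1 (by positivity)
        _ = 16 * d * e * b := by ring
        _ ≤ 16 * d * e * 1 := mul_le_mul_of_nonneg_left hb1 (by positivity)
        _ = 16 * d * e := by ring
    have h3 : 4 * D * (a * b * om) ≤ 16 * d * e := by
      have h2 : 4 * D * (a * b * om) = 4 * a * (om * (b * D)) := by ring
      rw [h2]
      calc 4 * a * (om * (b * D)) ≤ 4 * a * (4 * e) := mul_le_mul_of_nonneg_left hD1 (by positivity)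
        _ = 16 * e * a := by ring
        _ ≤ 16 * e * d := mul_le_mul_of_nonneg_left (ha1.trans hd') (by positivity)
        _ = 16 * d * e := by ring
    linarith
  have hspr : ∑ i, w i * ‖T (ξ i + δ i) - T x‖ ^ 2 ≤ 32 * d * e / (a * b * om) := by
    refine le_trans ?_ hQ
    have := spread T hT C hC1 x hx w ξ δ s hrep
    rw [hD]
    exact this
  have hQpos : 0 < 32 * d * e / (a * b * om) := by positivity
  have hr2 : Real.sqrt (e / 8) ^ 2 = e / 8 := Real.sq_sqrt (by positivity)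
  have hrpos : 0 < Real.sqrt (e / 8) := Real.sqrt_pos.2 (by positivity)
  obtain ⟨E, hE, hEr⟩ := cell hd w hrep.w0 hrep.w1 (fun i => T (ξ i + δ i)) (T x)
    (32 * d * e / (a * b * om)) hQpos hspr (Real.sqrt (e / 8)) hrpos (by
      rw [hr2, le_div_iff₀ hbo]
      have h1 := mul_le_mul_of_nonneg_left hbo1 hepos.le
      have h2 := mul_le_mul_of_nonneg_right hd' hepos.le
      nlinarith)
  have hPeq : (Real.sqrt (e / 8) ^ 2 / (10 * d * (32 * d * e / (a * b * om)))) ^ d = P0 := by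
    rw [hP0, hr2]
    congr 1
    have hdne : (d : ℝ) ≠ 0 := by positivity
    field_simp
    norm_num
  rw [hPeq] at hE
  obtain ⟨P, hP⟩ : ∃ P : ℝ, P = ∑ i ∈ E, w i := ⟨_, rfl⟩
  rw [← hP] at hE
  have hPpos : 0 < P := lt_of_lt_of_le hP0pos hE
  obtain ⟨p, hpC, hp, hpr⟩ := part_mem C hCc x w ξ δ s hrep E P hP hPpos T (Real.sqrt (e / 8)) hEr
  refine ⟨p, hpC, ?_, ?_⟩
  · have hcol := collapse T Φ C K hC hcc a b (l + om) ha.le hb.le hlo0 x w ξ δ s hrep E P hP hPpos p hp hpC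
    rw [← he, ← hg] at hcol
    have h1 : ∑ i ∈ E, w i * ‖T (ξ i + δ i - p)‖ ^ 2 ≤ P * (e / 8) := by
      rw [hP, Finset.sum_mul]
      refine Finset.sum_le_sum fun i hi => mul_le_mul_of_nonneg_left ?_ (hrep.w0 i)
      rw [← hr2]
      exact pow_le_pow_left₀ (norm_nonneg _) (hpr i hi) 2
    have h2 : e * P0 / 8 ≤ P * (e / 8) := by
      have := mul_le_mul_of_nonneg_right hE hepos.le
      linarith
    have h3 : P * ev Φ C a b (l + om) p ≤ P * (e / 4) := by linarith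
    have h4 := le_of_mul_le_mul_left h3 hPpos
    linarith
  · have hdis := disp C x w ξ δ s hrep E P hP hPpos p hp
    rw [← hD] at hdis
    have hse : 0 < Real.sqrt e := Real.sqrt_pos.2 hepos
    have hse2 : Real.sqrt e ^ 2 = e := Real.sq_sqrt hepos.le
    have hse1 : e ≤ Real.sqrt e := by
      have : Real.sqrt e ≤ 1 := by rw [Real.sqrt_le_one]; exact he1
      nlinarith
    have hseρ : Real.sqrt e ≤ Real.sqrt ρ := Real.sqrt_le_sqrt heρ
    have haoP : 0 < a * om * P0 := by positivity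
    have haoP1 : a * om * P0 ≤ 1 := by
      have h1 : a * om ≤ 1 := by nlinarith
      calc a * om * P0 ≤ 1 * 1 := mul_le_mul h1 hP01 hP0pos.le zero_le_one
        _ = 1 := one_mul 1
    have hA : Real.sqrt (s / P) ≤ 2 * Real.sqrt e / (a * om * P0) := by
      refine Real.sqrt_le_iff.2 ⟨by positivity, ?_⟩
      rw [div_pow, mul_pow, hse2, div_le_div_iff₀ hPpos (by positivity)]
      have h1 : s * (a * om) ≤ 4 * e := by linarith
      have h2 : a * om * P0 ^ 2 ≤ P := by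
        have h3 : a * om * P0 ^ 2 = (a * om * P0) * P0 := by ring
        rw [h3]
        nlinarith
      calc s * (a * om * P0) ^ 2 = (s * (a * om)) * (a * om * P0 ^ 2) := by ring
        _ ≤ (4 * e) * P := mul_le_mul h1 h2 (by positivity) (by positivity)
        _ = 2 ^ 2 * e * P := by ring
    have hB : D / P ≤ 4 * Real.sqrt e / (b * om * P0) := by
      rw [div_le_div_iff₀ hPpos (by positivity)]
      calc D * (b * om * P0) = (om * (b * D)) * P0 := by ring
        _ ≤ (4 * Real.sqrt e) * P :=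
          mul_le_mul (by linarith) hE hP0pos.le (by positivity)
    have hfin : 2 * Real.sqrt e / (a * om * P0) + 4 * Real.sqrt e / (b * om * P0) =
        (2 / a + 4 / b) * (2560 * d ^ 2 / (a * b)) ^ d * Real.sqrt e / om ^ (d + 1) := by
      have h1 : 1 / (om * P0) = (2560 * d ^ 2 / (a * b)) ^ d / om ^ (d + 1) := by
        have h0 : P0 * (2560 * d ^ 2 / (a * b)) ^ d = om ^ d := by
          rw [hP0, ← mul_pow]
          congr 1
          have hdne : (d : ℝ) ≠ 0 := by positivity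
          field_simp
        rw [div_eq_div_iff (by positivity) (by positivity), pow_succ, ← h0]
        ring
      calc 2 * Real.sqrt e / (a * om * P0) + 4 * Real.sqrt e / (b * om * P0)
          = (2 / a + 4 / b) * Real.sqrt e * (1 / (om * P0)) := by field_simp
        _ = (2 / a + 4 / b) * (2560 * d ^ 2 / (a * b)) ^ d * Real.sqrt e / om ^ (d + 1) := by
            rw [h1]; ring
    calc ‖p - x‖ ≤ Real.sqrt (s / P) + D / P := hdis
      _ ≤ 2 * Real.sqrt e / (a * om * P0) + 4 * Real.sqrt e / (b * om * P0) := add_le_add hA hB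
      _ = (2 / a + 4 / b) * (2560 * d ^ 2 / (a * b)) ^ d * Real.sqrt e / om ^ (d + 1) := hfin
      _ ≤ (2 / a + 4 / b) * (2560 * d ^ 2 / (a * b)) ^ d * Real.sqrt ρ / om ^ (d + 1) := by
        refine div_le_div_of_nonneg_right ?_ (by positivity)
        exact mul_le_mul_of_nonneg_left hseρ (by positivity)

end Pool.Agent.Lib.MP_b6bd4b_an.SQ
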