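import Pool.Agent.Lib.MP_b6bd4b_an.SQ.Snd

/-!
Module Tan: first and second order conditions, tangential directions.
-/

namespace Pool.Agent.Lib.MP_b6bd4b_an.SQ

open Finset SB RealInnerProductSpace

variable {X : Type*} [NormedAddCommGroup X] [NormedSpace ℝ X] {d : ℕ}

/-- The inequality for all vectors. -/
theorem one_hom {e : ℝ} {S : X →L[ℝ] Eu d} {x : X}
    (h : ∀ y : X, ‖y‖ ≤ 1 → ‖S y‖ ^ 2 ≤ ‖S x‖ ^ 2 + e * ‖y - x‖ ^ 2) (z : X) :
    ‖S z‖ ^ 2 ≤ ‖z‖ ^ 2 * ‖S x‖ ^ 2 + e * ‖z - ‖z‖ • x‖ ^ 2 := by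
  rcases eq_or_ne z 0 with hz | hz
  · subst hz
    simp
  have hn : 0 < ‖z‖ := norm_pos_iff.2 hz
  have h1 := h (‖z‖⁻¹ • z) (by rw [norm_smul, norm_inv, norm_norm, inv_mul_cancel₀ hn.ne'])
  have h2 : S z = ‖z‖ • S (‖z‖⁻¹ • z) := by
    rw [← map_smul, smul_smul, mul_inv_cancel₀ hn.ne', one_smul]
  have h3 : z - ‖z‖ • x = ‖z‖ • (‖z‖⁻¹ • z - x) := by
    rw [smul_sub, smul_smul, mul_inv_cancel₀ hn.ne', one_smul]
  rw [h2, h3, norm_smul, norm_smul, norm_norm, mul_pow, mul_pow]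
  have := mul_le_mul_of_nonneg_left h1 (sq_nonneg ‖z‖)
  linarith

/-- The second order condition with an error. -/
theorem snd_bound {e : ℝ} (he : 0 ≤ e) {S : X →L[ℝ] Eu d} {x : X} (hx : ‖x‖ = 1)
    (h : ∀ y : X, ‖y‖ ≤ 1 → ‖S y‖ ^ 2 ≤ ‖S x‖ ^ 2 + e * ‖y - x‖ ^ 2) {u : X} {K : ℝ} (hu : SndLE x u K) :
    ‖S u‖ ^ 2 ≤ K * ‖S x‖ ^ 2 + 4 * e * ‖u‖ ^ 2 := by
  obtain ⟨r, hr, hu⟩ := hu
  obtain ⟨t, ht0, htr⟩ : ∃ t : ℝ, 0 < t ∧ t < r := ⟨r / 2, by positivity, by linarith⟩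
  have h1 := hu t (by rw [abs_of_pos ht0]; exact htr)
  have hb : ∀ v : X, ‖v‖ = t * ‖u‖ → ‖x + v - ‖x + v‖ • x‖ ≤ 2 * (t * ‖u‖) := by
    intro v hv
    have e1 : x + v - ‖x + v‖ • x = v + (1 - ‖x + v‖) • x := by
      rw [sub_smul, one_smul]
      abel
    rw [e1]
    refine (norm_add_le _ _).trans ?_
    rw [norm_smul, hx, mul_one, hv, Real.norm_eq_abs]
    have e2 : |1 - ‖x + v‖| ≤ ‖v‖ := by
      have e3 := abs_norm_sub_norm_le x (x + v)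
      rw [hx] at e3
      have e4 : x - (x + v) = -v := by abel
      rwa [e4, norm_neg] at e3
    rw [hv] at e2
    linarith
  have hnu : ‖t • u‖ = t * ‖u‖ := by rw [norm_smul, Real.norm_of_nonneg ht0.le]
  have h2 := one_hom h (x + t • u)
  have h3 := one_hom h (x - t • u)
  have h4 := hb (t • u) hnu
  have h5 := hb (-(t • u)) (by rw [norm_neg, hnu])
  rw [← sub_eq_add_neg] at h5
  have h6 := pow_le_pow_left₀ (norm_nonneg _) h4 2
  have h7 := pow_le_pow_left₀ (norm_nonneg _) h5 2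
  have h8 : ‖S (x + t • u)‖ ^ 2 + ‖S (x - t • u)‖ ^ 2 = 2 * ‖S x‖ ^ 2 + 2 * t ^ 2 * ‖S u‖ ^ 2 := by
    rw [map_add, map_sub, map_smul, norm_add_sq_real, norm_sub_sq_real, norm_smul, mul_pow, Real.norm_eq_abs, sq_abs]
    ring
  have h9 := mul_le_mul_of_nonneg_left h6 he
  have h10 := mul_le_mul_of_nonneg_left h7 he
  have h11 := mul_le_mul_of_nonneg_right h1 (sq_nonneg ‖S x‖)
  have h12 : t ^ 2 * ‖S u‖ ^ 2 ≤ t ^ 2 * (K * ‖S x‖ ^ 2 + 4 * e * ‖u‖ ^ 2) := by nlinarith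
  exact le_of_mul_le_mul_left h12 (by positivity)

/-- The first order condition. -/
theorem first_order {e : ℝ} (he : 0 ≤ e) {S : X →L[ℝ] Eu d} {x : X} (hx : ‖x‖ ≤ 1)
    (h : ∀ y : X, ‖y‖ ≤ 1 → ‖S y‖ ^ 2 ≤ ‖S x‖ ^ 2 + e * ‖y - x‖ ^ 2) {y : X} (hy : ‖y‖ ≤ 1) :
    ⟪S x, S y⟫ ≤ ‖S x‖ ^ 2 := by
  by_contra hcon
  push Not at hcon
  obtain ⟨D, hD⟩ : ∃ D : ℝ, D = ⟪S x, S y⟫ - ‖S x‖ ^ 2 := ⟨_, rfl⟩
  have hD0 : 0 < D := by rw [hD]; linarith
  obtain ⟨B, hB⟩ : ∃ B : ℝ, B = e * ‖y - x‖ ^ 2 := ⟨_, rfl⟩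
  have hB0 : 0 ≤ B := by rw [hB]; positivity
  obtain ⟨t, ht0, ht1, htD⟩ : ∃ t : ℝ, 0 < t ∧ t ≤ 1 ∧ t * (B + 1) ≤ D := by
    refine ⟨min 1 (D / (B + 1)), by positivity, min_le_left _ _, ?_⟩
    calc min 1 (D / (B + 1)) * (B + 1) ≤ D / (B + 1) * (B + 1) :=
          mul_le_mul_of_nonneg_right (min_le_right _ _) (by positivity)
      _ = D := by field_simp
  have h1 := h (x + t • (y - x)) (by
    have e1 : x + t • (y - x) = (1 - t) • x + t • y := by module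
    rw [e1]
    refine (norm_add_le _ _).trans ?_
    rw [norm_smul, norm_smul, Real.norm_of_nonneg (by linarith : 0 ≤ 1 - t), Real.norm_of_nonneg ht0.le]
    nlinarith)
  rw [add_sub_cancel_left, norm_smul, mul_pow, Real.norm_eq_abs, sq_abs, map_add, norm_add_sq_real, map_smul,
    real_inner_smul_right, map_sub, inner_sub_right, real_inner_self_eq_norm_sq, ← hD] at h1
  have h2 : 0 ≤ ‖t • (S y - S x)‖ ^ 2 := by positivity
  have h3 : e * (t ^ 2 * ‖y - x‖ ^ 2) = t ^ 2 * B := by rw [hB]; ring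
  rw [h3] at h1
  nlinarith

/-- Tangential directions. -/
theorem snd_tan {x : X} (hx : ‖x‖ = 1) {f : X →L[ℝ] ℝ} (hf : ‖f‖ ≤ 1) (hfx : f x = 1) {u : X} {K K' : ℝ}
    (h : SndLE x u K) (hK : K - (f u) ^ 2 < K') : SndLE x (u - f u • x) K' := by
  obtain ⟨r, hr, h⟩ := h
  obtain ⟨φ, hφ⟩ : ∃ φ : ℝ, φ = f u := ⟨_, rfl⟩
  obtain ⟨w, hw⟩ : ∃ w : X, w = u - f u • x := ⟨_, rfl⟩
  rw [← hφ] at hK
  rw [← hw]
  have hfw : f w = 0 := by
    rw [hw, map_sub, map_smul, smul_eq_mul, hfx, mul_one, sub_self]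
  have huw : u = w + φ • x := by rw [hw, ← hφ]; abel
  -- the norm is at least one and increases along rays
  have hge : ∀ τ : ℝ, 1 ≤ ‖x + τ • w‖ := by
    intro τ
    have e1 := f.le_opNorm (x + τ • w)
    have e2 : f (x + τ • w) = 1 := by rw [map_add, map_smul, hfw, hfx]; simp
    rw [e2, Real.norm_eq_abs, abs_one] at e1
    have e3 : ‖f‖ * ‖x + τ • w‖ ≤ 1 * ‖x + τ • w‖ := mul_le_mul_of_nonneg_right hf (norm_nonneg _)
    linarith
  have hmono : ∀ l τ : ℝ, 0 ≤ l → l ≤ 1 → ‖x + (l * τ) • w‖ ≤ ‖x + τ • w‖ := by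
    intro l τ hl0 hl1
    have e1 : x + (l * τ) • w = (1 - l) • x + l • (x + τ • w) := by module
    rw [e1]
    refine (norm_add_le _ _).trans ?_
    rw [norm_smul, norm_smul, Real.norm_of_nonneg (by linarith : 0 ≤ 1 - l), Real.norm_of_nonneg hl0, hx, mul_one]
    have := hge τ
    nlinarith
  obtain ⟨r', hr', hrr, hrφ, hrK⟩ : ∃ r' : ℝ, 0 < r' ∧ 2 * r' ≤ r ∧ 4 * (r' * (|φ| + 1)) ≤ 1 ∧
      r' * (4 * |φ| * |K'| + 1) ≤ K' - (K - φ ^ 2) := by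
    refine ⟨min (min (r / 2) (1 / (4 * (|φ| + 1)))) ((K' - (K - φ ^ 2)) / (4 * |φ| * |K'| + 1)), ?_, ?_, ?_, ?_⟩
    · have h1 : 0 < K' - (K - φ ^ 2) := by linarith
      positivity
    · have := (min_le_left (min (r / 2) (1 / (4 * (|φ| + 1)))) ((K' - (K - φ ^ 2)) / (4 * |φ| * |K'| + 1))).trans
        (min_le_left _ _)
      linarith
    · have e1 := (min_le_left (min (r / 2) (1 / (4 * (|φ| + 1)))) ((K' - (K - φ ^ 2)) / (4 * |φ| * |K'| + 1))).trans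
        (min_le_right _ _)
      have e2 := mul_le_mul_of_nonneg_right e1 (by positivity : 0 ≤ |φ| + 1)
      have e3 : 1 / (4 * (|φ| + 1)) * (|φ| + 1) = 1 / 4 := by
        have : |φ| + 1 ≠ 0 := by positivity
        field_simp
      linarith
    · have e1 := min_le_right (min (r / 2) (1 / (4 * (|φ| + 1)))) ((K' - (K - φ ^ 2)) / (4 * |φ| * |K'| + 1))
      have e2 := mul_le_mul_of_nonneg_right e1 (by positivity : 0 ≤ 4 * |φ| * |K'| + 1)
      have e3 : (K' - (K - φ ^ 2)) / (4 * |φ| * |K'| + 1) * (4 * |φ| * |K'| + 1) = K' - (K - φ ^ 2) := by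
        have : 4 * |φ| * |K'| + 1 ≠ 0 := by positivity
        field_simp
      linarith
  -- positive parameters
  have hpos : ∀ a : ℝ, 0 < a → a < r' → ‖x + a • w‖ ^ 2 + ‖x - a • w‖ ^ 2 ≤ 2 + 2 * K' * a ^ 2 := by
    intro a ha har
    have hφ0 := abs_nonneg φ
    have haφ : a * |φ| ≤ 1 / 4 := by nlinarith
    obtain ⟨q, hq⟩ : ∃ q : ℝ, q = 1 - a * |φ| := ⟨_, rfl⟩
    have hq0 : 3 / 4 ≤ q := by linarith
    have hq00 : 0 < q := by linarith
    obtain ⟨t, ht⟩ : ∃ t : ℝ, t = a / q := ⟨_, rfl⟩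
    have ht0 : 0 < t := by rw [ht]; positivity
    have htq : t * q = a := by rw [ht]; field_simp
    have ht2 : t < 2 * r' := by nlinarith
    have h1 := h t (by rw [abs_of_pos ht0]; linarith)
    -- `ρ = 1 - t |φ|`
    obtain ⟨ρ, hρ⟩ : ∃ ρ : ℝ, ρ = 1 - t * |φ| := ⟨_, rfl⟩
    have hρq : ρ * q = q - a * |φ| := by rw [hρ, ← htq]; ring
    have hρ0 : 0 < ρ := by
      have : 0 < ρ * q := by rw [hρq]; linarith
      exact pos_of_mul_pos_left this hq00.le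
    have hφ1 := neg_abs_le φ
    have hφ2 := le_abs_self φ
    have hp : ρ ≤ 1 + t * φ := by nlinarith
    have hm : ρ ≤ 1 - t * φ := by nlinarith
    have hp0 : 0 < 1 + t * φ := by linarith
    have hm0 : 0 < 1 - t * φ := by linarith
    -- `q (1 + t|φ|) = 1`
    have hq1 : q * (1 + t * |φ|) = 1 := by
      have : q * (1 + t * |φ|) = q + t * q * |φ| := by ring
      rw [this, htq, hq]
      ring
    obtain ⟨A, hA⟩ : ∃ A : ℝ, A = ‖x + (t / (1 + t * φ)) • w‖ := ⟨_, rfl⟩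
    obtain ⟨B, hB⟩ : ∃ B : ℝ, B = ‖x + (-(t / (1 - t * φ))) • w‖ := ⟨_, rfl⟩
    have hA1 : 1 ≤ A := by rw [hA]; exact hge _
    have hB1 : 1 ≤ B := by rw [hB]; exact hge _
    have hAu : ‖x + t • u‖ = (1 + t * φ) * A := by
      have e1 : x + t • u = (1 + t * φ) • (x + (t / (1 + t * φ)) • w) := by
        rw [smul_add, smul_smul, mul_div_cancel₀ _ hp0.ne', huw]
        module
      rw [e1, norm_smul, Real.norm_of_nonneg hp0.le, hA]
    have hBu : ‖x - t • u‖ = (1 - t * φ) * B := by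
      have e1 : x - t • u = (1 - t * φ) • (x + (-(t / (1 - t * φ))) • w) := by
        rw [smul_add, smul_smul, mul_neg, mul_div_cancel₀ _ hm0.ne', huw]
        module
      rw [e1, norm_smul, Real.norm_of_nonneg hm0.le, hB]
    have hAa : ‖x + a • w‖ ≤ A := by
      have e1 := hmono (q * (1 + t * φ)) (t / (1 + t * φ)) (by positivity) (by nlinarith)
      have e2 : q * (1 + t * φ) * (t / (1 + t * φ)) = a := by
        rw [mul_assoc, mul_div_cancel₀ _ hp0.ne', mul_comm, htq]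
      rw [e2, ← hA] at e1
      exact e1
    have hBa : ‖x - a • w‖ ≤ B := by
      have e1 := hmono (q * (1 - t * φ)) (-(t / (1 - t * φ))) (by positivity) (by nlinarith)
      have e2 : q * (1 - t * φ) * (-(t / (1 - t * φ))) = -a := by
        rw [mul_neg, mul_assoc, mul_div_cancel₀ _ hm0.ne', mul_comm, htq]
      rw [e2, ← hB, neg_smul, ← sub_eq_add_neg] at e1
      exact e1
    rw [hAu, hBu] at h1
    have hA2 : 0 ≤ A ^ 2 - 1 := by nlinarith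
    have hB2 : 0 ≤ B ^ 2 - 1 := by nlinarith
    have hρp : ρ ^ 2 ≤ (1 + t * φ) ^ 2 := pow_le_pow_left₀ hρ0.le hp 2
    have hρm : ρ ^ 2 ≤ (1 - t * φ) ^ 2 := pow_le_pow_left₀ hρ0.le hm 2
    have h2 : ρ ^ 2 * ((A ^ 2 - 1) + (B ^ 2 - 1)) ≤ 2 * (K - φ ^ 2) * t ^ 2 := by
      have e1 := mul_le_mul_of_nonneg_right hρp hA2
      have e2 := mul_le_mul_of_nonneg_right hρm hB2
      nlinarith
    have hL : 0 ≤ K - φ ^ 2 := by
      have e1 : 0 ≤ ρ ^ 2 * ((A ^ 2 - 1) + (B ^ 2 - 1)) := by positivity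
      have e2 : 0 ≤ (K - φ ^ 2) * t ^ 2 := by linarith
      exact nonneg_of_mul_nonneg_left e2 (by positivity)
    have hK' : 0 < K' := by linarith
    rw [abs_of_pos hK'] at hrK
    -- `t² ≤ ...`
    have h3 : (K - φ ^ 2) * t ^ 2 ≤ K' * a ^ 2 * ρ ^ 2 := by
      -- `t q = a`, `ρ q = q - a |φ|`
      have e1 : (K - φ ^ 2) ≤ K' * (q - a * |φ|) ^ 2 := by
        have e2 : 1 - 4 * (a * |φ|) ≤ (q - a * |φ|) ^ 2 := by
          rw [hq]
          nlinarith [sq_nonneg (a * |φ|)]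
        have e3 := mul_le_mul_of_nonneg_left e2 hK'.le
        have e4 : a * (4 * |φ| * K' + 1) ≤ r' * (4 * |φ| * K' + 1) := mul_le_mul_of_nonneg_right har.le (by positivity)
        nlinarith
      have e5 : K' * a ^ 2 * ρ ^ 2 = t ^ 2 * (K' * (q - a * |φ|) ^ 2) := by
        rw [← hρq, ← htq]
        ring
      rw [e5, mul_comm]
      exact mul_le_mul_of_nonneg_left e1 (sq_nonneg t)
    have h4 : ρ ^ 2 * ((A ^ 2 - 1) + (B ^ 2 - 1)) ≤ ρ ^ 2 * (2 * K' * a ^ 2) := by nlinarith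
    have h5 : (A ^ 2 - 1) + (B ^ 2 - 1) ≤ 2 * K' * a ^ 2 := le_of_mul_le_mul_left h4 (by positivity)
    have h6 := pow_le_pow_left₀ (norm_nonneg _) hAa 2
    have h7 := pow_le_pow_left₀ (norm_nonneg _) hBa 2
    linarith
  refine ⟨r', hr', fun s hs => ?_⟩
  rcases lt_trichotomy s 0 with h0 | h0 | h0
  · have e1 := hpos (-s) (by linarith) (by rwa [abs_of_neg h0] at hs)
    rw [neg_smul, neg_sq, sub_neg_eq_add, ← sub_eq_add_neg] at e1
    linarith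
  · subst h0
    simp [hx]
    norm_num
  · exact hpos s h0 (by rwa [abs_of_pos h0] at hs)

end Pool.Agent.Lib.MP_b6bd4b_an.SQ
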