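import Pool.Agent.Lib.MP_b6bd4b_an.SQ.Lim
import Pool.Agent.Lib.MP_b6bd4b_an.SQ.Cnv
import Pool.Agent.Lib.MP_b6bd4b_an.SB.Pie

/-!
Module Var: a quadratic variational principle in arbitrary Banach spaces, for the Lipschitz functions `Φ` such
that `Φ - ‖T ·‖²` is concave for an operator `T` of finite rank.
-/

namespace Pool.Agent.Lib.MP_b6bd4b_an.SQ

open Finset SB

universe u

/-- The form `B` is symmetric, positive, and `2`-dominated with constant `ε`. -/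
structure PosDom {X : Type*} [NormedAddCommGroup X] [NormedSpace ℝ X] (ε : ℝ)
    (B : X →L[ℝ] X →L[ℝ] ℝ) : Prop where
  symm : ∀ u v, B u v = B v u
  pos : ∀ u, 0 ≤ B u u
  bound : ∀ u v, |B u v| ≤ ε * (‖u‖ * ‖v‖)
  dom : ∀ (n : ℕ) (u : Fin n → X) (σ : ℝ), (∀ g : X →L[ℝ] ℝ, ‖g‖ ≤ 1 → ∑ k, g (u k) ^ 2 ≤ σ) →
    ∑ k, B (u k) (u k) ≤ ε * σ

/-- Quadratic variational principle. -/
theorem variational (d : ℕ) (hd : 1 ≤ d) (R ε : ℝ) (hR : 0 < R) (hε : 0 < ε) : ∃ η : ℝ, 0 < η ∧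
    ∀ (X : Type u) [NormedAddCommGroup X] [NormedSpace ℝ X] [CompleteSpace X]
      (T : X →L[ℝ] Eu d) (C : Set X) (Φ : X → ℝ) (K L : ℝ), ‖T‖ ≤ R → Convex ℝ C → IsClosed C →
      (∀ y ∈ C, ‖y‖ ≤ 1) → (∀ y ∈ C, Φ y ≤ K) → (∀ x ∈ C, ∀ y ∈ C, Φ y - Φ x ≤ L * ‖x - y‖) →
      ConcaveOn ℝ C (fun y => Φ y - ‖T y‖ ^ 2) → ∀ x0 ∈ C, K - η < Φ x0 →
      ∃ p ∈ C, ∃ (B : X →L[ℝ] X →L[ℝ] ℝ) (f : X →L[ℝ] ℝ), ‖p - x0‖ < ε ∧ PosDom ε B ∧ ‖f‖ ≤ ε ∧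
        ∀ y ∈ C, Φ y ≤ Φ p + B (y - p) (y - p) + f (y - p) := by
  -- the constants
  obtain ⟨a, ha0, ha1, ha2⟩ : ∃ a : ℝ, 0 < a ∧ a ≤ 1 ∧ R ^ 2 * a ≤ ε := by
    refine ⟨min 1 (ε / R ^ 2), by positivity, min_le_left _ _, ?_⟩
    calc R ^ 2 * min 1 (ε / R ^ 2) ≤ R ^ 2 * (ε / R ^ 2) :=
          mul_le_mul_of_nonneg_left (min_le_right _ _) (by positivity)
      _ = ε := by field_simp
  set M : ℝ := 4 * ((2 / a + 4 / a) * (2560 * d ^ 2 / (a * a)) ^ d * (6 * (d + 1)) ^ (d + 1)) with hM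
  have hM0 : 0 < M := by
    have : (0 : ℝ) < d := by exact_mod_cast hd
    positivity
  obtain ⟨ρ, hρ0, hρ1, hρ2⟩ : ∃ ρ : ℝ, 0 < ρ ∧ ρ ≤ 1 ∧ M * Real.sqrt ρ < ε := by
    set κ : ℝ := ε / (2 * M) with hκ
    have hκ0 : 0 < κ := by positivity
    refine ⟨min (κ ^ 2) 1, by positivity, min_le_right _ _, ?_⟩
    have h1 : Real.sqrt (min (κ ^ 2) 1) ≤ κ := by
      rw [Real.sqrt_le_left hκ0.le]
      exact min_le_left _ _
    have h2 : M * κ = ε / 2 := by rw [hκ]; field_simp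
    calc M * Real.sqrt (min (κ ^ 2) 1) ≤ M * κ := mul_le_mul_of_nonneg_left h1 hM0.le
      _ = ε / 2 := h2
      _ < ε := by linarith
  refine ⟨R ^ 2 * ρ, by positivity, fun X _ _ _ T C Φ K L hT hCc hCl hC1 hK hL hcc x0 hx0 hΦ => ?_⟩
  -- scaling
  set T1 : X →L[ℝ] Eu d := R⁻¹ • T with hT1
  have hT1n : ‖T1‖ ≤ 1 := by
    rw [hT1, norm_smul, norm_inv, Real.norm_of_nonneg hR.le, inv_mul_le_iff₀ hR, mul_one]
    exact hT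
  have hT1y : ∀ y, ‖T1 y‖ ^ 2 = ‖T y‖ ^ 2 / R ^ 2 := by
    intro y
    have : T1 y = R⁻¹ • T y := rfl
    rw [this, norm_smul, norm_inv, Real.norm_of_nonneg hR.le, mul_pow, inv_pow]
    field_simp
  set Φ1 : X → ℝ := fun y => Φ y / R ^ 2 with hΦ1
  have hR2 : 0 < R ^ 2 := by positivity
  have hK1 : ∀ y ∈ C, Φ1 y ≤ K / R ^ 2 := fun y hy => div_le_div_of_nonneg_right (hK y hy) hR2.le
  have hL1 : ∀ x ∈ C, ∀ y ∈ C, Φ1 y - Φ1 x ≤ (L / R ^ 2) * ‖x - y‖ := by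
    intro x hx y hy
    simp only [hΦ1]
    rw [← sub_div, div_mul_eq_mul_div]
    exact div_le_div_of_nonneg_right (hL x hx y hy) hR2.le
  have hcc1 : ConcaveOn ℝ C (fun y => Φ1 y - ‖T1 y‖ ^ 2) := by
    have h1 := hcc.smul (c := (R ^ 2)⁻¹) (by positivity)
    have h2 : (fun y => Φ1 y - ‖T1 y‖ ^ 2) = fun y => (R ^ 2)⁻¹ • (Φ y - ‖T y‖ ^ 2) := by
      funext y
      rw [hT1y, hΦ1, smul_eq_mul]
      field_simp
    rw [h2]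
    exact h1
  have hev : ev Φ1 C a a (1 / 2) x0 ≤ ρ := by
    refine (ev_le Φ1 C (K / R ^ 2) hK1 a a (1 / 2) ha0.le ha0.le (by norm_num) x0 hx0).trans ?_
    simp only [hΦ1]
    rw [← sub_div, div_le_iff₀ hR2]
    linarith
  obtain ⟨p, hpC, hp0, hpx⟩ := limit hd T1 hT1n Φ1 C (K / R ^ 2) (L / R ^ 2) hC1 hK1 hL1 hcc1 hCc hCl a a
    ha0 ha1 ha0 ha1 x0 hx0 ρ hρ0 hρ1 hev
  rw [← hM] at hpx
  obtain ⟨B, f, hsym, hpsd, hB, hdom, hf, hmain⟩ := pietsch C a a ha0 ha0.le p hpC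
    (fun y => Φ1 y - Φ1 p) (sub_self _)
    (fun ι _ w y σ hw0 hw1 hy hσ => conv_dual Φ1 C (K / R ^ 2) hK1 a a ha0.le ha0.le p hp0 w hw0 hw1 y hy σ hσ)
  have hRa : 0 < R ^ 2 * a := by positivity
  refine ⟨p, hpC, (R ^ 2 * a) • B, (R ^ 2) • f, lt_of_le_of_lt hpx hρ2, ⟨?_, ?_, ?_, ?_⟩, ?_, ?_⟩
  · intro u v
    change (R ^ 2 * a) * B u v = (R ^ 2 * a) * B v u
    rw [hsym]
  · intro u
    exact mul_nonneg hRa.le (hpsd u)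
  · intro u v
    change |(R ^ 2 * a) * B u v| ≤ ε * (‖u‖ * ‖v‖)
    rw [abs_mul, abs_of_pos hRa]
    exact mul_le_mul ha2 (hB u v) (abs_nonneg _) hε.le
  · intro n u σ hσ
    have hσ0 : 0 ≤ σ := by
      have := hσ 0 (by simp)
      simpa using this
    have h1 : ∑ k, ((R ^ 2 * a) • B) (u k) (u k) = (R ^ 2 * a) * ∑ k, B (u k) (u k) := by
      rw [Finset.mul_sum]
      rfl
    rw [h1]
    exact mul_le_mul ha2 (hdom n u σ hσ) (Finset.sum_nonneg fun k _ => hpsd _) hε.le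
  · rw [norm_smul, Real.norm_of_nonneg hR2.le]
    exact (mul_le_mul_of_nonneg_left hf hR2.le).trans ha2
  · intro y hy
    have h1 := hmain y hy
    simp only [hΦ1] at h1
    rw [← sub_div, div_le_iff₀ hR2] at h1
    change Φ y ≤ Φ p + (R ^ 2 * a) * B (y - p) (y - p) + R ^ 2 * f (y - p)
    nlinarith

end Pool.Agent.Lib.MP_b6bd4b_an.SQ
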